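import Pool.Agent.K6.H51.MHA.Full
import Pool.Agent.R142.MagHom

set_option autoImplicit false

/-! The magnitude homology of a graph with isometrically embedded vertices. -/

namespace Pool.Agent.K6.H51.MHA

open Finsupp Filter Topology Pool.Agent.R142.MagHom

universe u v

/-- the length of a tuple -/
def len {R : Type} (d : R → R → ℕ) {k : ℕ} (x : Fin (k + 1) → R) : ℕ :=
  ∑ i : Fin k, d (x i.castSucc) (x i.succ)

theorem len_succ {R : Type} (d : R → R → ℕ) {k : ℕ} (x : Fin (k + 2) → R) :
    len d x = d (x 0) (x 1) + len d (fun t => x t.succ) := by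
  unfold len
  rw [Fin.sum_univ_succ]
  rfl

theorem len_last {R : Type} (d : R → R → ℕ) {k : ℕ} (x : Fin (k + 2) → R) :
    len d x = len d (fun t => x t.castSucc) + d (x (Fin.last k).castSucc) (x (Fin.last (k + 1))) := by
  unfold len
  rw [Fin.sum_univ_castSucc]
  rfl

theorem len_remove {R : Type} (d : R → R → ℕ) {k : ℕ} (x : Fin (k + 2) → R) (j : Fin k) :
    len d (fun t => x (j.succ.castSucc.succAbove t)) + (d (x j.castSucc.castSucc) (x j.succ.castSucc)
      + d (x j.succ.castSucc) (x j.succ.succ)) = len d x + d (x j.castSucc.castSucc) (x j.succ.succ) := by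
  induction k with
  | zero => exact j.elim0
  | succ k ih =>
    refine Fin.cases ?_ (fun j => ?_) j
    · rw [len_succ, len_succ d x, len_succ]
      have e1 : (Fin.succ (0 : Fin (k + 1))).castSucc.succAbove 0 = 0 := rfl
      have e2 : (Fin.succ (0 : Fin (k + 1))).castSucc.succAbove 1 = Fin.succ (Fin.succ 0) := rfl
      have e3 : ∀ t : Fin (k + 1), (Fin.succ (0 : Fin (k + 1))).castSucc.succAbove t.succ =
          t.succ.succ := by
        intro t
        have : (Fin.succ (0 : Fin (k + 1))).castSucc = (Fin.succ (Fin.castSucc 0)) := rfl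
        rw [this, Fin.succ_succAbove_succ]
        rfl
      simp only [e1, e2, e3]
      have e4 : (Fin.castSucc (Fin.castSucc (0 : Fin (k + 1)))) = 0 := rfl
      have e5 : (Fin.castSucc (Fin.succ (0 : Fin (k + 1)))) = 1 := rfl
      have e6 : (Fin.succ (0 : Fin (k + 2))) = 1 := rfl
      have e7 : (Fin.succ (1 : Fin (k + 2))) = Fin.succ (Fin.succ (0 : Fin (k + 1))) := rfl
      rw [e4, e5, e6, e7]
      omega
    · rw [len_succ, len_succ d x]
      have h := ih (fun t => x t.succ) j
      have e1 : j.succ.succ.castSucc.succAbove 0 = 0 := rfl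
      have e2 : j.succ.succ.castSucc.succAbove 1 = 1 := rfl
      have e3 : ∀ t : Fin (k + 1), j.succ.succ.castSucc.succAbove t.succ =
          (j.succ.castSucc.succAbove t).succ := by
        intro t
        have : j.succ.succ.castSucc = j.succ.castSucc.succ := rfl
        rw [this, Fin.succ_succAbove_succ]
      simp only [e1, e2, e3]
      have e4 : ∀ a : Fin k, x a.succ.castSucc.castSucc = x a.castSucc.castSucc.succ := fun a => rfl
      have e5 : ∀ a : Fin (k + 1), x a.succ.castSucc = x a.castSucc.succ := fun a => rfl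
      rw [e4, e5 j.succ]
      exact (Nat.add_assoc _ _ _).trans
        ((congrArg (fun z => d (x 0) (x 1) + z) h).trans (Nat.add_assoc _ _ _).symm)

/-- the boundary of the list of a tuple -/
theorem lbd_ofFn {α : Type v} {k : ℕ} (y : Fin (k + 1) → α) : lbd (List.ofFn y) =
    ∑ i : Fin (k + 1), ((-1 : ℤ) ^ (i : ℕ)) • single (List.ofFn fun t => y (i.succAbove t)) 1 := by
  induction k with
  | zero =>
    rw [Fin.sum_univ_one, List.ofFn_succ, lbd_cons, List.ofFn_zero]
    show single [] 1 - mapDomain _ 0 = _
    rw [mapDomain_zero, sub_zero]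
    simp
  | succ k ih =>
    rw [List.ofFn_succ, lbd_cons, ih, Fin.sum_univ_succ (n := k + 1), sub_eq_add_neg]
    congr 1
    · simp
    · rw [mapDomain_finsetSum, ← Finset.sum_neg_distrib]
      refine Finset.sum_congr rfl fun i _ => ?_
      rw [mapDomain_smul, mapDomain_single, Fin.val_succ, pow_succ, mul_neg, mul_one, neg_smul]
      congr 3
      rw [List.ofFn_succ]
      congr 2
      funext t
      rw [Fin.succ_succAbove_succ]

theorem ofFn_erase {α : Type v} {k : ℕ} (y : Fin (k + 1) → α) (i : Fin (k + 1)) :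
    ∃ P Q, List.ofFn y = P ++ y i :: Q ∧ (List.ofFn fun t => y (i.succAbove t)) = P ++ Q := by
  induction k with
  | zero =>
    have hi : i = 0 := Fin.fin_one_eq_zero i
    subst hi
    exact ⟨[], [], by simp, by simp⟩
  | succ k ih =>
    refine Fin.cases ?_ (fun i => ?_) i
    · refine ⟨[], List.ofFn fun t => y t.succ, ?_, ?_⟩
      · rw [List.ofFn_succ]; rfl
      · simp
    · obtain ⟨P, Q, h1, h2⟩ := ih (fun t => y t.succ) i
      refine ⟨y 0 :: P, Q, ?_, ?_⟩
      · rw [List.ofFn_succ, h1]; rfl
      · rw [List.ofFn_succ]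
        show y (i.succ.succAbove 0) :: _ = y 0 :: (P ++ Q)
        rw [← h2]
        have e1 : i.succ.succAbove 0 = 0 := Fin.succ_succAbove_zero i
        rw [e1]
        congr 2
        funext t
        rw [Fin.succ_succAbove_succ]

theorem cr_ofFn {I : Type v} {k : ℕ} (y : Fin (k + 1) → I → Bool) (i : I) :
    cr (List.ofFn y) i = ∑ j : Fin k, dd (y j.castSucc) (y j.succ) i := by
  induction k with
  | zero => simp [cr_one]
  | succ k ih =>
    have h1 := ih fun t => y t.succ
    rw [List.ofFn_succ] at h1
    rw [List.ofFn_succ, List.ofFn_succ, cr_two, h1, Fin.sum_univ_succ]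
    rfl

end Pool.Agent.K6.H51.MHA
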