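import Pool.Agent.K6.H51.MHA.Bridge

set_option autoImplicit false

/-! The magnitude homology of a graph with isometrically embedded vertices: the comparison. -/

namespace Pool.Agent.K6.H51.MHA

open Finsupp Filter Topology Pool.Agent.R142.MagHom

universe u v

variable {V : Type u} [AddCommGroup V] [Module ℝ V] {I : Type v} [Fintype I]
  {f : I → V →ₗ[ℝ] ℝ} {R : Type} {G : SimpleGraph R} {s : R → (I → Bool)}

variable (s) in
/-- the list of a tuple -/
def il {k : ℕ} (x : Fin k → R) : List (I → Bool) := List.ofFn fun t => s (x t)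

omit [Fintype I] in
theorem il_inj (hs : Function.Injective s) (k : ℕ) : Function.Injective (il s (k := k)) := by
  intro x y h
  have h1 := List.ofFn_injective h
  funext t
  exact hs (congrFun h1 t)

omit [Fintype I] in
theorem il_length {k : ℕ} (x : Fin k → R) : (il s x).length = k := by simp [il]

theorem sum_cr_il (hd : ∀ a b, G.dist a b = ∑ i, dd (s a) (s b) i) {k : ℕ} (x : Fin (k + 1) → R) :
    ∑ i, cr (il s x) i = len G.dist x := by
  unfold il len
  simp only [cr_ofFn, hd]
  exact Finset.sum_comm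

theorem il_chain (hs : Function.Injective s) {k : ℕ} (x : Fin (k + 1) → R) :
    (il s x).IsChain (· ≠ ·) ↔ ∀ i : Fin k, x i.castSucc ≠ x i.succ := by
  unfold il
  rw [List.isChain_ofFn]
  constructor
  · intro h i hi
    apply h i.1 (by omega)
    show s (x i.castSucc) = s (x i.succ)
    rw [hi]
  · intro h i hi h2
    exact h ⟨i, by omega⟩ (hs h2)

theorem il_mem_SL (hs : Function.Injective s) (hr : ∀ a, a ∈ Ch f ↔ ∃ r, s r = a)
    (hd : ∀ a b, G.dist a b = ∑ i, dd (s a) (s b) i) {k l : ℕ} (x : Fin (k + 1) → R) :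
    il s x ∈ SL f l ↔ x ∈ Tuples G k l := by
  constructor
  · rintro ⟨_, _, h3, h4⟩
    rw [sum_cr_il hd] at h4
    exact ⟨(il_chain hs x).1 h3, h4⟩
  · rintro ⟨h1, h2⟩
    refine ⟨?_, ?_, (il_chain hs x).2 h1, ?_⟩
    · intro h
      have := congrArg List.length h
      rw [il_length] at this
      simp at this
    · intro a ha
      rw [il, List.mem_ofFn] at ha
      obtain ⟨t, rfl⟩ := ha
      exact (hr _).2 ⟨_, rfl⟩
    · rw [sum_cr_il hd]
      exact h2

theorem il_surj (hr : ∀ a, a ∈ Ch f ↔ ∃ r, s r = a) {l k : ℕ} {L : List (I → Bool)}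
    (hL : L ∈ SL f l) (hk : L.length = k) : ∃ x : Fin k → R, il s x = L := by
  subst hk
  have h1 : ∀ t : Fin L.length, ∃ r, s r = L.get t := fun t =>
    (hr _).1 (hL.2.1 _ (List.get_mem L t))
  choose x hx using h1
  refine ⟨x, ?_⟩
  unfold il
  simp only [hx]
  exact List.ofFn_get L

theorem dist_pos (hs : Function.Injective s) (hd : ∀ a b, G.dist a b = ∑ i, dd (s a) (s b) i)
    {a b : R} (h : a ≠ b) : 0 < G.dist a b := by
  rw [Nat.pos_iff_ne_zero]
  intro h0
  apply h
  apply hs
  rw [hd, Finset.sum_eq_zero_iff] at h0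
  funext i
  exact dd_eq_zero.1 (h0 i (Finset.mem_univ i))

theorem il_erase_mem (hs : Function.Injective s) (hr : ∀ a, a ∈ Ch f ↔ ∃ r, s r = a)
    (hd : ∀ a b, G.dist a b = ∑ i, dd (s a) (s b) i) {k l : ℕ} {x : Fin (k + 2) → R}
    (hx : x ∈ Tuples G (k + 1) l) (i : Fin (k + 2)) :
    (il s fun t => x (i.succAbove t)) ∈ SL f l ↔ len G.dist (fun t => x (i.succAbove t)) = l := by
  constructor
  · intro h
    exact ((il_mem_SL hs hr hd _).1 h).2
  · intro h
    have hx' := (il_mem_SL hs hr hd x).2 hx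
    obtain ⟨P, Q, h1, h2⟩ := ofFn_erase (fun t => s (x t)) i
    have h1' : il s x = P ++ s (x i) :: Q := h1
    have h2' : (il s fun t => x (i.succAbove t)) = P ++ Q := h2
    rw [← sum_cr_il hd, h2'] at h
    rw [h1'] at hx'
    rw [h2']
    have hne : P ++ Q ≠ [] := by
      rw [← h2']
      intro h
      have := congrArg List.length h
      rw [il_length] at this
      simp at this
    have hcr : cr (P ++ Q) = cr (P ++ s (x i) :: Q) := by
      have h3 := hx'.2.2.2
      rw [← h] at h3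
      have h4 : ∀ j ∈ Finset.univ, cr (P ++ Q) j ≤ cr (P ++ s (x i) :: Q) j :=
        fun j _ => cr_erase_le P _ Q j
      funext j
      exact (Finset.sum_eq_sum_iff_of_le h4).1 h3.symm j (Finset.mem_univ j)
    obtain ⟨_, _, _, _, _, _, _, _, h5⟩ := MC_erase (SL_MC hx') hne hcr
    exact ⟨hne, h5.2.1, h5.2.2.1, h⟩

open Classical in
theorem pr_single {α : Type v} (S : Set α) (a : α) :
    pr S (single a (1 : ℤ)) = if a ∈ S then single a 1 else 0 := by
  by_cases h : a ∈ S
  · rw [if_pos h, pr_eq_self (inS_single h 1)]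
  · rw [if_neg h]
    ext b
    by_cases hb : b ∈ S
    · rw [pr_apply_mem hb, Finsupp.single_eq_of_ne' (show a ≠ b from fun h' => h (h' ▸ hb))]
      rfl
    · rw [pr_apply_notMem hb]
      rfl

theorem pr_lbd (hs : Function.Injective s) (hr : ∀ a, a ∈ Ch f ↔ ∃ r, s r = a)
    (hd : ∀ a b, G.dist a b = ∑ i, dd (s a) (s b) i) {k l : ℕ} {x : Fin (k + 2) → R}
    (hx : x ∈ Tuples G (k + 1) l) :
    pr (SL f l) (lbd (il s x)) = mapDomain (il s) (bd G k (single x 1)) := by
  classical
  have hlen : len G.dist x = l := hx.2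
  unfold il
  rw [lbd_ofFn, map_sum, Fin.sum_univ_succ, Fin.sum_univ_castSucc, bd_single, mapDomain_finsetSum]
  have e0 : pr (SL f l) (((-1 : ℤ) ^ ((0 : Fin (k + 2)) : ℕ)) •
      single (List.ofFn fun t => s (x ((0 : Fin (k + 2)).succAbove t))) 1) = 0 := by
    rw [map_zsmul, pr_single, if_neg, smul_zero]
    intro h
    have h1 := (il_erase_mem hs hr hd hx 0).1 h
    have h2 := len_succ G.dist x
    have h3 := dist_pos hs hd (hx.1 0)
    have h4 : len G.dist (fun t => x ((0 : Fin (k + 2)).succAbove t)) =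
      len G.dist (fun t => x t.succ) := rfl
    have h5 : G.dist (x (Fin.castSucc 0)) (x (Fin.succ 0)) = G.dist (x 0) (x 1) := rfl
    omega
  have e1 : pr (SL f l) (((-1 : ℤ) ^ (((Fin.last k).succ : Fin (k + 2)) : ℕ)) •
      single (List.ofFn fun t => s (x ((Fin.last k).succ.succAbove t))) 1) = 0 := by
    rw [map_zsmul, pr_single, if_neg, smul_zero]
    intro h
    have h1 := (il_erase_mem hs hr hd hx (Fin.last k).succ).1 h
    have h2 := len_last G.dist x
    have h3 := dist_pos hs hd (hx.1 (Fin.last k))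
    have h4 : (Fin.last k).succ.succAbove = Fin.castSucc := by
      rw [Fin.succ_last, Fin.succAbove_last]
    rw [h4] at h1
    rw [Fin.succ_last] at h3
    have h1' : len G.dist (fun t => x t.castSucc) = l := h1
    have h3' : 0 < G.dist (x (Fin.last k).castSucc) (x (Fin.last (k + 1))) := h3
    omega
  rw [e0, e1, zero_add, add_zero]
  refine Finset.sum_congr rfl fun j _ => ?_
  rw [map_zsmul, mapDomain_smul, pr_single, Fin.val_succ, Fin.val_castSucc]
  congr 1
  have hj : j.castSucc.succ = j.succ.castSucc := Fin.succ_castSucc j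
  have h6 := len_remove G.dist x j
  rw [face]
  by_cases hc : G.dist (x j.castSucc.castSucc) (x j.succ.succ) =
      G.dist (x j.castSucc.castSucc) (x j.succ.castSucc) +
        G.dist (x j.succ.castSucc) (x j.succ.succ)
  · rw [if_pos hc, if_pos, mapDomain_single, hj]
    rw [hj]
    apply (il_erase_mem hs hr hd hx _).2
    omega
  · rw [if_neg hc, if_neg, mapDomain_zero]
    rw [hj]
    intro h
    have h7 := (il_erase_mem hs hr hd hx _).1 h
    apply hc
    omega

/-- the comparison -/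
theorem MH_equiv (hs : Function.Injective s) (hr : ∀ a, a ∈ Ch f ↔ ∃ r, s r = a)
    (hd : ∀ a b, G.dist a b = ∑ i, dd (s a) (s b) i) (k l : ℕ) :
    Nonempty (MH G k l ≃+ (LB (I → Bool)).HG (SL f l) ((k + 1 : ℕ) : ℤ)) := by
  classical
  have hA : ∀ (k : ℕ) (z : (Fin (k + 1) → R) →₀ ℤ), z ∈ R142.MagHom.MC G k l →
      InS (SL f l) (mapDomain (il s) z) ∧
        (LB (I → Bool)).Hom ((k + 1 : ℕ) : ℤ) (mapDomain (il s) z) := by
    intro k z hz
    have key : ∀ L, mapDomain (il s) z L ≠ 0 → ∃ x ∈ Tuples G k l, il s x = L := by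
      intro L hL
      have h1 : L ∈ (mapDomain (il s) z).support := Finsupp.mem_support_iff.2 hL
      have h2 := Finsupp.mapDomain_support h1
      rw [Finset.mem_image] at h2
      obtain ⟨x, hx, hx'⟩ := h2
      exact ⟨x, (Finsupp.mem_supported ℤ z).1 hz hx, hx'⟩
    constructor
    · intro L hL
      obtain ⟨x, hx, rfl⟩ := key L hL
      exact (il_mem_SL hs hr hd x).2 hx
    · intro L hL
      obtain ⟨x, hx, rfl⟩ := key L hL
      show ((LB (I → Bool)).deg _ : ℤ) = _
      rw [LB_deg, il_length]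
  have hB : ∀ (k : ℕ) (w : List (I → Bool) →₀ ℤ), InS (SL f l) w →
      (LB (I → Bool)).Hom ((k + 1 : ℕ) : ℤ) w → ∃ z ∈ R142.MagHom.MC G k l, mapDomain (il s) z = w := by
    intro k w hw hwk
    have hsub : (w.support : Set (List (I → Bool))) ⊆ Set.range (il s (k := k + 1)) := by
      intro L hL
      have hL' := Finsupp.mem_support_iff.1 hL
      have h1 : (((LB (I → Bool)).deg L : ℕ) : ℤ) = ((k + 1 : ℕ) : ℤ) := hwk L hL'
      rw [LB_deg] at h1
      obtain ⟨x, hx⟩ := il_surj hr (hw L hL') (k := k + 1) (by omega)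
      exact ⟨x, hx⟩
    refine ⟨w.comapDomain (il s) ((il_inj hs _).injOn), ?_, ?_⟩
    · refine (Finsupp.mem_supported ℤ _).2 fun x hx => ?_
      have h1 : w (il s x) ≠ 0 := by
        have := Finsupp.mem_support_iff.1 hx
        rwa [Finsupp.comapDomain_apply] at this
      exact (il_mem_SL hs hr hd x).1 (hw _ h1)
    · exact Finsupp.mapDomain_comapDomain _ (il_inj hs _) _ hsub
  have hD : ∀ (k : ℕ) (z : (Fin (k + 2) → R) →₀ ℤ), z ∈ R142.MagHom.MC G (k + 1) l →
      (LB (I → Bool)).DS (SL f l) (mapDomain (il s) z) = mapDomain (il s) (bd G k z) := by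
    intro k z hz
    have hz' : z ∈ Finsupp.supported ℤ ℤ (Tuples G (k + 1) l) := hz
    rw [Finsupp.supported_eq_span_single] at hz'
    clear hz
    induction hz' using Submodule.span_induction with
    | mem y hy =>
      obtain ⟨x, hx, rfl⟩ := hy
      rw [mapDomain_single, BCx.DS_apply, LB_D]
      exact pr_lbd hs hr hd hx
    | zero => simp
    | add y z _ _ hy hz => rw [mapDomain_add, map_add, hy, hz, map_add, mapDomain_add]
    | smul a y _ hy => rw [mapDomain_smul, map_zsmul, hy, map_smul, mapDomain_smul]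
  have hinj : ∀ k, Function.Injective (mapDomain (M := ℤ) (il s (k := k))) := fun k =>
    Finsupp.mapDomain_injective (il_inj hs k)
  -- the map to the homology
  have hcyc : ∀ z : (Fin (k + 1) → R) →₀ ℤ, z ∈ cyc G k l ↔ z ∈ R142.MagHom.MC G k l ∧
      (LB (I → Bool)).DS (SL f l) (mapDomain (il s) z) = 0 := by
    intro z
    cases k with
    | zero =>
      constructor
      · intro hz
        refine ⟨hz, ?_⟩
        ext L
        by_contra hL
        obtain ⟨hz1, hz2⟩ := hA 0 z hz
        have h1 := (LB (I → Bool)).inS_DS (SL f l) (mapDomain (il s) z) L hL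
        have h2 : (((LB (I → Bool)).deg L : ℕ) : ℤ) = 0 := by
          have h3 : (LB (I → Bool)).Hom ((0 : ℤ) + 1) (mapDomain (il s) z) := by
            intro L' hL'
            have h4 : (((LB (I → Bool)).deg L' : ℕ) : ℤ) = ((0 + 1 : ℕ) : ℤ) := hz2 L' hL'
            show (((LB (I → Bool)).deg L' : ℕ) : ℤ) = 0 + 1
            rw [h4]
            norm_num
          exact h3.DS (SL f l) L hL
        rw [LB_deg] at h2
        apply h1.1
        apply List.length_eq_zero_iff.1
        exact_mod_cast h2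
      · exact fun h => h.1
    | succ k =>
      show z ∈ R142.MagHom.MC G (k + 1) l ⊓ LinearMap.ker (bd G k) ↔ _
      rw [Submodule.mem_inf, LinearMap.mem_ker]
      constructor
      · rintro ⟨h1, h2⟩
        refine ⟨h1, ?_⟩
        rw [hD k z h1, h2, mapDomain_zero]
      · rintro ⟨h1, h2⟩
        refine ⟨h1, hinj _ ?_⟩
        rw [← hD k z h1, h2, mapDomain_zero]
  let Φ : cyc G k l →+ (LB (I → Bool)).HG (SL f l) ((k + 1 : ℕ) : ℤ) :=
    (QuotientAddGroup.mk' (((LB (I → Bool)).bdy (SL f l) ((k + 1 : ℕ) : ℤ)).addSubgroupOf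
      ((LB (I → Bool)).cyc (SL f l) ((k + 1 : ℕ) : ℤ)))).comp
      (AddMonoidHom.mk' (fun z => ⟨mapDomain (il s) z.1, (hA k z.1 ((hcyc z.1).1 z.2).1).1,
        (hA k z.1 ((hcyc z.1).1 z.2).1).2, ((hcyc z.1).1 z.2).2⟩) (by
        intro a b
        apply Subtype.ext
        exact mapDomain_add))
  have hsurj : Function.Surjective Φ.toIntLinearMap := by
    intro y
    obtain ⟨⟨w, hw, hwk, hw0⟩, rfl⟩ := QuotientAddGroup.mk_surjective y
    obtain ⟨z, hz, hz'⟩ := hB k w hw hwk
    refine ⟨⟨z, (hcyc z).2 ⟨hz, by rw [hz', hw0]⟩⟩, ?_⟩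
    show QuotientAddGroup.mk _ = QuotientAddGroup.mk _
    congr 1
    exact Subtype.ext hz'
  have hker : LinearMap.ker Φ.toIntLinearMap = (bdry G k l).submoduleOf (cyc G k l) := by
    ext z
    rw [LinearMap.mem_ker]
    show _ ↔ z.1 ∈ bdry G k l
    constructor
    · intro h
      have h1 := (QuotientAddGroup.eq_zero_iff _).1 h
      rw [AddSubgroup.mem_addSubgroupOf] at h1
      obtain ⟨w, hw, hwk, hw'⟩ := h1
      have hwk' : (LB (I → Bool)).Hom ((k + 1 + 1 : ℕ) : ℤ) w := by
        intro L hL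
        have h4 : (((LB (I → Bool)).deg L : ℕ) : ℤ) = ((k + 1 : ℕ) : ℤ) + 1 := hwk L hL
        show (((LB (I → Bool)).deg L : ℕ) : ℤ) = _
        rw [h4]
        push_cast
        ring
      obtain ⟨u, hu, hu'⟩ := hB (k + 1) w hw hwk'
      refine ⟨u, hu, hinj _ ?_⟩
      rw [← hD k u hu, hu', hw']
      rfl
    · rintro ⟨u, hu, hu'⟩
      refine (QuotientAddGroup.eq_zero_iff _).2 ?_
      rw [AddSubgroup.mem_addSubgroupOf]
      obtain ⟨h1, h2⟩ := hA (k + 1) u hu
      refine ⟨mapDomain (il s) u, h1, ?_, ?_⟩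
      · intro L hL
        have h4 : (((LB (I → Bool)).deg L : ℕ) : ℤ) = ((k + 1 + 1 : ℕ) : ℤ) := h2 L hL
        show (((LB (I → Bool)).deg L : ℕ) : ℤ) = ((k + 1 : ℕ) : ℤ) + 1
        rw [h4]
        push_cast
        ring
      · rw [hD k u hu, hu']
        rfl
  exact ⟨((Submodule.quotEquivOfEq _ _ hker.symm).trans
    (LinearMap.quotKerEquivOfSurjective Φ.toIntLinearMap hsurj)).toAddEquiv⟩

end Pool.Agent.K6.H51.MHA
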