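import Pool.Agent.K6.H51.MHA.Euler

set_option autoImplicit false

/-! The lattice of intersections and the Euler relation. -/

namespace Pool.Agent.K6.H51.MHA

open Finsupp Filter Topology

universe u v

variable {V : Type u} [AddCommGroup V] [Module ℝ V] {I : Type v} [Fintype I]
  (f : I → V →ₗ[ℝ] ℝ)

/-- intersection of the kernels -/
def cap (S : Finset I) : Submodule ℝ V := ⨅ i ∈ S, LinearMap.ker (f i)

open Classical in
/-- the set of intersections -/
noncomputable def LF : Finset (Submodule ℝ V) := Finset.univ.image fun S : Finset I => cap f S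

open Classical in
/-- the functionals vanishing on `X` -/
noncomputable def ix (X : Submodule ℝ V) : Finset I :=
  Finset.univ.filter fun i => X ≤ LinearMap.ker (f i)

variable {f}

theorem mem_cap {S : Finset I} {v : V} : v ∈ cap f S ↔ ∀ i ∈ S, f i v = 0 := by
  simp [cap, Submodule.mem_iInf]

theorem mem_LF {X : Submodule ℝ V} : X ∈ LF f ↔ ∃ S : Finset I, cap f S = X := by
  classical
  simp [LF]

theorem cap_mem (S : Finset I) : cap f S ∈ LF f := mem_LF.2 ⟨S, rfl⟩

theorem mem_ix {X : Submodule ℝ V} {i : I} : i ∈ ix f X ↔ ∀ v ∈ X, f i v = 0 := by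
  classical
  simp only [ix, Finset.mem_filter, Finset.mem_univ, true_and]
  rfl

theorem cap_ix {X : Submodule ℝ V} (hX : X ∈ LF f) : cap f (ix f X) = X := by
  obtain ⟨S, rfl⟩ := mem_LF.1 hX
  ext v
  rw [mem_cap, mem_cap]
  constructor
  · intro h i hi
    exact h i (mem_ix.2 fun w hw => mem_cap.1 hw i hi)
  · intro h i hi
    exact mem_ix.1 hi v (mem_cap.2 h)

theorem ix_mono {X Y : Submodule ℝ V} (h : X ≤ Y) : ix f Y ⊆ ix f X := by
  intro i hi
  rw [mem_ix] at hi ⊢
  exact fun v hv => hi v (h hv)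

theorem ix_inj {X Y : Submodule ℝ V} (hX : X ∈ LF f) (hY : Y ∈ LF f) (h : ix f X = ix f Y) :
    X = Y := by
  rw [← cap_ix hX, ← cap_ix hY, h]

/-- the zero set of a point in a closed set is closed -/
theorem ix_cap_zero {X : Submodule ℝ V} {v : V} {Z : Finset I} (hZ : ∀ i, i ∈ Z ↔ i ∈ ix f X ∧ f i v = 0)
    (hX : X ∈ LF f) : ix f (cap f Z) = Z := by
  ext i
  rw [mem_ix]
  constructor
  · intro h
    rw [hZ]
    refine ⟨mem_ix.2 fun w hw => h w (mem_cap.2 fun j hj => ?_), h v (mem_cap.2 fun j hj => ?_)⟩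
    · exact mem_ix.1 ((hZ j).1 hj).1 w hw
    · exact ((hZ j).1 hj).2
  · intro h w hw
    exact mem_cap.1 hw i h

theorem le_cap_zero {X : Submodule ℝ V} {Z : Finset I} (hZ : Z ⊆ ix f X) : X ≤ cap f Z := by
  intro w hw
  exact mem_cap.2 fun i hi => mem_ix.1 (hZ hi) w hw

open Classical in
/-- the zero set of a sign vector -/
noncomputable def zs (J : Finset I) (σ : I → SignType) : Finset I := J.filter fun i => σ i = 0

theorem mem_zs {J : Finset I} {σ : I → SignType} {i : I} : i ∈ zs J σ ↔ i ∈ J ∧ σ i = 0 := by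
  classical
  simp [zs]

theorem mem_zs_svv {J : Finset I} {v : V} {i : I} :
    i ∈ zs J (svv f J v) ↔ i ∈ J ∧ f i v = 0 := by
  rw [mem_zs]
  constructor
  · rintro ⟨h1, h2⟩
    refine ⟨h1, ?_⟩
    rw [svv, if_pos h1] at h2
    exact sign_eq_zero_iff.1 h2
  · rintro ⟨h1, h2⟩
    refine ⟨h1, ?_⟩
    rw [svv, if_pos h1, h2, sign_zero]

variable (f) in
open Classical in
/-- the number of cells of `J` with the zero set `Z` -/
noncomputable def cc (J Z : Finset I) : ℕ := ((ES f J ⊤).filter fun σ => zs J σ = Z).card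

open Classical in
/-- the Euler relation in an interval of the lattice -/
theorem euler_LF [FiniteDimensional ℝ V] {X W : Submodule ℝ V} (hX : X ∈ LF f) (hW : W ∈ LF f)
    (hXW : X ≤ W) : ∑ Y ∈ (LF f).filter (fun Y => X ≤ Y ∧ Y ≤ W),
      (-1 : ℤ) ^ Module.finrank ℝ Y * cc f (ix f X) (ix f Y) = (-1) ^ Module.finrank ℝ W := by
  rw [← euler (f := f) W (ix f X)]
  have key : ∀ v ∈ W, cap f (zs (ix f X) (svv f (ix f X) v)) ≤ W := by
    intro v hv
    rw [← cap_ix hW]
    intro w hw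
    refine mem_cap.2 fun i hi => mem_cap.1 hw i ?_
    rw [mem_zs_svv]
    exact ⟨ix_mono hXW hi, mem_ix.1 hi v hv⟩
  have hmaps : ∀ σ ∈ ES f (ix f X) W, cap f (zs (ix f X) σ) ∈
      (LF f).filter (fun Y => X ≤ Y ∧ Y ≤ W) := by
    intro σ hσ
    obtain ⟨v, hv, rfl⟩ := mem_ES.1 hσ
    exact Finset.mem_filter.2 ⟨cap_mem _, le_cap_zero fun i hi => (mem_zs.1 hi).1, key v hv⟩
  rw [← Finset.sum_fiberwise_of_maps_to hmaps]
  refine Finset.sum_congr rfl fun Y hY => ?_
  obtain ⟨hYL, hXY, hYW⟩ := Finset.mem_filter.1 hY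
  have h1 : (ES f (ix f X) W).filter (fun σ => cap f (zs (ix f X) σ) = Y) =
      (ES f (ix f X) ⊤).filter fun σ => zs (ix f X) σ = ix f Y := by
    ext σ
    rw [Finset.mem_filter, Finset.mem_filter]
    constructor
    · rintro ⟨h1, h2⟩
      obtain ⟨v, hv, rfl⟩ := mem_ES.1 h1
      refine ⟨mem_ES.2 ⟨v, trivial, rfl⟩, ?_⟩
      rw [← h2, ix_cap_zero (v := v) (X := X) (fun i => mem_zs_svv) hX]
    · rintro ⟨h1, h2⟩
      obtain ⟨v, _, rfl⟩ := mem_ES.1 h1
      refine ⟨mem_ES.2 ⟨v, ?_, rfl⟩, ?_⟩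
      · rw [← cap_ix hW, mem_cap]
        intro i hi
        have h3 : i ∈ zs (ix f X) (svv f (ix f X) v) := by
          rw [h2]
          exact ix_mono hYW hi
        exact (mem_zs_svv.1 h3).2
      · rw [h2, cap_ix hYL]
  have h2 : ∀ σ ∈ (ES f (ix f X) W).filter (fun σ => cap f (zs (ix f X) σ) = Y),
      (-1 : ℤ) ^ Module.finrank ℝ ↥(WS f (ix f X) W σ) = (-1) ^ Module.finrank ℝ Y := by
    intro σ hσ
    obtain ⟨h3, h4⟩ := Finset.mem_filter.1 hσ
    have h5 : WS f (ix f X) W σ = Y := by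
      ext v
      rw [mem_WS, ← h4, mem_cap]
      constructor
      · rintro ⟨_, h6⟩ i hi
        exact h6 i (mem_zs.1 hi).1 (mem_zs.1 hi).2
      · intro h6
        refine ⟨?_, fun i hi hi0 => h6 i (mem_zs.2 ⟨hi, hi0⟩)⟩
        apply hYW
        rw [← h4]
        exact mem_cap.2 h6
    rw [h5]
  rw [Finset.sum_congr rfl h2, Finset.sum_const, h1, nsmul_eq_mul, mul_comm]
  rfl

/-- an element just above -/
theorem exists_cover [FiniteDimensional ℝ V] {X : Submodule ℝ V} (hX : X ∈ LF f) (hne : X ≠ ⊤) :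
    ∃ Y ∈ LF f, X < Y ∧ Module.finrank ℝ Y = Module.finrank ℝ X + 1 := by
  classical
  obtain ⟨S, hS⟩ := mem_LF.1 hX
  let F : Finset (Finset I) := Finset.univ.filter fun S => cap f S = X
  obtain ⟨S, hSF, hmin⟩ := F.exists_min_image Finset.card ⟨S, by simp [F, hS]⟩
  have hSX : cap f S = X := (Finset.mem_filter.1 hSF).2
  have hSne : S.Nonempty := by
    rw [Finset.nonempty_iff_ne_empty]
    rintro rfl
    apply hne
    rw [← hSX]
    simp [cap]
  obtain ⟨i0, hi0⟩ := hSne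
  have hlt := Finset.card_erase_lt_of_mem hi0
  have h1 : cap f (S.erase i0) ≠ X := by
    intro h
    have := hmin (S.erase i0) (by simp [F, h])
    omega
  have h2 : X = cap f (S.erase i0) ⊓ LinearMap.ker (f i0) := by
    rw [← hSX]
    ext v
    rw [Submodule.mem_inf, mem_cap, mem_cap, LinearMap.mem_ker]
    constructor
    · intro h
      exact ⟨fun i hi => h i (Finset.mem_of_mem_erase hi), h i0 hi0⟩
    · rintro ⟨h3, h4⟩ i hi
      by_cases h5 : i = i0
      · rw [h5, h4]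
      · exact h3 i (Finset.mem_erase.2 ⟨h5, hi⟩)
  have h3 : X ≤ cap f (S.erase i0) := by rw [h2]; exact inf_le_left
  have h4 : X < cap f (S.erase i0) := lt_of_le_of_ne h3 (Ne.symm h1)
  refine ⟨cap f (S.erase i0), cap_mem _, h4, ?_⟩
  obtain ⟨v, hv, hv'⟩ := SetLike.exists_of_lt h4
  have h5 : f i0 v ≠ 0 := by
    intro h0
    apply hv'
    rw [h2]
    exact ⟨hv, h0⟩
  have h6 := finrank_inf_ker hv h5
  rw [← h2] at h6
  exact h6.symm

end Pool.Agent.K6.H51.MHA
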