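import Pool.Agent.K6.H51.MHA.Good
import Pool.Agent.K6.H51.MHA.Lat

set_option autoImplicit false

/-! Counting the good pairs. -/

namespace Pool.Agent.K6.H51.MHA

open Finsupp Filter Topology

universe u v

variable {V : Type u} [AddCommGroup V] [Module ℝ V] {I : Type v} [Fintype I]
  {f : I → V →ₗ[ℝ] ℝ}

theorem good_congr {J : Finset I} {x : I → Bool} {n : I → ℕ} {k : ℕ} (h : Good f J x n k) :
    ∀ y : I → Bool, (∀ i ∈ J, x i = y i) → Good f J y n k := by
  induction h with
  | zero x n hn => exact fun y _ => Good.zero y n hn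
  | step x n k m hn hw hm _ ih =>
    intro y hy
    refine Good.step y n k m hn ?_ hm (ih _ fun i hi => ?_)
    · obtain ⟨w, hw1, hw2⟩ := hw
      refine ⟨w, hw1, fun i hi hi' => ?_⟩
      have := hw2 i hi hi'
      rw [gs_apply] at this ⊢
      rw [← hy i hi]
      exact this
    · by_cases h : i ∈ spp n
      · rw [fl_mem h, fl_mem h, hy i hi]
      · rw [fl_notMem h, fl_notMem h, hy i hi]

theorem good_restrict {J Z : Finset I} (hZJ : Z ⊆ J) {x : I → Bool} {n : I → ℕ} {k : ℕ}
    (h : Good f J x n k) : Good f Z x n k := by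
  induction h with
  | zero x n hn => exact Good.zero x n hn
  | step x n k m hn hw hm _ ih =>
    obtain ⟨w, hw1, hw2⟩ := hw
    exact Good.step x n k m hn ⟨w, hw1, fun i hi hi' => hw2 i (hZJ hi) hi'⟩ hm ih

theorem good_extend {J Z : Finset I} {x : I → Bool} {n : I → ℕ} {k : ℕ}
    (h : Good f Z x n k) : (∀ i, n i ≠ 0 → i ∈ Z) →
    (∃ w : V, (∀ i ∈ Z, f i w = 0) ∧ ∀ i ∈ J, i ∉ Z → 0 < gs f x i w) → Good f J x n k := by
  induction h with
  | zero x n hn => exact fun _ _ => Good.zero x n hn
  | step x n k m hn hw hm _ ih =>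
    rintro hnZ ⟨w1, h1, h2⟩
    obtain ⟨w0, h3, h4⟩ := hw
    refine Good.step x n k m hn ?_ hm (ih ?_ ⟨w1, h1, fun i hi hi' => ?_⟩)
    · have e2 : ∀ᶠ δ in 𝓝[>] (0 : ℝ), ∀ i ∈ J, i ∉ Z → 0 < gs f x i w1 + δ * gs f x i w0 := by
        rw [Filter.eventually_all_finset]
        intro i hi
        by_cases hiZ : i ∈ Z
        · exact Filter.Eventually.of_forall fun _ h => absurd hiZ h
        · filter_upwards [ev_pos (gs f x i w0) (h2 i hi hiZ)] with δ hδ
          exact fun _ => hδ
      obtain ⟨δ, hδ1, hδ2⟩ := (e2.and ev_gt).exists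
      refine ⟨w1 + δ • w0, fun i hi => ?_, fun i hi hi' => ?_⟩
      · rw [map_add, map_smul, h1 i (hnZ i (mem_spp.1 hi)), h3 i hi, smul_zero, add_zero]
      · rw [map_add, map_smul, smul_eq_mul]
        by_cases hiZ : i ∈ Z
        · have h5 : gs f x i w1 = 0 := (gs_eq_zero f x).2 (h1 i hiZ)
          rw [h5, zero_add]
          exact mul_pos hδ2 (h4 i hiZ hi')
        · exact hδ1 i hi hiZ
    · intro i hi
      apply hnZ i
      intro h0
      apply hi
      show n i - 1 = 0
      rw [h0]
    · have h5 : i ∉ spp n := fun h => hi' (hnZ i (mem_spp.1 h))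
      have := h2 i hi hi'
      rw [gs_apply] at this ⊢
      rw [fl_notMem h5]
      exact this

variable (f) in
/-- the good pairs of `J` -/
def GS (J : Finset I) (k l : ℕ) : Set ((I → Bool) × (I → ℕ)) :=
  {p | (∀ i, i ∉ J → p.1 i = true) ∧ (∃ v : V, ∀ i ∈ J, 0 < sg (p.1 i) * f i v) ∧
    (∀ i, i ∉ J → p.2 i = 0) ∧ ∑ i, p.2 i = l ∧ Good f J p.1 p.2 k}

theorem GS_finite (J : Finset I) (k l : ℕ) : (GS f J k l).Finite := by
  classical
  have h1 : (Set.univ ×ˢ Set.Icc (fun _ => 0) (fun _ => l) : Set ((I → Bool) × (I → ℕ))).Finite :=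
    (Set.toFinite _).prod (Set.finite_Icc _ _)
  apply h1.subset
  rintro ⟨x, n⟩ ⟨_, _, _, h, _⟩
  refine ⟨trivial, fun i => Nat.zero_le _, fun i => ?_⟩
  show n i ≤ l
  rw [← h]
  exact Finset.single_le_sum (f := n) (fun _ _ => Nat.zero_le _) (Finset.mem_univ i)

variable (f) in
/-- the number of good pairs -/
noncomputable def NN (J : Finset I) (k l : ℕ) : ℕ := (GS f J k l).ncard

theorem sg_decide {a : ℝ} (h : a ≠ 0) : 0 < sg (decide (SignType.sign a = 1)) * a := by
  rcases lt_or_gt_of_ne h with h1 | h1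
  · have h2 : SignType.sign a = -1 := sign_eq_neg_one_iff.2 h1
    have h3 : decide ((-1 : SignType) = 1) = false := by decide
    rw [h2, h3, sg_false]
    linarith
  · have h2 : SignType.sign a = 1 := sign_eq_one_iff.2 h1
    rw [h2]
    simp [sg_true, h1]

theorem decide_of_sg {a : ℝ} {b : Bool} (h : 0 < sg b * a) : decide (SignType.sign a = 1) = b := by
  cases b
  · rw [sg_false] at h
    have h2 : SignType.sign a = -1 := sign_eq_neg_one_iff.2 (by linarith)
    rw [h2]
    decide
  · rw [sg_true] at h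
    have h2 : SignType.sign a = 1 := sign_eq_one_iff.2 (by linarith)
    rw [h2]
    decide

open Classical in
/-- the sign vector and the crossing numbers from their parts -/
noncomputable def glue (J Z : Finset I) (p : (I → SignType) × ((I → Bool) × (I → ℕ))) :
    (I → Bool) × (I → ℕ) :=
  (fun i => if i ∈ Z then !p.2.1 i else if i ∈ J then decide (p.1 i = 1) else true,
    fun i => if i ∈ Z then p.2.2 i + 1 else 0)

open Classical in
variable (f) in
/-- the cells of `J` with the zero set `Z` -/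
noncomputable def CS (J Z : Finset I) : Set (I → SignType) :=
  {σ | (∃ w : V, svv f J w = σ) ∧ zs J σ = Z}

theorem CS_ncard (J Z : Finset I) : (CS f J Z).ncard = cc f J Z := by
  classical
  have h : CS f J Z = ((ES f J ⊤).filter fun σ => zs J σ = Z : Finset (I → SignType)) := by
    ext σ
    rw [Finset.mem_coe, Finset.mem_filter, mem_ES]
    constructor
    · rintro ⟨⟨w, hw⟩, h⟩
      exact ⟨⟨w, trivial, hw⟩, h⟩
    · rintro ⟨⟨w, _, hw⟩, h⟩
      exact ⟨⟨w, hw⟩, h⟩
  rw [h, Set.ncard_coe_finset]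
  rfl

theorem glue_injOn (J Z : Finset I) (k l : ℕ) :
    Set.InjOn (glue J Z) (CS f J Z ×ˢ GS f Z k l) := by
  rintro ⟨σ, x, n⟩ ⟨⟨⟨w, hw⟩, hz⟩, h1, _, h2, _⟩ ⟨σ', x', n'⟩ ⟨⟨⟨w', hw'⟩, hz'⟩, h1', _, h2', _⟩ heq
  obtain ⟨e1, e2⟩ := Prod.ext_iff.1 heq
  have e1 := fun i => congrFun e1 i
  have e2 := fun i => congrFun e2 i
  simp only [glue] at e1 e2 h1 h2 h1' h2'
  simp only at hz hz' hw hw'
  have e3 : σ = σ' := by
    funext i
    by_cases hiJ : i ∈ J
    · by_cases hiZ : i ∈ Z
      · have h3 : i ∈ zs J σ := by rw [hz]; exact hiZ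
        have h4 : i ∈ zs J σ' := by rw [hz']; exact hiZ
        rw [(mem_zs.1 h3).2, (mem_zs.1 h4).2]
      · have h3 : σ i ≠ 0 := fun h => hiZ (by rw [← hz]; exact mem_zs.2 ⟨hiJ, h⟩)
        have h4 : σ' i ≠ 0 := fun h => hiZ (by rw [← hz']; exact mem_zs.2 ⟨hiJ, h⟩)
        have h5 := e1 i
        rw [if_neg hiZ, if_neg hiZ, if_pos hiJ, if_pos hiJ, decide_eq_decide] at h5
        have key : ∀ s t : SignType, s ≠ 0 → t ≠ 0 → (s = 1 ↔ t = 1) → s = t := by decide
        exact key _ _ h3 h4 h5
    · rw [← hw, ← hw', svv_notMem hiJ, svv_notMem hiJ]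
  have e4 : x = x' := by
    funext i
    by_cases hiZ : i ∈ Z
    · have h5 := e1 i
      rw [if_pos hiZ, if_pos hiZ] at h5
      revert h5
      cases x i <;> cases x' i <;> simp
    · rw [h1 i hiZ, h1' i hiZ]
  have e5 : n = n' := by
    funext i
    by_cases hiZ : i ∈ Z
    · have h5 := e2 i
      rw [if_pos hiZ, if_pos hiZ] at h5
      omega
    · rw [h2 i hiZ, h2' i hiZ]
  rw [e3, e4, e5]

theorem glue_image {J Z : Finset I} (hZJ : Z ⊆ J) (hZ : Z.Nonempty) (k l : ℕ) :
    glue J Z '' (CS f J Z ×ˢ GS f Z k l) =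
      {p | p ∈ GS f J (k + cod f Z) (l + Z.card) ∧ spp p.2 = Z} := by
  classical
  ext ⟨x, n⟩
  constructor
  · rintro ⟨⟨σ, x', n'⟩, ⟨⟨⟨w, hw⟩, hz⟩, h1, ⟨v, hv⟩, h2, h3, h4⟩, heq⟩
    obtain ⟨e1, e2⟩ := Prod.ext_iff.1 heq
    simp only [glue] at e1 e2 h1 h2 h3 h4 hv
    simp only at hz hw
    have hxZ : ∀ i ∈ Z, x i = !x' i := fun i hi => by rw [← e1]; exact if_pos hi
    have hxJ : ∀ i ∈ J, i ∉ Z → x i = decide (σ i = 1) := fun i hi hi' => by
      rw [← e1]
      simp only
      rw [if_neg hi', if_pos hi]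
    have hxn : ∀ i, i ∉ J → x i = true := fun i hi => by
      rw [← e1]
      simp only
      rw [if_neg fun h => hi (hZJ h), if_neg hi]
    have hnZ : ∀ i ∈ Z, n i = n' i + 1 := fun i hi => by rw [← e2]; exact if_pos hi
    have hnn : ∀ i, i ∉ Z → n i = 0 := fun i hi => by rw [← e2]; exact if_neg hi
    have hspp : spp n = Z := by
      ext i
      rw [mem_spp]
      constructor
      · intro h
        by_contra h'
        exact h (hnn i h')
      · intro h
        rw [hnZ i h]
        omega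
    have hwZ : ∀ i ∈ Z, f i w = 0 := by
      intro i hi
      rw [← hz, ← hw] at hi
      exact (mem_zs_svv.1 hi).2
    have hwJ : ∀ i ∈ J, i ∉ Z → 0 < gs f x i w := by
      intro i hi hi'
      rw [gs_apply, hxJ i hi hi', ← hw]
      have h5 : f i w ≠ 0 := fun h => hi' (by rw [← hz, ← hw]; exact mem_zs_svv.2 ⟨hi, h⟩)
      have h6 : svv f J w i = SignType.sign (f i w) := if_pos hi
      rw [h6]
      exact sg_decide h5
    refine ⟨⟨hxn, ?_, fun i hi => hnn i fun h => hi (hZJ h), ?_, ?_⟩, hspp⟩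
    · have e3 : ∀ᶠ δ in 𝓝[>] (0 : ℝ), ∀ i ∈ J, i ∉ Z → 0 < gs f x i w + δ * gs f x i (-v) := by
        rw [Filter.eventually_all_finset]
        intro i hi
        by_cases hiZ : i ∈ Z
        · exact Filter.Eventually.of_forall fun _ h => absurd hiZ h
        · filter_upwards [ev_pos (gs f x i (-v)) (hwJ i hi hiZ)] with δ hδ
          exact fun _ => hδ
      obtain ⟨δ, hδ1, hδ2⟩ := (e3.and ev_gt).exists
      refine ⟨w + δ • (-v), fun i hi => ?_⟩
      show 0 < sg (x i) * _
      rw [map_add, map_smul, smul_eq_mul]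
      by_cases hiZ : i ∈ Z
      · rw [hwZ i hiZ, zero_add, map_neg, hxZ i hiZ, sg_not]
        have := mul_pos hδ2 (hv i hiZ)
        linarith
      · have := hδ1 i hi hiZ
        rw [gs_apply, gs_apply] at this
        linarith
    · show ∑ i, n i = l + Z.card
      rw [← h3, Finset.card_eq_sum_ones, ← Finset.sum_subset (Finset.subset_univ Z) (fun i _ hi =>
        hnn i hi), ← Finset.sum_subset (Finset.subset_univ Z) (fun i _ hi => h2 i hi),
        ← Finset.sum_add_distrib]
      exact Finset.sum_congr rfl fun i hi => hnZ i hi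
    · show Good f J x n (k + cod f Z)
      rw [good_step (by rw [hspp]; exact hZ), hspp]
      refine ⟨⟨w, hwZ, hwJ⟩, k, rfl, ?_⟩
      have hn' : (fun i => n i - 1) = n' := by
        funext i
        by_cases hi : i ∈ Z
        · rw [hnZ i hi]; omega
        · rw [hnn i hi, h2 i hi]
      rw [hn']
      apply good_extend (Z := Z)
      · apply good_congr h4
        intro i hi
        rw [fl_mem hi, hxZ i hi, Bool.not_not]
      · intro i hi
        by_contra h'
        exact hi (h2 i h')
      · refine ⟨w, hwZ, fun i hi hi' => ?_⟩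
        have := hwJ i hi hi'
        rw [gs_apply] at this ⊢
        rw [fl_notMem hi']
        exact this
  · rintro ⟨⟨h1, ⟨v, hv⟩, h2, h3, h4⟩, hspp⟩
    simp only at hspp h1 h2 h3 h4 hv
    rw [good_step (by rw [hspp]; exact hZ), hspp] at h4
    obtain ⟨⟨w, hw1, hw2⟩, k', hk', h5⟩ := h4
    have hkk : k' = k := by omega
    subst hkk
    have hnz : ∀ i, n i ≠ 0 ↔ i ∈ Z := fun i => by rw [← hspp, mem_spp]
    have hn0 : ∀ i, i ∉ Z → n i = 0 := fun i hi => by
      by_contra h
      exact hi ((hnz i).1 h)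
    refine ⟨(svv f J w, (fun i => if i ∈ Z then !x i else true, fun i => n i - 1)),
      ⟨⟨⟨w, rfl⟩, ?_⟩, ?_, ?_, ?_, ?_, ?_⟩, ?_⟩
    · ext i
      rw [mem_zs_svv]
      constructor
      · rintro ⟨h6, h7⟩
        by_contra h8
        have := hw2 i h6 h8
        rw [gs_apply, h7, mul_zero] at this
        exact lt_irrefl _ this
      · intro h
        exact ⟨hZJ h, hw1 i h⟩
    · intro i hi
      exact if_neg hi
    · refine ⟨-v, fun i hi => ?_⟩
      show 0 < sg (if i ∈ Z then !x i else true) * _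
      rw [if_pos hi, sg_not, map_neg]
      have := hv i (hZJ hi)
      linarith
    · intro i hi
      show n i - 1 = 0
      rw [hn0 i hi]
    · show ∑ i, (n i - 1) = l
      have h6 : ∑ i, n i = ∑ i, (n i - 1) + Z.card := by
        rw [Finset.card_eq_sum_ones, ← Finset.sum_subset (Finset.subset_univ Z) (fun i _ hi =>
          hn0 i hi), ← Finset.sum_subset (Finset.subset_univ Z) (f := fun i => n i - 1)
          (fun i _ hi => by simp [hn0 i hi]), ← Finset.sum_add_distrib]
        refine Finset.sum_congr rfl fun i hi => ?_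
        have := (hnz i).2 hi
        omega
      omega
    · show Good f Z (fun i => if i ∈ Z then !x i else true) (fun i => n i - 1) k'
      apply good_congr (good_restrict hZJ h5)
      intro i hi
      rw [fl_mem hi, if_pos hi]
    · refine Prod.ext (funext fun i => ?_) (funext fun i => ?_)
      · show (if i ∈ Z then !(if i ∈ Z then !x i else true) else
          if i ∈ J then decide (svv f J w i = 1) else true) = x i
        by_cases hiZ : i ∈ Z
        · rw [if_pos hiZ, if_pos hiZ, Bool.not_not]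
        · rw [if_neg hiZ]
          by_cases hiJ : i ∈ J
          · rw [if_pos hiJ]
            have h6 : svv f J w i = SignType.sign (f i w) := if_pos hiJ
            rw [h6]
            exact decide_of_sg (hw2 i hiJ hiZ)
          · rw [if_neg hiJ, h1 i hiJ]
      · show (if i ∈ Z then n i - 1 + 1 else 0) = n i
        by_cases hiZ : i ∈ Z
        · rw [if_pos hiZ]
          have := (hnz i).2 hiZ
          omega
        · rw [if_neg hiZ, hn0 i hiZ]

/-- the number of good pairs with a given support -/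
theorem count_fib {J Z : Finset I} (hZJ : Z ⊆ J) (hZ : Z.Nonempty) (k l : ℕ) :
    {p | p ∈ GS f J k l ∧ spp p.2 = Z}.ncard = cc f J Z *
      (if cod f Z ≤ k ∧ Z.card ≤ l then NN f Z (k - cod f Z) (l - Z.card) else 0) := by
  by_cases h : cod f Z ≤ k ∧ Z.card ≤ l
  · rw [if_pos h]
    obtain ⟨k, rfl⟩ := Nat.exists_eq_add_of_le' h.1
    obtain ⟨l, rfl⟩ := Nat.exists_eq_add_of_le' h.2
    rw [← glue_image hZJ hZ, Set.ncard_image_of_injOn (glue_injOn J Z k l), Set.ncard_prod,
      CS_ncard, Nat.add_sub_cancel, Nat.add_sub_cancel]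
    rfl
  · rw [if_neg h, mul_zero]
    have : {p | p ∈ GS f J k l ∧ spp p.2 = Z} = ∅ := by
      rw [Set.eq_empty_iff_forall_notMem]
      rintro ⟨x, n⟩ ⟨⟨_, _, _, h3, h4⟩, hspp⟩
      simp only at hspp h3 h4
      apply h
      rw [good_step (by rw [hspp]; exact hZ), hspp] at h4
      obtain ⟨_, k', hk', _⟩ := h4
      refine ⟨by omega, ?_⟩
      rw [← h3, Finset.card_eq_sum_ones]
      refine (Finset.sum_le_sum fun i hi => ?_).trans (Finset.sum_le_sum_of_subset
        (Finset.subset_univ Z))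
      rw [← hspp, mem_spp] at hi
      omega
    rw [this, Set.ncard_empty]

theorem count_zero (J : Finset I) (k : ℕ) :
    NN f J k 0 = if k = 1 then cc f J ∅ else 0 := by
  classical
  by_cases hk : k = 1
  · subst hk
    rw [if_pos rfl, ← CS_ncard, NN]
    have h1 : GS f J 1 0 = (fun σ : I → SignType => ((fun i => if i ∈ J then decide (σ i = 1)
        else true, fun _ => 0) : (I → Bool) × (I → ℕ))) '' CS f J ∅ := by
      ext ⟨x, n⟩
      constructor
      · rintro ⟨h1, ⟨v, hv⟩, _, h3, _⟩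
        simp only at h1 h3 hv
        have h4 : ∀ i, n i = 0 := fun i => by
          by_contra h
          have := Finset.single_le_sum (f := n) (fun _ _ => Nat.zero_le _) (Finset.mem_univ i)
          omega
        refine ⟨svv f J v, ⟨⟨v, rfl⟩, ?_⟩, ?_⟩
        · rw [Finset.eq_empty_iff_forall_notMem]
          intro i hi
          obtain ⟨h5, h6⟩ := mem_zs_svv.1 hi
          have := hv i h5
          rw [h6, mul_zero] at this
          exact lt_irrefl _ this
        · refine Prod.ext (funext fun i => ?_) (funext fun i => (h4 i).symm)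
          show (if i ∈ J then decide (svv f J v i = 1) else true) = x i
          by_cases hi : i ∈ J
          · rw [if_pos hi]
            have h6 : svv f J v i = SignType.sign (f i v) := if_pos hi
            rw [h6]
            exact decide_of_sg (hv i hi)
          · rw [if_neg hi, h1 i hi]
      · rintro ⟨σ, ⟨⟨w, hw⟩, hz⟩, heq⟩
        obtain ⟨e1, e2⟩ := Prod.ext_iff.1 heq
        simp only at e1 e2
        subst e1 e2
        refine ⟨fun i hi => if_neg hi, ⟨w, fun i hi => ?_⟩, fun _ _ => rfl, by simp,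
          Good.zero _ _ fun _ => rfl⟩
        show 0 < sg (if i ∈ J then decide (σ i = 1) else true) * f i w
        rw [if_pos hi, ← hw]
        have h6 : svv f J w i = SignType.sign (f i w) := if_pos hi
        rw [h6]
        apply sg_decide
        intro h0
        have h7 : i ∈ zs J σ := by
          rw [← hw]
          exact mem_zs_svv.2 ⟨hi, h0⟩
        rw [hz] at h7
        exact absurd h7 (Finset.notMem_empty i)
    rw [h1, Set.ncard_image_of_injOn]
    rintro σ ⟨⟨w, hw⟩, hz⟩ σ' ⟨⟨w', hw'⟩, hz'⟩ heq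
    have e1 := fun i => congrFun (Prod.ext_iff.1 heq).1 i
    simp only at e1
    funext i
    by_cases hiJ : i ∈ J
    · have h3 : σ i ≠ 0 := fun h => by
        have h7 : i ∈ zs J σ := mem_zs.2 ⟨hiJ, h⟩
        rw [hz] at h7
        exact absurd h7 (Finset.notMem_empty i)
      have h4 : σ' i ≠ 0 := fun h => by
        have h7 : i ∈ zs J σ' := mem_zs.2 ⟨hiJ, h⟩
        rw [hz'] at h7
        exact absurd h7 (Finset.notMem_empty i)
      have h5 := e1 i
      rw [if_pos hiJ, if_pos hiJ, decide_eq_decide] at h5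
      have key : ∀ s t : SignType, s ≠ 0 → t ≠ 0 → (s = 1 ↔ t = 1) → s = t := by decide
      exact key _ _ h3 h4 h5
    · rw [← hw, ← hw', svv_notMem hiJ, svv_notMem hiJ]
  · rw [if_neg hk, NN]
    have : GS f J k 0 = ∅ := by
      rw [Set.eq_empty_iff_forall_notMem]
      rintro ⟨x, n⟩ ⟨_, _, _, h3, h4⟩
      simp only at h3 h4
      have h5 : ∀ i, n i = 0 := fun i => by
        by_contra h
        have := Finset.single_le_sum (f := n) (fun _ _ => Nat.zero_le _) (Finset.mem_univ i)
        omega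
      rw [good_zero h5] at h4
      exact hk h4
    rw [this, Set.ncard_empty]

open Classical in
/-- the recursion for the number of good pairs -/
theorem count_rec (hf : ∀ i, f i ≠ 0) {X : Submodule ℝ V} (hX : X ∈ LF f) (k : ℕ) {l : ℕ}
    (hl : 0 < l) : NN f (ix f X) k l = ∑ Y ∈ (LF f).filter (fun Y => X ≤ Y ∧ Y ≠ ⊤),
      cc f (ix f X) (ix f Y) * (if cod f (ix f Y) ≤ k ∧ (ix f Y).card ≤ l then
        NN f (ix f Y) (k - cod f (ix f Y)) (l - (ix f Y).card) else 0) := by
  rw [NN, Set.ncard_eq_toFinset_card _ (GS_finite _ k l)]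
  have hmaps : ∀ p ∈ (GS_finite (f := f) (ix f X) k l).toFinset, cap f (spp p.2) ∈
      (LF f).filter (fun Y => X ≤ Y ∧ Y ≠ ⊤) := by
    rintro ⟨x, n⟩ hp
    rw [Set.Finite.mem_toFinset] at hp
    obtain ⟨_, ⟨v, hv⟩, h2, h3, _⟩ := hp
    simp only at h2 h3 hv
    have hne : ∃ i, n i ≠ 0 := by
      by_contra hcon
      push Not at hcon
      rw [Finset.sum_eq_zero fun i _ => hcon i] at h3
      omega
    obtain ⟨i, hi⟩ := hne
    refine Finset.mem_filter.2 ⟨cap_mem _, le_cap_zero fun j hj => ?_, fun htop => ?_⟩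
    · by_contra hj'
      exact mem_spp.1 hj (h2 j hj')
    · apply hf i
      ext w
      have h5 : w ∈ cap f (spp n) := by
        have : cap f (spp n) = ⊤ := htop
        rw [this]
        trivial
      exact mem_cap.1 h5 i (mem_spp.2 hi)
  rw [Finset.card_eq_sum_card_fiberwise hmaps]
  refine Finset.sum_congr rfl fun Y hY => ?_
  obtain ⟨hYL, hXY, hYtop⟩ := Finset.mem_filter.1 hY
  have hYne : (ix f Y).Nonempty := by
    rw [Finset.nonempty_iff_ne_empty]
    intro h
    apply hYtop
    rw [← cap_ix hYL, h]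
    simp [cap]
  rw [← count_fib (ix_mono hXY) hYne k l, ← Set.ncard_coe_finset]
  congr 1
  ext ⟨x, n⟩
  rw [Finset.mem_coe, Finset.mem_filter, Set.Finite.mem_toFinset]
  constructor
  · rintro ⟨h1, h2⟩
    refine ⟨h1, ?_⟩
    show spp n = ix f Y
    have h2 : cap f (spp n) = Y := h2
    rw [← h2]
    have hne : (spp n).Nonempty := by
      rw [Finset.nonempty_iff_ne_empty]
      intro h
      apply hYtop
      rw [← h2, h]
      simp [cap]
    obtain ⟨_, _, h3, _, h5⟩ := h1
    simp only at h3 h5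
    rw [good_step hne] at h5
    obtain ⟨⟨w, hw1, hw2⟩, _⟩ := h5
    symm
    apply ix_cap_zero (v := w) (X := X) _ hX
    intro i
    constructor
    · intro hi
      refine ⟨?_, hw1 i hi⟩
      by_contra hi'
      exact mem_spp.1 hi (h3 i hi')
    · rintro ⟨h6, h7⟩
      by_contra h8
      have := hw2 i h6 h8
      rw [gs_apply, h7, mul_zero] at this
      exact lt_irrefl _ this
  · rintro ⟨h1, h2⟩
    refine ⟨h1, ?_⟩
    show cap f (spp n) = Y
    have h2 : spp n = ix f Y := h2
    rw [h2, cap_ix hYL]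

end Pool.Agent.K6.H51.MHA
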