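import Pool.Agent.K6.H51.MHA.Vis2

set_option autoImplicit false

/-! Crossing numbers of lists of sign vectors. -/

namespace Pool.Agent.K6.H51.MHA

universe u v

variable {I : Type v}

/-- difference of sign vectors -/
def dd (a b : I → Bool) (i : I) : ℕ := if a i = b i then 0 else 1

theorem dd_eq_zero {a b : I → Bool} {i : I} : dd a b i = 0 ↔ a i = b i := by
  unfold dd
  split_ifs with h <;> simp [h]

theorem dd_self (a : I → Bool) (i : I) : dd a a i = 0 := by rw [dd_eq_zero]

theorem dd_tri (a b c : I → Bool) (i : I) : dd a c i ≤ dd a b i + dd b c i := by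
  unfold dd
  cases a i <;> cases b i <;> cases c i <;> simp

theorem dd_btw {a b c : I → Bool} {i : I} : dd a b i + dd b c i = dd a c i ↔ b i = a i ∨ b i = c i := by
  unfold dd
  cases a i <;> cases b i <;> cases c i <;> simp

/-- crossing numbers -/
def cr : List (I → Bool) → I → ℕ
  | [], _ => 0
  | [_], _ => 0
  | a :: b :: L, i => dd a b i + cr (b :: L) i

theorem cr_nil (i : I) : cr ([] : List (I → Bool)) i = 0 := rfl

theorem cr_one (a : I → Bool) (i : I) : cr [a] i = 0 := rfl

theorem cr_two (a b : I → Bool) (L : List (I → Bool)) (i : I) :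
    cr (a :: b :: L) i = dd a b i + cr (b :: L) i := rfl

theorem cr_append (P : List (I → Bool)) (a : I → Bool) (Q : List (I → Bool)) (i : I) :
    cr (P ++ a :: Q) i = cr (P ++ [a]) i + cr (a :: Q) i := by
  induction P with
  | nil => rw [List.nil_append, List.nil_append, cr_one, zero_add]
  | cons b P ih =>
    cases P with
    | nil =>
      show cr (b :: a :: Q) i = cr (b :: a :: []) i + cr (a :: Q) i
      rw [cr_two, cr_two, cr_one]
      omega
    | cons c P =>
      show cr (b :: c :: (P ++ a :: Q)) i = cr (b :: c :: (P ++ [a])) i + cr (a :: Q) i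
      rw [cr_two, cr_two]
      have : cr (c :: (P ++ a :: Q)) i = cr (c :: (P ++ [a])) i + cr (a :: Q) i := ih
      omega

theorem cr_snoc (P : List (I → Bool)) (a b : I → Bool) (i : I) :
    cr (P ++ [a] ++ [b]) i = cr (P ++ [a]) i + dd a b i := by
  rw [List.append_assoc, List.singleton_append, cr_append, cr_two, cr_one]
  rfl

theorem cr_le_append (P Q : List (I → Bool)) (i : I) : cr P i ≤ cr (P ++ Q) i := by
  induction P with
  | nil => exact Nat.zero_le _
  | cons b P ih =>
    cases P with
    | nil => exact Nat.zero_le _
    | cons c P =>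
      show dd b c i + cr (c :: P) i ≤ dd b c i + cr (c :: (P ++ Q)) i
      exact Nat.add_le_add_left ih _

theorem cr_erase_le (P : List (I → Bool)) (a : I → Bool) (Q : List (I → Bool)) (i : I) :
    cr (P ++ Q) i ≤ cr (P ++ a :: Q) i := by
  rcases List.eq_nil_or_concat P with rfl | ⟨P, b, rfl⟩
  · cases Q with
    | nil => exact Nat.zero_le _
    | cons c Q =>
      show cr (c :: Q) i ≤ dd a c i + cr (c :: Q) i
      exact Nat.le_add_left _ _
  · cases Q with
    | nil =>
      rw [List.append_nil]
      exact cr_le_append _ _ _
    | cons c Q =>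
      rw [List.concat_eq_append, List.append_assoc, List.append_assoc, List.singleton_append,
        List.singleton_append, cr_append P b (c :: Q), cr_append P b (a :: c :: Q), cr_two, cr_two,
        cr_two]
      have := dd_tri b a c i
      omega

theorem cr_zero {x : I → Bool} {L : List (I → Bool)} {i : I} (h : cr (x :: L) i = 0) :
    ∀ a ∈ L, a i = x i := by
  induction L generalizing x with
  | nil => intro a ha; exact absurd ha List.not_mem_nil
  | cons b L ih =>
    rw [cr_two, Nat.add_eq_zero_iff, dd_eq_zero] at h
    intro a ha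
    rcases List.mem_cons.1 ha with rfl | ha
    · exact h.1.symm
    · rw [ih h.2 a ha, h.1]

theorem cr_zero' {L : List (I → Bool)} {i : I} (h : cr L i = 0) {x : I → Bool}
    (hx : L.head? = some x) : ∀ a ∈ L, a i = x i := by
  cases L with
  | nil => exact absurd hx (by simp)
  | cons b L =>
    have hb : b = x := by simpa using hx
    subst hb
    intro a ha
    rcases List.mem_cons.1 ha with rfl | ha
    · rfl
    · exact cr_zero h a ha

variable {V : Type u} [AddCommGroup V] [Module ℝ V] (f : I → V →ₗ[ℝ] ℝ)

/-- the real sign -/
def sg (b : Bool) : ℝ := if b then 1 else -1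

theorem sg_true : sg true = 1 := rfl

theorem sg_false : sg false = -1 := rfl

theorem sg_not (b : Bool) : sg (!b) = -sg b := by
  cases b <;> simp [sg]

/-- the sign vectors of the chambers -/
def Ch : Set (I → Bool) := {a | ∃ v : V, ∀ i, 0 < sg (a i) * f i v}

/-- the generators of the magnitude chain complex with the first vertex `x` and the crossing
numbers `n` -/
def MC (x : I → Bool) (n : I → ℕ) : Set (List (I → Bool)) :=
  {L | L.head? = some x ∧ (∀ a ∈ L, a ∈ Ch f) ∧ L.IsChain (· ≠ ·) ∧ cr L = n}

variable {f}

theorem MC_erase {x : I → Bool} {n : I → ℕ} {P Q : List (I → Bool)} {a : I → Bool}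
    (h : P ++ a :: Q ∈ MC f x n) (h0 : P ++ Q ≠ []) (hcr : cr (P ++ Q) = n) :
    ∃ P' b c Q', P = P' ++ [b] ∧ Q = c :: Q' ∧ (∀ i, a i = b i ∨ a i = c i) ∧ b ≠ c ∧
      P ++ Q ∈ MC f x n := by
  obtain ⟨h1, h2, h3, h4⟩ := h
  have h5 : ∀ i, cr (P ++ Q) i = cr (P ++ a :: Q) i := fun i => by rw [hcr, h4]
  rcases List.eq_nil_or_concat P with rfl | ⟨P, b, rfl⟩
  · exfalso
    cases Q with
    | nil => exact h0 rfl
    | cons c Q =>
      have h6 : a = c := by
        funext i
        have := h5 i
        rw [List.nil_append, List.nil_append, cr_two] at this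
        have h7 : dd a c i = 0 := by omega
        rwa [dd_eq_zero] at h7
      rw [List.nil_append, List.isChain_cons_cons] at h3
      exact h3.1 h6
  · rw [List.concat_eq_append] at *
    cases Q with
    | nil =>
      exfalso
      have h6 : b = a := by
        funext i
        have := h5 i
        rw [List.append_nil, cr_snoc] at this
        have h7 : dd b a i = 0 := by omega
        rwa [dd_eq_zero] at h7
      rw [List.append_assoc, List.singleton_append, List.isChain_append] at h3
      have h8 := h3.2.1
      rw [List.isChain_cons_cons] at h8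
      exact h8.1 h6
    | cons c Q =>
      have h6 : ∀ i, a i = b i ∨ a i = c i := by
        intro i
        have := h5 i
        rw [List.append_assoc, List.append_assoc, List.singleton_append, List.singleton_append,
          cr_append P b (c :: Q), cr_append P b (a :: c :: Q), cr_two, cr_two, cr_two] at this
        rw [← dd_btw]
        omega
      have hbc : b ≠ c := by
        rintro rfl
        have h7 : b = a := by
          funext i
          rcases h6 i with h | h <;> exact h.symm
        rw [List.append_assoc, List.singleton_append, List.isChain_append] at h3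
        have h8 := h3.2.1
        rw [List.isChain_cons_cons] at h8
        exact h8.1 h7
      refine ⟨P, b, c, Q, rfl, rfl, h6, hbc, ?_, ?_, ?_, hcr⟩
      · rw [← h1]
        cases P <;> rfl
      · intro a' ha'
        apply h2
        rw [List.mem_append] at ha'
        rw [List.mem_append, List.mem_cons]
        tauto
      · rw [List.append_assoc, List.singleton_append, List.isChain_append] at h3
        obtain ⟨h9, h10, h11⟩ := h3
        rw [List.isChain_cons_cons, List.isChain_cons_cons] at h10
        rw [List.append_assoc, List.singleton_append, List.isChain_append]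
        refine ⟨h9, ?_, ?_⟩
        · rw [List.isChain_cons_cons]
          exact ⟨hbc, h10.2.2⟩
        · intro x' hx' y' hy'
          exact h11 x' hx' y' (by simpa using hy')

theorem MC_conv (x : I → Bool) (n : I → ℕ) : (LB (I → Bool)).Conv (MC f x n) := by
  intro L hL z hz w hw hzw
  obtain ⟨P, a, Q, rfl, rfl⟩ := LB_lt hw
  obtain ⟨P', a', Q', h1, rfl⟩ := LB_lt hzw
  have hcr : cr (P ++ Q) = n := by
    funext i
    have e1 := cr_erase_le P a Q i
    have e2 := cr_erase_le P' a' Q' i
    rw [← h1] at e2
    have e3 : cr (P' ++ Q') i = n i := by rw [hz.2.2.2]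
    have e4 : cr (P ++ a :: Q) i = n i := by rw [hL.2.2.2]
    omega
  obtain ⟨_, _, _, _, _, _, _, _, h⟩ := MC_erase hL (by rw [h1]; simp) hcr
  exact h

end Pool.Agent.K6.H51.MHA
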