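import Mathlib

set_option autoImplicit false

/-! Differential groups with a basis, and the subquotients spanned by convex sets of basis
elements. -/

namespace Pool.Agent.K6.H51.MHA

open Finsupp

universe u v

/-- A free abelian group with the basis `X`, a differential and a grading of the basis. -/
structure BCx (X : Type u) where
  D : (X →₀ ℤ) →+ (X →₀ ℤ)
  D_D : ∀ z, D (D z) = 0
  deg : X → ℕ
  D_deg : ∀ x y, D (single x 1) y ≠ 0 → deg y + 1 = deg x

variable {X : Type u} {Y : Type v}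

section basic

open Classical in
/-- projection to the span of `S` -/
noncomputable def pr (S : Set X) : (X →₀ ℤ) →+ (X →₀ ℤ) := Finsupp.filterAddHom (· ∈ S)

/-- `z` is in the span of `S` -/
def InS (S : Set X) (z : X →₀ ℤ) : Prop := ∀ x, z x ≠ 0 → x ∈ S

open Classical in
theorem pr_apply (S : Set X) (z : X →₀ ℤ) (x : X) : pr S z x = if x ∈ S then z x else 0 := by
  show Finsupp.filter _ z x = _
  rw [Finsupp.filter_apply]

theorem pr_apply_mem {S : Set X} {z : X →₀ ℤ} {x : X} (h : x ∈ S) : pr S z x = z x := by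
  rw [pr_apply, if_pos h]

theorem pr_apply_notMem {S : Set X} {z : X →₀ ℤ} {x : X} (h : x ∉ S) : pr S z x = 0 := by
  rw [pr_apply, if_neg h]

theorem inS_pr (S : Set X) (z : X →₀ ℤ) : InS S (pr S z) := by
  intro x hx
  by_contra h
  exact hx (pr_apply_notMem h)

theorem pr_eq_self {S : Set X} {z : X →₀ ℤ} (h : InS S z) : pr S z = z := by
  ext x
  by_cases hx : x ∈ S
  · rw [pr_apply_mem hx]
  · rw [pr_apply_notMem hx]
    by_contra h0
    exact hx (h x (Ne.symm h0))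

theorem InS.zero (S : Set X) : InS S (0 : X →₀ ℤ) := fun _ hx => absurd rfl hx

theorem InS.add {S : Set X} {z w : X →₀ ℤ} (hz : InS S z) (hw : InS S w) : InS S (z + w) := by
  intro x hx
  by_contra h
  apply hx
  have h1 : z x = 0 := by
    by_contra h1
    exact h (hz x h1)
  have h2 : w x = 0 := by
    by_contra h1
    exact h (hw x h1)
  rw [Finsupp.add_apply, h1, h2, add_zero]

theorem InS.neg {S : Set X} {z : X →₀ ℤ} (hz : InS S z) : InS S (-z) := by
  intro x hx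
  apply hz
  intro h
  apply hx
  rw [Finsupp.neg_apply, h, neg_zero]

theorem InS.sub {S : Set X} {z w : X →₀ ℤ} (hz : InS S z) (hw : InS S w) : InS S (z - w) := by
  rw [sub_eq_add_neg]
  exact hz.add hw.neg

theorem InS.mono {S T : Set X} (h : S ⊆ T) {z : X →₀ ℤ} (hz : InS S z) : InS T z :=
  fun x hx => h (hz x hx)

theorem InS.sum {S : Set X} {ι : Type*} {s : Finset ι} {z : ι → X →₀ ℤ}
    (h : ∀ i ∈ s, InS S (z i)) : InS S (∑ i ∈ s, z i) := by
  classical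
  induction s using Finset.induction_on with
  | empty => rw [Finset.sum_empty]; exact InS.zero S
  | insert a s ha ih =>
    rw [Finset.sum_insert ha]
    exact (h a (Finset.mem_insert_self a s)).add (ih fun i hi => h i (Finset.mem_insert_of_mem hi))

theorem inS_single {S : Set X} {x : X} (h : x ∈ S) (c : ℤ) : InS S (single x c) := by
  intro y hy
  by_cases hyx : x = y
  · rw [← hyx]; exact h
  · exact absurd (Finsupp.single_eq_of_ne' hyx) hy

theorem pr_pr_of_subset {S T : Set X} (h : S ⊆ T) (z : X →₀ ℤ) : pr S (pr T z) = pr S z := by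
  ext x
  by_cases hx : x ∈ S
  · rw [pr_apply_mem hx, pr_apply_mem hx, pr_apply_mem (h hx)]
  · rw [pr_apply_notMem hx, pr_apply_notMem hx]

theorem InS.pr {S T : Set X} {z : X →₀ ℤ} (hz : InS S z) : InS S (pr T z) := by
  intro x hx
  apply hz
  intro h
  apply hx
  by_cases hxT : x ∈ T
  · rw [pr_apply_mem hxT, h]
  · rw [pr_apply_notMem hxT]

theorem pr_add_pr {S S1 S2 : Set X} (hS : S = S1 ∪ S2) (hd : ∀ x ∈ S1, x ∉ S2) {z : X →₀ ℤ}
    (hz : InS S z) : pr S1 z + pr S2 z = z := by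
  ext x
  rw [Finsupp.add_apply]
  by_cases h1 : x ∈ S1
  · rw [pr_apply_mem h1, pr_apply_notMem (hd x h1), add_zero]
  · rw [pr_apply_notMem h1, zero_add]
    by_cases h2 : x ∈ S2
    · rw [pr_apply_mem h2]
    · rw [pr_apply_notMem h2]
      by_contra h0
      have := hz x (Ne.symm h0)
      rw [hS] at this
      exact this.elim h1 h2

theorem pr_add_pr_compl (S : Set X) (z : X →₀ ℤ) : pr S z + pr Sᶜ z = z :=
  pr_add_pr (S := Set.univ) (S1 := S) (S2 := Sᶜ) (by simp) (fun _ hx hx' => hx' hx)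
    (fun _ _ => trivial)

end basic

namespace BCx

variable (C : BCx X)

/-- `y` occurs in the boundary of `x` -/
def Lt (y x : X) : Prop := C.D (single x 1) y ≠ 0

theorem D_apply (z : X →₀ ℤ) (y : X) : C.D z y = z.sum fun x c => c * C.D (single x 1) y := by
  induction z using Finsupp.induction_linear with
  | zero => rw [map_zero, Finsupp.sum_zero_index]; rfl
  | add f g hf hg =>
    rw [map_add, Finsupp.add_apply, hf, hg, Finsupp.sum_add_index']
    · intro; rw [zero_mul]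
    · intro a b c; rw [add_mul]
  | single x c =>
    rw [Finsupp.sum_single_index (by rw [zero_mul])]
    have h : (single x c : X →₀ ℤ) = c • single x 1 := by
      rw [Finsupp.smul_single, smul_eq_mul, mul_one]
    rw [h, map_zsmul, Finsupp.smul_apply, smul_eq_mul]

theorem exists_of_D {z : X →₀ ℤ} {y : X} (h : C.D z y ≠ 0) : ∃ x, z x ≠ 0 ∧ C.Lt y x := by
  rw [D_apply] at h
  obtain ⟨x, hx, hx'⟩ := Finset.exists_ne_zero_of_sum_ne_zero h
  exact ⟨x, Finsupp.mem_support_iff.1 hx, fun h0 => hx' (by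
    show z x * C.D (single x 1) y = 0
    rw [h0, mul_zero])⟩

/-- the differential of the span of `S` -/
noncomputable def DS (S : Set X) : (X →₀ ℤ) →+ (X →₀ ℤ) := (pr S).comp C.D

theorem DS_apply (S : Set X) (z : X →₀ ℤ) : C.DS S z = pr S (C.D z) := rfl

/-- `S` is convex -/
def Conv (S : Set X) : Prop := ∀ x ∈ S, ∀ z ∈ S, ∀ w, C.Lt w x → C.Lt z w → w ∈ S

theorem inS_DS (S : Set X) (z : X →₀ ℤ) : InS S (C.DS S z) := inS_pr S _

theorem DS_DS {S : Set X} (hS : C.Conv S) {z : X →₀ ℤ} (hz : InS S z) :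
    C.DS S (C.DS S z) = 0 := by
  ext y
  rw [DS_apply]
  by_cases hy : y ∈ S
  · rw [pr_apply_mem hy, DS_apply]
    have h1 : pr S (C.D z) = C.D z - pr Sᶜ (C.D z) := by
      rw [eq_sub_iff_add_eq]
      exact pr_add_pr_compl _ _
    rw [h1, map_sub, C.D_D, zero_sub, Finsupp.neg_apply, Finsupp.zero_apply, neg_eq_zero]
    by_contra h2
    obtain ⟨w, hw, hyw⟩ := C.exists_of_D h2
    have hwS : w ∉ S := inS_pr _ _ w hw
    rw [pr_apply_mem hwS] at hw
    obtain ⟨x, hx, hwx⟩ := C.exists_of_D hw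
    exact hwS (hS x (hz x hx) y hy w hwx hyw)
  · rw [pr_apply_notMem hy]; rfl

/-- the span of `S` is acyclic -/
def Acy (S : Set X) : Prop := ∀ z, InS S z → C.DS S z = 0 → ∃ w, InS S w ∧ C.DS S w = z

/-- `S1` is a subcomplex of `S` -/
def Clo (S1 S : Set X) : Prop := S1 ⊆ S ∧ ∀ x ∈ S1, ∀ y ∈ S, C.Lt y x → y ∈ S1

variable {C}

theorem Clo.DS_eq {S1 S : Set X} (h : C.Clo S1 S) {z : X →₀ ℤ} (hz : InS S1 z) :
    C.DS S z = C.DS S1 z := by
  ext y
  rw [DS_apply, DS_apply]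
  by_cases h1 : y ∈ S1
  · rw [pr_apply_mem h1, pr_apply_mem (h.1 h1)]
  · rw [pr_apply_notMem h1]
    by_cases h2 : y ∈ S
    · rw [pr_apply_mem h2]
      by_contra h3
      obtain ⟨x, hx, hyx⟩ := C.exists_of_D h3
      exact h1 (h.2 x (hz x hx) y h2 hyx)
    · rw [pr_apply_notMem h2]

theorem Clo.conv_left {S1 S : Set X} (h : C.Clo S1 S) (hS : C.Conv S) : C.Conv S1 := by
  intro x hx z hz w hw hzw
  exact h.2 x hx w (hS x (h.1 hx) z (h.1 hz) w hw hzw) hw

theorem Clo.conv_right {S1 S : Set X} (h : C.Clo S1 S) (hS : C.Conv S) : C.Conv (S \ S1) := by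
  intro x hx z hz w hw hzw
  have hwS := hS x hx.1 z hz.1 w hw hzw
  exact ⟨hwS, fun hw1 => hz.2 (h.2 w hw1 z hz.1 hzw)⟩

theorem Clo.pr_D_zero {S1 S : Set X} (h : C.Clo S1 S) {z : X →₀ ℤ} (hz : InS S1 z) :
    pr (S \ S1) (C.D z) = 0 := by
  ext y
  by_cases hy : y ∈ S \ S1
  · rw [pr_apply_mem hy]
    by_contra h3
    obtain ⟨x, hx, hyx⟩ := C.exists_of_D h3
    exact hy.2 (h.2 x (hz x hx) y hy.1 hyx)
  · rw [pr_apply_notMem hy]; rfl

theorem Clo.pr_DS {S1 S : Set X} (h : C.Clo S1 S) {z : X →₀ ℤ} (hz : InS S z) :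
    pr (S \ S1) (C.DS S z) = C.DS (S \ S1) (pr (S \ S1) z) := by
  have h1 : pr S1 z + pr (S \ S1) z = z :=
    pr_add_pr (by rw [Set.union_sdiff_cancel h.1]) (fun x hx hx' => hx'.2 hx) hz
  rw [DS_apply, pr_pr_of_subset Set.sdiff_subset]
  conv_lhs => rw [← h1]
  rw [map_add, map_add, h.pr_D_zero (inS_pr _ _), zero_add]
  rfl

theorem Clo.split {S1 S : Set X} (h : C.Clo S1 S) {z : X →₀ ℤ} (hz : InS S z) :
    pr S1 z + pr (S \ S1) z = z :=
  pr_add_pr (by rw [Set.union_sdiff_cancel h.1]) (fun _ hx hx' => hx'.2 hx) hz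

theorem inS_left_of_pr_zero {S1 S : Set X} {z : X →₀ ℤ} (hz : InS S z)
    (h0 : pr (S \ S1) z = 0) : InS S1 z := by
  intro x hx
  by_contra h1
  have h2 : x ∈ S \ S1 := ⟨hz x hx, h1⟩
  apply hx
  rw [← pr_apply_mem h2 (z := z), h0]
  rfl

/-- two out of three -/
theorem Acy.of_both {S1 S : Set X} (h : C.Clo S1 S) (hS : C.Conv S) (h1 : C.Acy S1)
    (h2 : C.Acy (S \ S1)) : C.Acy S := by
  intro z hz hz0
  have e1 : C.DS (S \ S1) (pr (S \ S1) z) = 0 := by
    rw [← h.pr_DS hz, hz0, map_zero]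
  obtain ⟨w, hw, hw'⟩ := h2 _ (inS_pr _ _) e1
  have hwS : InS S w := hw.mono Set.sdiff_subset
  have e2 : pr (S \ S1) (z - C.DS S w) = 0 := by
    rw [map_sub, h.pr_DS hwS, pr_eq_self hw, hw', sub_self]
  have e3 : InS S1 (z - C.DS S w) := inS_left_of_pr_zero (hz.sub (C.inS_DS S w)) e2
  have e4 : C.DS S1 (z - C.DS S w) = 0 := by
    rw [← h.DS_eq e3, map_sub, hz0, C.DS_DS hS hwS, sub_zero]
  obtain ⟨v, hv, hv'⟩ := h1 _ e3 e4
  refine ⟨w + v, hwS.add (hv.mono h.1), ?_⟩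
  rw [map_add, h.DS_eq hv, hv']
  abel

theorem Acy.right {S1 S : Set X} (h : C.Clo S1 S) (hS : C.Conv S) (h1 : C.Acy S1)
    (h2 : C.Acy S) : C.Acy (S \ S1) := by
  intro z hz hz0
  have hzS : InS S z := hz.mono Set.sdiff_subset
  have e0 : InS S1 (C.DS S z) := by
    apply inS_left_of_pr_zero (C.inS_DS S z)
    rw [h.pr_DS hzS, pr_eq_self hz, hz0]
  have e1 : C.DS S1 (C.DS S z) = 0 := by
    rw [← h.DS_eq e0, C.DS_DS hS hzS]
  obtain ⟨w, hw, hw'⟩ := h1 _ e0 e1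
  have e2 : C.DS S (z - w) = 0 := by
    rw [map_sub, h.DS_eq hw, hw', sub_self]
  obtain ⟨v, hv, hv'⟩ := h2 _ (hzS.sub (hw.mono h.1)) e2
  refine ⟨pr (S \ S1) v, inS_pr _ _, ?_⟩
  rw [← h.pr_DS hv, hv', map_sub, pr_eq_self hz]
  have : pr (S \ S1) w = 0 := by
    ext x
    by_cases hx : x ∈ S \ S1
    · rw [pr_apply_mem hx]
      by_contra h3
      exact hx.2 (hw x h3)
    · rw [pr_apply_notMem hx]; rfl
  rw [this, sub_zero]

variable (C) in
/-- homogeneous elements -/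
def Hom (k : ℤ) (z : X →₀ ℤ) : Prop := InS {x | (C.deg x : ℤ) = k} z

theorem Hom.D {k : ℤ} {z : X →₀ ℤ} (hz : C.Hom (k + 1) z) : C.Hom k (C.D z) := by
  intro y hy
  obtain ⟨x, hx, hyx⟩ := C.exists_of_D hy
  have h1 := C.D_deg x y hyx
  have h2 : (C.deg x : ℤ) = k + 1 := hz x hx
  show (C.deg y : ℤ) = k
  omega

theorem Hom.DS {k : ℤ} {z : X →₀ ℤ} (hz : C.Hom (k + 1) z) (S : Set X) :
    C.Hom k (C.DS S z) := InS.pr hz.D

theorem pr_comm (S T : Set X) (z : X →₀ ℤ) : pr S (pr T z) = pr T (pr S z) := by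
  ext x
  by_cases h1 : x ∈ S <;> by_cases h2 : x ∈ T <;> simp [pr_apply, h1, h2]

theorem pr_deg_D (k : ℤ) (z : X →₀ ℤ) :
    pr {x | (C.deg x : ℤ) = k} (C.D z) = C.D (pr {x | (C.deg x : ℤ) = k + 1} z) := by
  have h1 : z = pr {x | (C.deg x : ℤ) = k + 1} z + pr {x | (C.deg x : ℤ) = k + 1}ᶜ z :=
    (pr_add_pr_compl _ _).symm
  conv_lhs => rw [h1]
  rw [map_add, map_add]
  have h2 : pr {x | (C.deg x : ℤ) = k} (C.D (pr {x | (C.deg x : ℤ) = k + 1} z)) =
      C.D (pr {x | (C.deg x : ℤ) = k + 1} z) :=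
    pr_eq_self (Hom.D (k := k) (inS_pr _ _))
  have h3 : pr {x | (C.deg x : ℤ) = k} (C.D (pr {x | (C.deg x : ℤ) = k + 1}ᶜ z)) = 0 := by
    ext y
    by_cases hy : (C.deg y : ℤ) = k
    · rw [pr_apply_mem (show y ∈ {x | (C.deg x : ℤ) = k} from hy)]
      by_contra h4
      obtain ⟨x, hx, hyx⟩ := C.exists_of_D h4
      have h5 := C.D_deg x y hyx
      have h6 : x ∈ ({x | (C.deg x : ℤ) = k + 1}ᶜ : Set X) := inS_pr _ _ x hx
      exact h6 (by show (C.deg x : ℤ) = k + 1; omega)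
    · rw [pr_apply_notMem (show y ∉ {x | (C.deg x : ℤ) = k} from hy)]; rfl
  rw [h2, h3, add_zero]

theorem Acy.graded {S : Set X} (h : C.Acy S) {k : ℤ} {z : X →₀ ℤ} (hz : InS S z)
    (hk : C.Hom k z) (h0 : C.DS S z = 0) :
    ∃ w, InS S w ∧ C.Hom (k + 1) w ∧ C.DS S w = z := by
  obtain ⟨w, hw, hw'⟩ := h z hz h0
  refine ⟨pr {x | (C.deg x : ℤ) = k + 1} w, hw.pr, inS_pr _ _, ?_⟩
  rw [DS_apply, ← pr_deg_D, pr_comm, ← DS_apply, hw', pr_eq_self hk]

variable (C) in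
/-- cycles -/
def cyc (S : Set X) (k : ℤ) : AddSubgroup (X →₀ ℤ) where
  carrier := {z | InS S z ∧ C.Hom k z ∧ C.DS S z = 0}
  zero_mem' := ⟨InS.zero _, InS.zero _, map_zero _⟩
  add_mem' := fun ha hb => ⟨ha.1.add hb.1, InS.add ha.2.1 hb.2.1, by
    rw [map_add, ha.2.2, hb.2.2, add_zero]⟩
  neg_mem' := fun ha => ⟨ha.1.neg, InS.neg ha.2.1, by rw [map_neg, ha.2.2, neg_zero]⟩

variable (C) in
/-- boundaries -/
def bdy (S : Set X) (k : ℤ) : AddSubgroup (X →₀ ℤ) where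
  carrier := {z | ∃ w, InS S w ∧ C.Hom (k + 1) w ∧ C.DS S w = z}
  zero_mem' := ⟨0, InS.zero _, InS.zero _, map_zero _⟩
  add_mem' := by
    rintro a b ⟨v, h1, h2, rfl⟩ ⟨w, h3, h4, rfl⟩
    exact ⟨v + w, h1.add h3, InS.add h2 h4, map_add _ _ _⟩
  neg_mem' := by
    rintro a ⟨v, h1, h2, rfl⟩
    exact ⟨-v, h1.neg, InS.neg h2, map_neg _ _⟩

variable (C) in
/-- homology -/
def HG (S : Set X) (k : ℤ) : Type u := C.cyc S k ⧸ (C.bdy S k).addSubgroupOf (C.cyc S k)

noncomputable instance (S : Set X) (k : ℤ) : AddCommGroup (C.HG S k) :=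
  inferInstanceAs (AddCommGroup (C.cyc S k ⧸ (C.bdy S k).addSubgroupOf (C.cyc S k)))

theorem equiv_of_map {C' : BCx Y} {S : Set X} {S' : Set Y} {k k' : ℤ}
    (f : C.cyc S k →+ C'.cyc S' k')
    (h1 : ∀ z, (f z : Y →₀ ℤ) ∈ C'.bdy S' k' ↔ (z : X →₀ ℤ) ∈ C.bdy S k)
    (h2 : ∀ z' : C'.cyc S' k', ∃ z, ((z' : Y →₀ ℤ) - (f z : Y →₀ ℤ)) ∈ C'.bdy S' k') :
    Nonempty (C.HG S k ≃+ C'.HG S' k') := by
  let q : C'.cyc S' k' →+ C'.HG S' k' :=
    QuotientAddGroup.mk' ((C'.bdy S' k').addSubgroupOf (C'.cyc S' k'))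
  let g : C.cyc S k →+ C'.HG S' k' := q.comp f
  have hk : g.ker = (C.bdy S k).addSubgroupOf (C.cyc S k) := by
    ext z
    rw [AddMonoidHom.mem_ker, AddSubgroup.mem_addSubgroupOf, ← h1]
    show QuotientAddGroup.mk (f z) = (0 : C'.cyc S' k' ⧸ _) ↔ _
    rw [QuotientAddGroup.eq_zero_iff, AddSubgroup.mem_addSubgroupOf]
  have hs : Function.Surjective g := by
    intro y
    obtain ⟨z', rfl⟩ := QuotientAddGroup.mk_surjective y
    obtain ⟨z, hz⟩ := h2 z'
    refine ⟨z, ?_⟩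
    show QuotientAddGroup.mk (f z) = QuotientAddGroup.mk z'
    rw [QuotientAddGroup.eq, AddSubgroup.mem_addSubgroupOf]
    show (-(f z : Y →₀ ℤ) + (z' : Y →₀ ℤ)) ∈ _
    rw [neg_add_eq_sub]
    exact hz
  exact ⟨(QuotientAddGroup.quotientAddEquivOfEq hk.symm).trans
    (QuotientAddGroup.quotientKerEquivOfSurjective g hs)⟩

theorem subsingleton_of_acy {S : Set X} (h : C.Acy S) (k : ℤ) : Subsingleton (C.HG S k) := by
  constructor
  intro a b
  obtain ⟨a, rfl⟩ := QuotientAddGroup.mk_surjective a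
  obtain ⟨b, rfl⟩ := QuotientAddGroup.mk_surjective b
  refine QuotientAddGroup.eq.2 ?_
  rw [AddSubgroup.mem_addSubgroupOf]
  obtain ⟨h1, h2, h3⟩ := (-a + b).2
  exact h.graded h1 h2 h3

/-- a closed acyclic part can be removed -/
theorem HG_quot {S1 S : Set X} (h : C.Clo S1 S) (hS : C.Conv S) (h1 : C.Acy S1) (k : ℤ) :
    Nonempty (C.HG S k ≃+ C.HG (S \ S1) k) := by
  let f : C.cyc S k →+ C.cyc (S \ S1) k := AddMonoidHom.mk' (fun z => ⟨pr (S \ S1) z.1,
    inS_pr _ _, InS.pr z.2.2.1, by rw [← h.pr_DS z.2.1, z.2.2.2, map_zero]⟩) (by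
      intro a b
      apply Subtype.ext
      exact map_add _ _ _)
  apply equiv_of_map f
  · rintro ⟨z, hz, hzk, hz0⟩
    constructor
    · rintro ⟨v, hv, hvk, hv'⟩
      have hv'' : C.DS (S \ S1) v = pr (S \ S1) z := hv'
      have hvS : InS S v := hv.mono Set.sdiff_subset
      have e1 : InS S1 (z - C.DS S v) := by
        apply inS_left_of_pr_zero (hz.sub (C.inS_DS S v))
        rw [map_sub, h.pr_DS hvS, pr_eq_self hv, hv'', sub_self]
      obtain ⟨w, hw, hwk, hw'⟩ := h1.graded (k := k) e1 (InS.sub hzk (hvk.DS S)) (by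
        rw [← h.DS_eq e1, map_sub, hz0, C.DS_DS hS hvS, sub_zero])
      refine ⟨v + w, hvS.add (hw.mono h.1), InS.add hvk hwk, ?_⟩
      rw [map_add, h.DS_eq hw, hw']
      show _ = z
      abel
    · rintro ⟨v, hv, hvk, hv'⟩
      have hv'' : C.DS S v = z := hv'
      exact ⟨pr (S \ S1) v, inS_pr _ _, InS.pr hvk, by
        rw [← h.pr_DS hv, hv'']; rfl⟩
  · rintro ⟨z, hz, hzk, hz0⟩
    have hzS : InS S z := hz.mono Set.sdiff_subset
    have e0 : InS S1 (C.DS S z) := by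
      apply inS_left_of_pr_zero (C.inS_DS S z)
      rw [h.pr_DS hzS, pr_eq_self hz, hz0]
    have hzk' : C.Hom ((k - 1) + 1) z := by rw [sub_add_cancel]; exact hzk
    obtain ⟨w, hw, hwk, hw'⟩ := h1.graded (k := k - 1) e0 (hzk'.DS S) (by
      rw [← h.DS_eq e0, C.DS_DS hS hzS])
    rw [sub_add_cancel] at hwk
    refine ⟨⟨z - w, hzS.sub (hw.mono h.1), InS.sub hzk hwk, by
      rw [map_sub, h.DS_eq hw, hw', sub_self]⟩, ?_⟩
    show z - pr (S \ S1) (z - w) ∈ _
    have : pr (S \ S1) w = 0 := by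
      ext x
      by_cases hx : x ∈ S \ S1
      · rw [pr_apply_mem hx]
        by_contra h3
        exact hx.2 (hw x h3)
      · rw [pr_apply_notMem hx]; rfl
    rw [map_sub, this, pr_eq_self hz, sub_zero, sub_self]
    exact zero_mem _

/-- an acyclic quotient can be removed -/
theorem HG_sub {S1 S : Set X} (h : C.Clo S1 S) (hS : C.Conv S) (h1 : C.Acy (S \ S1)) (k : ℤ) :
    Nonempty (C.HG S1 k ≃+ C.HG S k) := by
  let f : C.cyc S1 k →+ C.cyc S k := AddMonoidHom.mk' (fun z => ⟨z.1,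
    z.2.1.mono h.1, z.2.2.1, by rw [h.DS_eq z.2.1, z.2.2.2]⟩) (by
      intro a b
      rfl)
  apply equiv_of_map f
  · rintro ⟨z, hz, hzk, hz0⟩
    constructor
    · rintro ⟨v, hv, hvk, hv'⟩
      have hv'' : C.DS S v = z := hv'
      have e1 : C.DS (S \ S1) (pr (S \ S1) v) = 0 := by
        rw [← h.pr_DS hv, hv'']
        ext x
        by_cases hx : x ∈ S \ S1
        · rw [pr_apply_mem hx]
          by_contra h3
          exact hx.2 (hz x h3)
        · rw [pr_apply_notMem hx]; rfl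
      obtain ⟨w, hw, hwk, hw'⟩ := h1.graded (k := k + 1) (inS_pr _ _) (InS.pr hvk) e1
      have hwS : InS S w := hw.mono Set.sdiff_subset
      have e2 : InS S1 (v - C.DS S w) := by
        apply inS_left_of_pr_zero (hv.sub (C.inS_DS S w))
        rw [map_sub, h.pr_DS hwS, pr_eq_self hw, hw', sub_self]
      refine ⟨v - C.DS S w, e2, InS.sub hvk (hwk.DS S), ?_⟩
      rw [← h.DS_eq e2, map_sub, C.DS_DS hS hwS, sub_zero, hv'']
    · rintro ⟨v, hv, hvk, hv'⟩
      exact ⟨v, hv.mono h.1, hvk, by rw [h.DS_eq hv]; exact hv'⟩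
  · rintro ⟨z, hz, hzk, hz0⟩
    obtain ⟨w, hw, hwk, hw'⟩ := h1.graded (k := k) (inS_pr _ z) (InS.pr hzk) (by
      rw [← h.pr_DS hz, hz0, map_zero])
    have hwS : InS S w := hw.mono Set.sdiff_subset
    have e2 : InS S1 (z - C.DS S w) := by
      apply inS_left_of_pr_zero (hz.sub (C.inS_DS S w))
      rw [map_sub, h.pr_DS hwS, pr_eq_self hw, hw', sub_self]
    refine ⟨⟨z - C.DS S w, e2, InS.sub hzk (hwk.DS S), ?_⟩, ?_⟩
    · rw [← h.DS_eq e2, map_sub, hz0, C.DS_DS hS hwS, sub_zero]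
    · refine ⟨w, hwS, hwk, ?_⟩
      show _ = z - (z - C.DS S w)
      abel

/-- the connecting isomorphism -/
theorem HG_conn {S1 S : Set X} (h : C.Clo S1 S) (hS : C.Conv S) (hA : C.Acy S) (k : ℤ) :
    Nonempty (C.HG (S \ S1) (k + 1) ≃+ C.HG S1 k) := by
  have key : ∀ z, InS (S \ S1) z → C.DS (S \ S1) z = 0 → InS S1 (C.DS S z) := by
    intro z hz hz0
    apply inS_left_of_pr_zero (C.inS_DS S z)
    rw [h.pr_DS (hz.mono Set.sdiff_subset), pr_eq_self hz, hz0]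
  let f : C.cyc (S \ S1) (k + 1) →+ C.cyc S1 k := AddMonoidHom.mk' (fun z => ⟨C.DS S z.1,
    key z.1 z.2.1 z.2.2.2, z.2.2.1.DS S, by
      rw [← h.DS_eq (key z.1 z.2.1 z.2.2.2), C.DS_DS hS (z.2.1.mono Set.sdiff_subset)]⟩) (by
      intro a b
      apply Subtype.ext
      exact map_add _ _ _)
  apply equiv_of_map f
  · rintro ⟨z, hz, hzk, hz0⟩
    have hzS : InS S z := hz.mono Set.sdiff_subset
    constructor
    · rintro ⟨w, hw, hwk, hw'⟩
      have hw'' : C.DS S1 w = C.DS S z := hw'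
      obtain ⟨v, hv, hvk, hv'⟩ := hA.graded (k := k + 1) (hzS.sub (hw.mono h.1))
        (InS.sub hzk hwk) (by rw [map_sub, h.DS_eq hw, hw'', sub_self])
      refine ⟨pr (S \ S1) v, inS_pr _ _, InS.pr hvk, ?_⟩
      show _ = z
      rw [← h.pr_DS hv, hv', map_sub, pr_eq_self hz]
      have : pr (S \ S1) w = 0 := by
        ext x
        by_cases hx : x ∈ S \ S1
        · rw [pr_apply_mem hx]
          by_contra h3
          exact hx.2 (hw x h3)
        · rw [pr_apply_notMem hx]; rfl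
      rw [this, sub_zero]
    · rintro ⟨v, hv, hvk, hv'⟩
      have hv'' : C.DS (S \ S1) v = z := hv'
      have hvS : InS S v := hv.mono Set.sdiff_subset
      have e1 : InS S1 (z - C.DS S v) := by
        apply inS_left_of_pr_zero (hzS.sub (C.inS_DS S v))
        rw [map_sub, h.pr_DS hvS, pr_eq_self hv, pr_eq_self hz, hv'', sub_self]
      refine ⟨z - C.DS S v, e1, InS.sub hzk (hvk.DS S), ?_⟩
      rw [← h.DS_eq e1, map_sub, C.DS_DS hS hvS, sub_zero]
      rfl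
  · rintro ⟨z, hz, hzk, hz0⟩
    have hzS : InS S z := hz.mono h.1
    obtain ⟨v, hv, hvk, hv'⟩ := hA.graded (k := k) hzS hzk (by rw [h.DS_eq hz, hz0])
    refine ⟨⟨pr (S \ S1) v, inS_pr _ _, InS.pr hvk, ?_⟩, ?_⟩
    · rw [← h.pr_DS hv, hv']
      ext x
      by_cases hx : x ∈ S \ S1
      · rw [pr_apply_mem hx]
        by_contra h3
        exact hx.2 (hz x h3)
      · rw [pr_apply_notMem hx]; rfl
    · refine ⟨pr S1 v, inS_pr _ _, InS.pr hvk, ?_⟩
      show _ = z - C.DS S (pr (S \ S1) v)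
      rw [← h.DS_eq (inS_pr S1 v), eq_sub_iff_add_eq, ← map_add, h.split hv, hv']

end BCx

end Pool.Agent.K6.H51.MHA
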