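import Pool.Agent.K6.H51.MHA.Cx

set_option autoImplicit false

/-! Criteria for acyclicity. -/

namespace Pool.Agent.K6.H51.MHA

open Finsupp

universe u v

variable {X : Type u} {Y : Type v}

namespace BCx

variable {C : BCx X}

/-- the part of `S` over `t` -/
def fib {T : Type v} (S : Set X) (κ : X → T) (t : T) : Set X := {x | x ∈ S ∧ κ x = t}

/-- A set with a map to a ranked set whose fibres are acyclic is acyclic. -/
theorem Acy.pieces {T : Type v} {S : Set X} (hS : C.Conv S) (κ : X → T) (rk : T → ℕ)
    (h1 : ∀ x ∈ S, ∀ y ∈ S, C.Lt y x → κ y = κ x ∨ rk (κ y) < rk (κ x))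
    (h2 : ∀ t, C.Acy (fib S κ t)) : C.Acy S := by
  classical
  have key : ∀ r : ℕ, ∀ z, InS S z → (∀ x, z x ≠ 0 → rk (κ x) < r) → C.DS S z = 0 →
      ∃ w, InS S w ∧ C.DS S w = z := by
    intro r
    induction r with
    | zero =>
      intro z hz hr _
      refine ⟨0, InS.zero S, ?_⟩
      rw [map_zero]
      ext x
      by_contra h
      exact absurd (hr x (Ne.symm h)) (by omega)
    | succ r ih =>
      intro z hz hr hz0
      let F : Finset T := (z.support.image κ).filter fun t => rk t = r
      have hfS : ∀ t, fib S κ t ⊆ S := fun t x hx => hx.1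
      have hF : ∀ t, rk t = r → C.DS (fib S κ t) (pr (fib S κ t) z) = 0 := by
        intro t ht
        ext y
        rw [DS_apply]
        by_cases hy : y ∈ fib S κ t
        · rw [pr_apply_mem hy]
          have e1 : C.D z y = 0 := by
            have : C.DS S z y = 0 := by rw [hz0]; rfl
            rwa [DS_apply, pr_apply_mem hy.1] at this
          have e2 : C.D (pr (fib S κ t)ᶜ z) y = 0 := by
            by_contra h3
            obtain ⟨x, hx, hyx⟩ := C.exists_of_D h3
            have hx1 : x ∉ fib S κ t := inS_pr _ _ x hx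
            rw [pr_apply_mem (show x ∈ (fib S κ t)ᶜ from hx1)] at hx
            have hxS := hz x hx
            have hxr := hr x hx
            rcases h1 x hxS y hy.1 hyx with h4 | h4
            · exact hx1 ⟨hxS, by rw [← h4]; exact hy.2⟩
            · rw [hy.2, ht] at h4
              omega
          have e3 : C.D z y = C.D (pr (fib S κ t) z) y + C.D (pr (fib S κ t)ᶜ z) y := by
            rw [← Finsupp.add_apply, ← map_add, pr_add_pr_compl]
          rw [e1, e2, add_zero] at e3
          rw [← e3]; rfl
        · rw [pr_apply_notMem hy]; rfl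
      have hex : ∀ t, ∃ w, InS (fib S κ t) w ∧
          (rk t = r → C.DS (fib S κ t) w = pr (fib S κ t) z) := by
        intro t
        by_cases ht : rk t = r
        · obtain ⟨w, hw, hw'⟩ := h2 t _ (inS_pr _ z) (hF t ht)
          exact ⟨w, hw, fun _ => hw'⟩
        · exact ⟨0, InS.zero _, fun h => absurd h ht⟩
      choose w hw hw' using hex
      let v := ∑ t ∈ F, w t
      have hv : InS S v := InS.sum fun t _ => (hw t).mono (hfS t)
      obtain ⟨u, hu, hu'⟩ := ih (z - C.DS S v) (hz.sub (C.inS_DS S v)) (by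
        intro x hx
        by_contra hcon
        apply hx
        have hxS : x ∈ S := by
          by_contra h
          apply hx
          have e := hz.sub (C.inS_DS S v)
          by_contra h'
          exact h (e x h')
        rw [Finsupp.sub_apply, sub_eq_zero, DS_apply, pr_apply_mem hxS]
        have hDv : C.D v x = ∑ t ∈ F, C.D (w t) x := by
          show C.D (∑ t ∈ F, w t) x = _
          rw [map_sum, Finsupp.finsetSum_apply]
        have hoff : ∀ t ∈ F, t ≠ κ x → C.D (w t) x = 0 := by
          intro t ht htx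
          by_contra h3
          obtain ⟨x', hx', hyx⟩ := C.exists_of_D h3
          have h4 := hw t x' hx'
          have h5 := (Finset.mem_filter.1 ht).2
          rcases h1 x' h4.1 x hxS hyx with h6 | h6
          · exact htx (by rw [h6, h4.2])
          · rw [h4.2, h5] at h6
            exact hcon h6
        by_cases hxr : rk (κ x) = r
        · have hmem : x ∈ fib S κ (κ x) := ⟨hxS, rfl⟩
          have e0 : C.D (w (κ x)) x = z x := by
            have := hw' (κ x) hxr
            have h7 : C.DS (fib S κ (κ x)) (w (κ x)) x = pr (fib S κ (κ x)) z x := by rw [this]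
            rwa [DS_apply, pr_apply_mem hmem, pr_apply_mem hmem] at h7
          by_cases hxF : κ x ∈ F
          · rw [hDv, Finset.sum_eq_single_of_mem _ hxF hoff, e0]
          · have hz' : z x = 0 := by
              by_contra h8
              exact hxF (Finset.mem_filter.2 ⟨Finset.mem_image.2
                ⟨x, Finsupp.mem_support_iff.2 h8, rfl⟩, hxr⟩)
            rw [hDv, hz', Finset.sum_eq_zero fun t ht => hoff t ht fun h => hxF (h ▸ ht)]
        · have hxr' : r < rk (κ x) := by omega
          have hz' : z x = 0 := by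
            by_contra h8
            exact absurd (hr x h8) (by omega)
          rw [hDv, hz', Finset.sum_eq_zero fun t ht => hoff t ht fun h => hxr (by
            rw [← h]; exact (Finset.mem_filter.1 ht).2)]) (by
        rw [map_sub, hz0, C.DS_DS hS hv, sub_zero])
      refine ⟨u + v, hu.add hv, ?_⟩
      rw [map_add, hu']
      abel
  intro z hz hz0
  exact key (z.support.sup (fun x => rk (κ x)) + 1) z hz (fun x hx =>
    Nat.lt_succ_of_le (Finset.le_sup (f := fun x => rk (κ x)) (Finsupp.mem_support_iff.2 hx))) hz0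

/-- A contracting homotopy, given on the basis. -/
theorem Acy.homotopy {S : Set X} (s : (X →₀ ℤ) →+ (X →₀ ℤ))
    (hs : ∀ x ∈ S, InS S (s (single x 1)))
    (h : ∀ x ∈ S, C.DS S (s (single x 1)) + s (C.DS S (single x 1)) = single x 1) :
    C.Acy S := by
  have hs' : ∀ z, InS S z → InS S (s z) := by
    intro z hz
    rw [← Finsupp.sum_single z, Finsupp.sum, map_sum]
    apply InS.sum
    intro x hx
    have h1 : (single x (z x) : X →₀ ℤ) = z x • single x 1 := by
      rw [Finsupp.smul_single, smul_eq_mul, mul_one]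
    rw [h1, map_zsmul]
    intro y hy
    rw [Finsupp.smul_apply] at hy
    exact hs x (hz x (Finsupp.mem_support_iff.1 hx)) y fun h0 => hy (by rw [h0, smul_zero])
  have h' : ∀ z, InS S z → C.DS S (s z) + s (C.DS S z) = z := by
    intro z hz
    have e1 : z = ∑ x ∈ z.support, z x • (single x 1 : X →₀ ℤ) := by
      conv_lhs => rw [← Finsupp.sum_single z, Finsupp.sum]
      refine Finset.sum_congr rfl fun x _ => ?_
      rw [Finsupp.smul_single, smul_eq_mul, mul_one]
    conv_lhs => rw [e1]
    simp only [map_sum, map_zsmul]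
    rw [← Finset.sum_add_distrib]
    conv_rhs => rw [e1]
    refine Finset.sum_congr rfl fun x hx => ?_
    rw [← smul_add, h x (hz x (Finsupp.mem_support_iff.1 hx))]
  intro z hz hz0
  refine ⟨s z, hs' z hz, ?_⟩
  have := h' z hz
  rwa [hz0, map_zero, add_zero] at this

/-- A perfect matching of the elements of `S`. -/
theorem Acy.matching {S S0 : Set X} (hS : C.Conv S) (h0 : S0 ⊆ S) (σ : X → X)
    (h1 : ∀ x ∈ S0, σ x ∈ S \ S0) (h2 : ∀ y ∈ S \ S0, ∃ x ∈ S0, σ x = y)
    (h3 : ∀ x ∈ S0, IsUnit (C.D (single (σ x) 1) x))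
    (h4 : ∀ x ∈ S0, ∀ y ∈ S0, y ≠ x → C.D (single (σ x) 1) y = 0) : C.Acy S := by
  classical
  intro z hz hz0
  have hinj : ∀ x ∈ S0, ∀ y ∈ S0, σ x = σ y → x = y := by
    intro x hx y hy hxy
    by_contra hne
    have := h4 y hy x hx hne
    rw [← hxy] at this
    exact (h3 x hx).ne_zero this
  let ε : X → ℤ := fun x => C.D (single (σ x) 1) x
  have hε : ∀ x ∈ S0, ε x * ε x = 1 := fun x hx => Int.isUnit_mul_self (h3 x hx)
  let z0 := pr S0 z
  let w : X →₀ ℤ := ∑ x ∈ z0.support, (ε x * z0 x) • single (σ x) 1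
  have hz0S : ∀ x ∈ z0.support, x ∈ S0 := fun x hx => inS_pr S0 z x (Finsupp.mem_support_iff.1 hx)
  have hw : InS S w := by
    apply InS.sum
    intro x hx
    rw [Finsupp.smul_single]
    exact inS_single (h1 x (hz0S x hx)).1 _
  have e1 : ∀ y ∈ S0, C.D w y = z y := by
    intro y hy
    have : C.D w y = ∑ x ∈ z0.support, (ε x * z0 x) * C.D (single (σ x) 1) y := by
      show C.D (∑ x ∈ z0.support, (ε x * z0 x) • single (σ x) 1) y = _
      rw [map_sum, Finsupp.finsetSum_apply]
      refine Finset.sum_congr rfl fun x _ => ?_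
      rw [map_zsmul, Finsupp.smul_apply, smul_eq_mul]
    rw [this]
    by_cases hy0 : y ∈ z0.support
    · rw [Finset.sum_eq_single_of_mem y hy0]
      · show ε y * z0 y * ε y = z y
        rw [mul_right_comm, hε y hy, one_mul]
        exact pr_apply_mem hy
      · intro x hx hxy
        rw [h4 x (hz0S x hx) y hy (Ne.symm hxy), mul_zero]
    · have hzy : z y = 0 := by
        rw [Finsupp.notMem_support_iff] at hy0
        rw [← hy0]
        exact (pr_apply_mem hy).symm
      rw [hzy]
      apply Finset.sum_eq_zero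
      intro x hx
      have hxy : y ≠ x := fun h => hy0 (h ▸ hx)
      rw [h4 x (hz0S x hx) y hy hxy, mul_zero]
  refine ⟨w, hw, ?_⟩
  have hz' : InS S (z - C.DS S w) := hz.sub (C.inS_DS S w)
  have e2 : ∀ y ∈ S0, (z - C.DS S w) y = 0 := by
    intro y hy
    rw [Finsupp.sub_apply, DS_apply, pr_apply_mem (h0 hy), e1 y hy, sub_self]
  have e3 : C.DS S (z - C.DS S w) = 0 := by rw [map_sub, hz0, C.DS_DS hS hw, sub_zero]
  have e4 : z - C.DS S w = 0 := by
    ext y
    by_contra hne
    have hyS : y ∈ S := hz' y hne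
    have hy0 : y ∉ S0 := fun h => hne (e2 y h)
    obtain ⟨x, hx, rfl⟩ := h2 y ⟨hyS, hy0⟩
    have e5 : C.D (z - C.DS S w) x = 0 := by
      have : C.DS S (z - C.DS S w) x = 0 := by rw [e3]; rfl
      rwa [DS_apply, pr_apply_mem (h0 hx)] at this
    rw [C.D_apply, Finsupp.sum, Finset.sum_eq_single_of_mem (σ x)
      (Finsupp.mem_support_iff.2 hne)] at e5
    · rcases mul_eq_zero.1 e5 with h | h
      · exact hne h
      · exact (h3 x hx).ne_zero h
    · intro y' hy' hne'
      have hyS' : y' ∈ S := hz' y' (Finsupp.mem_support_iff.1 hy')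
      have hy0' : y' ∉ S0 := fun h => Finsupp.mem_support_iff.1 hy' (e2 y' h)
      obtain ⟨x', hx', rfl⟩ := h2 y' ⟨hyS', hy0'⟩
      rw [h4 x' hx' x hx (fun h => hne' (by rw [h])), mul_zero]
  rw [sub_eq_zero] at e4
  exact e4.symm

theorem acy_empty : C.Acy (∅ : Set X) := by
  intro z hz _
  refine ⟨0, InS.zero _, ?_⟩
  rw [map_zero]
  ext x
  by_contra h
  exact hz x (Ne.symm h)

/-- Decomposition into independent parts. -/
theorem HG_pi {T : Type v} [Fintype T] {S : Set X} (κ : X → T)
    (h1 : ∀ x ∈ S, ∀ y ∈ S, C.Lt y x → κ y = κ x) (k : ℤ) :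
    Nonempty (C.HG S k ≃+ ∀ t, C.HG (fib S κ t) k) := by
  classical
  have hfS : ∀ t, fib S κ t ⊆ S := fun t x hx => hx.1
  have hDS : ∀ t z, InS S z → C.DS (fib S κ t) (pr (fib S κ t) z) = pr (fib S κ t) (C.DS S z) := by
    intro t z hz
    rw [DS_apply, DS_apply, pr_pr_of_subset (hfS t)]
    have e3 : C.D z = C.D (pr (fib S κ t) z) + C.D (pr (fib S κ t)ᶜ z) := by
      rw [← map_add, pr_add_pr_compl]
    rw [e3, map_add]
    have : pr (fib S κ t) (C.D (pr (fib S κ t)ᶜ z)) = 0 := by
      ext y
      by_cases hy : y ∈ fib S κ t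
      · rw [pr_apply_mem hy]
        by_contra h3
        obtain ⟨x, hx, hyx⟩ := C.exists_of_D h3
        have hx1 : x ∉ fib S κ t := inS_pr _ _ x hx
        rw [pr_apply_mem (show x ∈ (fib S κ t)ᶜ from hx1)] at hx
        have hxS := hz x hx
        exact hx1 ⟨hxS, by rw [← h1 x hxS y hy.1 hyx]; exact hy.2⟩
      · rw [pr_apply_notMem hy]; rfl
    rw [this, add_zero]
  have hsum : ∀ z, InS S z → ∑ t, pr (fib S κ t) z = z := by
    intro z hz
    ext x
    rw [Finsupp.finsetSum_apply]
    by_cases hx : x ∈ S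
    · rw [Finset.sum_eq_single_of_mem (κ x) (Finset.mem_univ _),
        pr_apply_mem (show x ∈ fib S κ (κ x) from ⟨hx, rfl⟩)]
      intro t _ ht
      exact pr_apply_notMem fun h => ht h.2.symm
    · have hzx : z x = 0 := by
        by_contra h
        exact hx (hz x h)
      rw [hzx]
      exact Finset.sum_eq_zero fun t _ => pr_apply_notMem fun h => hx h.1
  let f : C.cyc S k →+ ∀ t, C.HG (fib S κ t) k := AddMonoidHom.pi fun t =>
    (QuotientAddGroup.mk' ((C.bdy (fib S κ t) k).addSubgroupOf (C.cyc (fib S κ t) k))).comp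
      (AddMonoidHom.mk' (fun z => ⟨pr (fib S κ t) z.1, inS_pr _ _, InS.pr z.2.2.1, by
        rw [hDS t z.1 z.2.1, z.2.2.2, map_zero]⟩) (by
        intro a b
        apply Subtype.ext
        exact map_add _ _ _))
  have hk : f.ker = (C.bdy S k).addSubgroupOf (C.cyc S k) := by
    ext z
    rw [AddMonoidHom.mem_ker, AddSubgroup.mem_addSubgroupOf]
    constructor
    · intro h
      have h' : ∀ t, pr (fib S κ t) z.1 ∈ C.bdy (fib S κ t) k := by
        intro t
        have h2 := congrFun h t
        have h3 := (QuotientAddGroup.eq_zero_iff _).1 h2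
        exact AddSubgroup.mem_addSubgroupOf.1 h3
      choose w hw hwk hw' using h'
      refine ⟨∑ t, w t, InS.sum fun t _ => (hw t).mono (hfS t),
        InS.sum fun t _ => hwk t, ?_⟩
      rw [map_sum]
      have h4 : ∀ t, C.DS S (w t) = pr (fib S κ t) z.1 := by
        intro t
        rw [← hw' t, DS_apply, DS_apply]
        ext y
        by_cases hy : y ∈ fib S κ t
        · rw [pr_apply_mem hy, pr_apply_mem (hfS t hy)]
        · rw [pr_apply_notMem hy]
          by_cases hyS : y ∈ S
          · rw [pr_apply_mem hyS]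
            by_contra h5
            obtain ⟨x, hx, hyx⟩ := C.exists_of_D h5
            have h6 := hw t x hx
            exact hy ⟨hyS, by rw [h1 x h6.1 y hyS hyx]; exact h6.2⟩
          · rw [pr_apply_notMem hyS]
      rw [Finset.sum_congr rfl fun t _ => h4 t, hsum z.1 z.2.1]
    · rintro ⟨w, hw, hwk, hw'⟩
      funext t
      refine (QuotientAddGroup.eq_zero_iff _).2 ?_
      refine AddSubgroup.mem_addSubgroupOf.2 ⟨pr (fib S κ t) w, inS_pr _ _, InS.pr hwk, ?_⟩
      rw [hDS t w hw, hw']
      rfl
  have hs : Function.Surjective f := by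
    intro y
    have : ∀ t, ∃ z : C.cyc (fib S κ t) k, QuotientAddGroup.mk z = y t := fun t =>
      QuotientAddGroup.mk_surjective (y t)
    choose z hz using this
    have hzS : ∀ t, InS S (z t).1 := fun t => (z t).2.1.mono (hfS t)
    have hpr : ∀ t, pr (fib S κ t) (∑ t', (z t').1) = (z t).1 := by
      intro t
      rw [map_sum, Finset.sum_eq_single_of_mem t (Finset.mem_univ _), pr_eq_self (z t).2.1]
      intro t' _ ht'
      ext x
      by_cases hx : x ∈ fib S κ t
      · rw [pr_apply_mem hx]
        by_contra h3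
        have := (z t').2.1 x h3
        exact ht' (by rw [← this.2, hx.2])
      · rw [pr_apply_notMem hx]; rfl
    have hcyc : (∑ t', (z t').1) ∈ C.cyc S k := by
      refine ⟨InS.sum fun t _ => hzS t, InS.sum fun t _ => (z t).2.2.1, ?_⟩
      have h5 : InS S (∑ t', (z t').1) := InS.sum fun t _ => hzS t
      rw [← hsum _ (C.inS_DS S _)]
      apply Finset.sum_eq_zero
      intro t _
      rw [← hDS t _ h5, hpr t, (z t).2.2.2]
    refine ⟨⟨_, hcyc⟩, ?_⟩
    funext t
    rw [← hz t]
    show QuotientAddGroup.mk _ = QuotientAddGroup.mk _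
    congr 1
    exact Subtype.ext (hpr t)
  exact ⟨(QuotientAddGroup.quotientAddEquivOfEq hk.symm).trans
    (QuotientAddGroup.quotientKerEquivOfSurjective f hs)⟩

end BCx

end Pool.Agent.K6.H51.MHA
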