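import Pool.Agent.K6.H51.MHA.Bridge2
import Pool.Agent.N431.Hyp.Arr

set_option autoImplicit false

/-! Distances in the tope graph. -/

namespace Pool.Agent.K6.H51.MHA

open Finsupp Filter Topology

universe u v

variable {V : Type u} [AddCommGroup V] [Module ℝ V] {I : Type v}
  {f : I → V →ₗ[ℝ] ℝ}

theorem gate_exists [Fintype I] [DecidableEq I]
    (hinj : Function.Injective fun i => LinearMap.ker (f i)) {x y : I → Bool}
    (hx : x ∈ Ch f) (hy : y ∈ Ch f) (hxy : x ≠ y) :
    ∃ j, x j ≠ y j ∧ Function.update y j (x j) ∈ Ch f := by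
  obtain ⟨p, hp⟩ := hx
  obtain ⟨q0, hq0⟩ := hy
  let S : Finset I := Finset.univ.filter fun i => x i ≠ y i
  have hS : ∀ i, i ∈ S ↔ x i ≠ y i := fun i => by simp [S]
  have hSne : S.Nonempty := by
    by_contra hcon
    apply hxy
    funext i
    by_contra h
    exact hcon ⟨i, (hS i).2 h⟩
  have hneg : ∀ i, x i ≠ y i → x i = !y i := by
    intro i h
    revert h
    cases x i <;> cases y i <;> simp
  have h1 : ∀ i ∈ S, gs f x i q0 < 0 := by
    intro i hi
    rw [gs_apply, hneg i ((hS i).1 hi), sg_not]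
    have := hq0 i
    linarith
  have h2 : ∀ i ∈ Finset.univ, i ∉ S → 0 < gs f x i q0 := by
    intro i _ hi
    have h3 : x i = y i := by
      by_contra h
      exact hi ((hS i).2 h)
    rw [gs_apply, h3]
    exact hq0 i
  have h3 : ∀ i ∈ Finset.univ, 0 < gs f x i p := fun i _ => hp i
  obtain ⟨q, _, hq1, hq2, hgen⟩ := exists_generic (g := gs f x) (W := ⊤) (K := Finset.univ)
    (Finset.subset_univ S) (p := p) (q := q0) trivial trivial h3 h1 h2 (by
      intro i _ j _ hij
      by_contra hcon
      push Not at hcon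
      apply hij
      apply hinj
      have hi := h3 i (Finset.mem_univ i)
      have hj := h3 j (Finset.mem_univ j)
      ext w
      have h4 := hcon w trivial
      show f i w = 0 ↔ f j w = 0
      rw [← gs_eq_zero f x, ← gs_eq_zero f x (i := j)]
      constructor
      · intro h5
        rw [h5, mul_zero] at h4
        exact (mul_eq_zero.1 h4).resolve_left hi.ne'
      · intro h5
        rw [h5, mul_zero] at h4
        exact (mul_eq_zero.1 h4.symm).resolve_left hj.ne')
  obtain ⟨j, hjS, qj, _, hj0, hj1, hj2⟩ := exists_last (g := gs f x) (W := ⊤)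
    (K := Finset.univ) (Finset.subset_univ S) hSne (p := p) (q := q) trivial trivial h3 hq1 hq2
    hgen
  refine ⟨j, (hS j).1 hjS, ?_⟩
  have e1 : ∀ᶠ ε in 𝓝[>] (0 : ℝ), ∀ i ∈ S.erase j, gs f x i qj + ε * gs f x i p < 0 :=
    (Filter.eventually_all_finset _).2 fun i hi => ev_neg _ (hj1 i hi)
  obtain ⟨ε, hε1, hε2⟩ := (e1.and ev_gt).exists
  refine ⟨qj + ε • p, fun i => ?_⟩
  have hlin : ∀ i, gs f x i (qj + ε • p) = gs f x i qj + ε * gs f x i p := fun i => by
    rw [map_add, map_smul, smul_eq_mul]
  by_cases hij : i = j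
  · subst hij
    rw [Function.update_self]
    have h5 : 0 < gs f x i (qj + ε • p) := by
      rw [hlin, hj0, zero_add]
      exact mul_pos hε2 (hp i)
    exact h5
  · rw [Function.update_of_ne hij]
    by_cases hi : i ∈ S
    · have h5 : gs f x i (qj + ε • p) < 0 := by
        rw [hlin]
        exact hε1 i (Finset.mem_erase.2 ⟨hij, hi⟩)
      rw [gs_apply, hneg i ((hS i).1 hi), sg_not] at h5
      linarith
    · have h5 : 0 < gs f x i (qj + ε • p) := by
        rw [hlin]
        have := hj2 i (Finset.mem_univ i) hi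
        have := mul_pos hε2 (hp i)
        have : 0 < gs f x i p := hp i
        have := mul_pos hε2 this
        linarith
      have h6 : x i = y i := by
        by_contra h
        exact hi ((hS i).2 h)
      rw [gs_apply, h6] at h5
      exact h5

theorem sum_dd_eq_zero [Fintype I] {x y : I → Bool} : ∑ i, dd x y i = 0 ↔ x = y := by
  rw [Finset.sum_eq_zero_iff]
  constructor
  · intro h
    funext i
    exact dd_eq_zero.1 (h i (Finset.mem_univ i))
  · rintro rfl i _
    exact dd_self x i

theorem sum_dd_update [Fintype I] [DecidableEq I] {x y : I → Bool} {j : I} (h : x j ≠ y j) :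
    ∑ i, dd x (Function.update y j (x j)) i + 1 = ∑ i, dd x y i ∧
      ∑ i, dd (Function.update y j (x j)) y i = 1 := by
  constructor
  · rw [← Finset.add_sum_erase _ _ (Finset.mem_univ j), ← Finset.add_sum_erase _ (fun i => dd x y i)
      (Finset.mem_univ j)]
    have h1 : dd x (Function.update y j (x j)) j = 0 := by
      rw [dd_eq_zero, Function.update_self]
    have h2 : dd x y j = 1 := if_neg h
    have h3 : ∑ i ∈ Finset.univ.erase j, dd x (Function.update y j (x j)) i =
        ∑ i ∈ Finset.univ.erase j, dd x y i := by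
      refine Finset.sum_congr rfl fun i hi => ?_
      unfold dd
      rw [Function.update_of_ne (Finset.ne_of_mem_erase hi)]
    rw [h1, h3]
    show 0 + _ + 1 = dd x y j + _
    rw [h2]
    omega
  · rw [← Finset.add_sum_erase _ _ (Finset.mem_univ j), Finset.sum_eq_zero, add_zero]
    · show dd (Function.update y j (x j)) y j = 1
      unfold dd
      rw [Function.update_self, if_neg h]
    · intro i hi
      rw [dd_eq_zero, Function.update_of_ne (Finset.ne_of_mem_erase hi)]

theorem dist_eq [Fintype I] {R : Type} {G : SimpleGraph R} {s : R → (I → Bool)}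
    (hinj : Function.Injective fun i => LinearMap.ker (f i))
    (hs : Function.Injective s) (hr : ∀ a, a ∈ Ch f ↔ ∃ r, s r = a)
    (hadj : ∀ a b, G.Adj a b ↔ ∑ i, dd (s a) (s b) i = 1) (a b : R) :
    G.dist a b = ∑ i, dd (s a) (s b) i := by
  classical
  have hwalk : ∀ (n : ℕ) (a b : R), ∑ i, dd (s a) (s b) i = n → ∃ p : G.Walk a b, p.length = n := by
    intro n
    induction n with
    | zero =>
      intro a b h
      have : a = b := hs (sum_dd_eq_zero.1 h)
      subst this
      exact ⟨SimpleGraph.Walk.nil, rfl⟩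
    | succ n ih =>
      intro a b h
      have hne : s a ≠ s b := by
        intro h'
        rw [sum_dd_eq_zero.2 h'] at h
        omega
      obtain ⟨j, hj1, hj2⟩ := gate_exists hinj ((hr _).2 ⟨a, rfl⟩) ((hr _).2 ⟨b, rfl⟩) hne
      obtain ⟨c, hc⟩ := (hr _).1 hj2
      obtain ⟨h1, h2⟩ := sum_dd_update hj1
      rw [← hc] at h1 h2
      obtain ⟨p, hp⟩ := ih a c (by omega)
      exact ⟨p.concat ((hadj c b).2 h2), by rw [SimpleGraph.Walk.length_concat, hp]⟩
  have hlow : ∀ {a b : R} (p : G.Walk a b), ∑ i, dd (s a) (s b) i ≤ p.length := by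
    intro a b p
    induction p with
    | nil => rw [sum_dd_eq_zero.2 rfl]; exact Nat.zero_le _
    | @cons u v w h q ih =>
      rw [SimpleGraph.Walk.length_cons]
      have h1 := (hadj _ _).1 h
      have h2 : ∑ i, dd (s u) (s w) i ≤ ∑ i, dd (s u) (s v) i + ∑ i, dd (s v) (s w) i := by
        rw [← Finset.sum_add_distrib]
        exact Finset.sum_le_sum fun i _ => dd_tri _ _ _ i
      omega
  obtain ⟨p, hp⟩ := hwalk _ a b rfl
  apply le_antisymm
  · rw [← hp]
    exact SimpleGraph.dist_le p
  · obtain ⟨q, hq⟩ := p.reachable.exists_walk_length_eq_dist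
    rw [← hq]
    exact hlow q

open N431.Hyp

theorem tope_facts {d : ℕ} {A : Finset (Submodule ℝ (Fin d → ℝ))}
    (hA : ∀ H ∈ A, IsHyperplane H) : ∃ fn : A → (Fin d → ℝ) →ₗ[ℝ] ℝ,
      (∀ H : A, LinearMap.ker (fn H) = H.1) ∧ (∀ H, fn H ≠ 0) ∧
      (∀ a, a ∈ Ch fn ↔ ∃ R, sv fn R = a) ∧ Function.Injective (sv (A := A) fn) ∧
      ∀ a b, (topeGraph A).dist a b = ∑ i, dd (sv fn a) (sv fn b) i := by
  classical
  have h1 : ∀ H : A, ∃ g : (Fin d → ℝ) →ₗ[ℝ] ℝ, g ≠ 0 ∧ LinearMap.ker g = H.1 := fun H =>
    hA H.1 H.2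
  choose fn hfn0 hfn using h1
  have hinj : Function.Injective fun i => LinearMap.ker (fn i) := by
    intro i j hij
    simp only [hfn] at hij
    exact Subtype.ext hij
  have hsinj : Function.Injective (sv (A := A) fn) := fun R R' h => sv_inj fn hfn h
  have hr : ∀ a, a ∈ Ch fn ↔ ∃ R, sv fn R = a := by
    intro a
    constructor
    · rintro ⟨v, hv⟩
      have hvA : v ∈ arrCompl A := by
        intro H hH hvH
        have h2 := hv ⟨H, hH⟩
        have h3 : v ∈ LinearMap.ker (fn ⟨H, hH⟩) := by rw [hfn]; exact hvH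
        rw [LinearMap.mem_ker.1 h3, mul_zero] at h2
        exact lt_irrefl _ h2
      let R : {R : Set (Fin d → ℝ) // IsRegion A R} :=
        ⟨connectedComponentIn (arrCompl A) v, v, hvA, rfl⟩
      have hvR : v ∈ R.1 := mem_connectedComponentIn hvA
      refine ⟨R, funext fun H => ?_⟩
      have h2 := hv H
      cases h3 : a H
      · rw [h3, sg_false] at h2
        rw [sv_false fn hfn R hvR H]
        linarith
      · rw [h3, sg_true] at h2
        rw [sv_true fn hfn R hvR H]
        linarith
    · rintro ⟨R, rfl⟩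
      refine ⟨pt R, fun H => ?_⟩
      cases h3 : sv fn R H
      · rw [sv_false fn hfn R (pt_mem' R) H] at h3
        rw [sg_false]
        linarith
      · rw [sv_true fn hfn R (pt_mem' R) H] at h3
        rw [sg_true]
        linarith
  refine ⟨fn, hfn, hfn0, hr, hsinj, ?_⟩
  apply dist_eq hinj hsinj hr
  intro a b
  rw [tope_adj_iff fn hfn, hammingDist, Finset.card_filter]
  have h4 : ∀ i, (if sv fn a i ≠ sv fn b i then 1 else 0) = dd (sv fn a) (sv fn b) i := by
    intro i
    unfold dd
    by_cases h : sv fn a i = sv fn b i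
    · rw [if_pos h, if_neg (by simpa using h)]
    · rw [if_neg h, if_pos h]
  rw [Finset.sum_congr rfl fun i _ => h4 i]

end Pool.Agent.K6.H51.MHA
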