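import Pool.Agent.K6.H51.MHA.Vis2

set_option autoImplicit false

/-! The Euler relation for the cells of an arrangement in a subspace. -/

namespace Pool.Agent.K6.H51.MHA

open Finsupp Filter Topology

universe u v

variable {V : Type u} [AddCommGroup V] [Module ℝ V] {I : Type v} [Fintype I]
  (f : I → V →ₗ[ℝ] ℝ)

open Classical in
/-- the sign vector of a point with respect to `J` -/
noncomputable def svv (J : Finset I) (v : V) (i : I) : SignType :=
  if i ∈ J then SignType.sign (f i v) else 0

open Classical in
/-- the sign vectors of the points of a subspace -/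
noncomputable def ES (J : Finset I) (W : Submodule ℝ V) : Finset (I → SignType) :=
  Finset.univ.filter fun σ => ∃ v ∈ W, svv f J v = σ

/-- the subspace of the cell of `σ` -/
def WS (J : Finset I) (W : Submodule ℝ V) (σ : I → SignType) : Submodule ℝ V where
  carrier := {v | v ∈ W ∧ ∀ i ∈ J, σ i = 0 → f i v = 0}
  zero_mem' := ⟨W.zero_mem, fun i _ _ => map_zero _⟩
  add_mem' := fun ha hb => ⟨W.add_mem ha.1 hb.1, fun i hi h => by
    rw [map_add, ha.2 i hi h, hb.2 i hi h, add_zero]⟩
  smul_mem' := fun c _ ha => ⟨W.smul_mem c ha.1, fun i hi h => by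
    rw [map_smul, ha.2 i hi h, smul_zero]⟩

variable {f}

theorem mem_WS {J : Finset I} {W : Submodule ℝ V} {σ : I → SignType} {v : V} :
    v ∈ WS f J W σ ↔ v ∈ W ∧ ∀ i ∈ J, σ i = 0 → f i v = 0 := Iff.rfl

theorem mem_ES {J : Finset I} {W : Submodule ℝ V} {σ : I → SignType} :
    σ ∈ ES f J W ↔ ∃ v ∈ W, svv f J v = σ := by
  classical
  simp [ES]

theorem sign_comb {x y a b : ℝ} {s : SignType} (hx : SignType.sign x = s)
    (hy : SignType.sign y = s) (ha : 0 < a) (hb : 0 < b) : SignType.sign (a * x + b * y) = s := by
  rcases s with _ | _ | _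
  · have h1 : x = 0 := sign_eq_zero_iff.1 hx
    have h2 : y = 0 := sign_eq_zero_iff.1 hy
    rw [h1, h2, mul_zero, mul_zero, add_zero, sign_zero]
    rfl
  · have h1 : x < 0 := sign_eq_neg_one_iff.1 hx
    have h2 : y < 0 := sign_eq_neg_one_iff.1 hy
    exact sign_eq_neg_one_iff.2 (by nlinarith [mul_neg_of_pos_of_neg ha h1, mul_neg_of_pos_of_neg hb h2])
  · have h1 : 0 < x := sign_eq_one_iff.1 hx
    have h2 : 0 < y := sign_eq_one_iff.1 hy
    exact sign_eq_one_iff.2 (by nlinarith [mul_pos ha h1, mul_pos hb h2])

theorem ev_sign {a b : ℝ} (h : a = 0 → b = 0) :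
    ∀ᶠ ε in 𝓝[>] (0 : ℝ), SignType.sign (a + ε * b) = SignType.sign a := by
  rcases lt_trichotomy a 0 with h1 | h1 | h1
  · filter_upwards [ev_neg b h1] with ε hε
    rw [sign_eq_neg_one_iff.2 hε, sign_eq_neg_one_iff.2 h1]
  · refine Filter.Eventually.of_forall fun ε => ?_
    rw [h1, h h1, mul_zero, add_zero]
  · filter_upwards [ev_pos b h1] with ε hε
    rw [sign_eq_one_iff.2 hε, sign_eq_one_iff.2 h1]

theorem svv_insert [DecidableEq I] {J : Finset I} {j : I} (hj : j ∉ J) (v : V) :
    svv f (insert j J) v = Function.update (svv f J v) j (SignType.sign (f j v)) := by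
  funext i
  by_cases hij : i = j
  · subst hij
    rw [Function.update_self]
    exact if_pos (Finset.mem_insert_self i J)
  · rw [Function.update_of_ne hij]
    unfold svv
    by_cases hi : i ∈ J
    · rw [if_pos hi, if_pos (Finset.mem_insert_of_mem hi)]
    · rw [if_neg hi, if_neg fun h => (Finset.mem_insert.1 h).elim hij hi]

theorem svv_notMem {J : Finset I} {j : I} (hj : j ∉ J) (v : V) : svv f J v j = 0 := if_neg hj

theorem euler [FiniteDimensional ℝ V] (W : Submodule ℝ V) (J : Finset I) :
    ∑ σ ∈ ES f J W, (-1 : ℤ) ^ Module.finrank ℝ ↥(WS f J W σ) = (-1) ^ Module.finrank ℝ W := by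
  classical
  induction J using Finset.induction_on with
  | empty =>
    have h1 : ES f ∅ W = {fun _ => 0} := by
      ext σ
      rw [mem_ES, Finset.mem_singleton]
      constructor
      · rintro ⟨v, _, rfl⟩
        funext i
        exact svv_notMem (Finset.notMem_empty i) v
      · rintro rfl
        exact ⟨0, W.zero_mem, funext fun i => svv_notMem (Finset.notMem_empty i) _⟩
    have h2 : WS f ∅ W (fun _ => 0) = W := by
      ext v
      rw [mem_WS]
      exact ⟨fun h => h.1, fun h => ⟨h, fun i hi => absurd hi (Finset.notMem_empty i)⟩⟩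
    rw [h1, Finset.sum_singleton, h2]
  | insert j J hj ih =>
    rw [← ih]
    have hmaps : ∀ τ ∈ ES f (insert j J) W, Function.update τ j 0 ∈ ES f J W := by
      intro τ hτ
      obtain ⟨v, hv, rfl⟩ := mem_ES.1 hτ
      refine mem_ES.2 ⟨v, hv, ?_⟩
      rw [svv_insert hj, Function.update_idem]
      conv_lhs => rw [← Function.update_eq_self j (svv f J v)]
      rw [svv_notMem hj]
    rw [← Finset.sum_fiberwise_of_maps_to hmaps]
    refine Finset.sum_congr rfl fun σ hσ => ?_
    obtain ⟨v0, hv0, hσ0⟩ := mem_ES.1 hσ
    have hσj : σ j = 0 := by rw [← hσ0]; exact svv_notMem hj v0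
    -- the possible signs of the new functional
    let T : Finset SignType := Finset.univ.filter fun t => ∃ v ∈ W, svv f J v = σ ∧
      SignType.sign (f j v) = t
    have hT : ∀ t, t ∈ T ↔ ∃ v ∈ W, svv f J v = σ ∧ SignType.sign (f j v) = t := fun t => by
      simp [T]
    have hfib : (ES f (insert j J) W).filter (fun τ => Function.update τ j 0 = σ) =
        T.image fun t => Function.update σ j t := by
      ext τ
      rw [Finset.mem_filter, Finset.mem_image]
      constructor
      · rintro ⟨h1, h2⟩
        obtain ⟨v, hv, rfl⟩ := mem_ES.1 h1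
        have h3 : svv f J v = σ := by
          rw [← h2, svv_insert hj, Function.update_idem]
          conv_lhs => rw [← Function.update_eq_self j (svv f J v)]
          rw [svv_notMem hj]
        refine ⟨SignType.sign (f j v), (hT _).2 ⟨v, hv, h3, rfl⟩, ?_⟩
        rw [svv_insert hj, h3]
      · rintro ⟨t, ht, rfl⟩
        obtain ⟨v, hv, h3, rfl⟩ := (hT t).1 ht
        refine ⟨mem_ES.2 ⟨v, hv, ?_⟩, ?_⟩
        · rw [svv_insert hj, h3]
        · rw [Function.update_idem, ← hσj, Function.update_eq_self]
    rw [hfib, Finset.sum_image (by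
      intro a _ b _ hab
      have := congrFun hab j
      simpa using this)]
    -- the subspaces
    have hW0 : WS f (insert j J) W (Function.update σ j 0) = WS f J W σ ⊓ LinearMap.ker (f j) := by
      ext v
      rw [Submodule.mem_inf, mem_WS, mem_WS, LinearMap.mem_ker]
      constructor
      · rintro ⟨h1, h2⟩
        refine ⟨⟨h1, fun i hi h => h2 i (Finset.mem_insert_of_mem hi) ?_⟩,
          h2 j (Finset.mem_insert_self j J) (Function.update_self _ _ _)⟩
        rw [Function.update_of_ne (show i ≠ j from fun h' => hj (h' ▸ hi)), h]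
      · rintro ⟨⟨h1, h2⟩, h3⟩
        refine ⟨h1, fun i hi h => ?_⟩
        rcases Finset.mem_insert.1 hi with rfl | hi
        · exact h3
        · apply h2 i hi
          rwa [Function.update_of_ne (show i ≠ j from fun h' => hj (h' ▸ hi))] at h
    have hW1 : ∀ t, t ≠ 0 → WS f (insert j J) W (Function.update σ j t) = WS f J W σ := by
      intro t ht
      ext v
      rw [mem_WS, mem_WS]
      constructor
      · rintro ⟨h1, h2⟩
        refine ⟨h1, fun i hi h => h2 i (Finset.mem_insert_of_mem hi) ?_⟩
        rw [Function.update_of_ne (show i ≠ j from fun h' => hj (h' ▸ hi)), h]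
      · rintro ⟨h1, h2⟩
        refine ⟨h1, fun i hi h => ?_⟩
        rcases Finset.mem_insert.1 hi with rfl | hi
        · rw [Function.update_self] at h
          exact absurd h ht
        · apply h2 i hi
          rwa [Function.update_of_ne (show i ≠ j from fun h' => hj (h' ▸ hi))] at h
    have hmem : ∀ v ∈ W, svv f J v = σ → v ∈ WS f J W σ := by
      intro v hv h
      refine mem_WS.2 ⟨hv, fun i hi hi0 => ?_⟩
      rw [← h] at hi0
      have h1 : SignType.sign (f i v) = 0 := by
        rw [← hi0]
        exact (if_pos hi).symm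
      exact sign_eq_zero_iff.1 h1
    by_cases hcase : ∀ u ∈ WS f J W σ, f j u = 0
    · have hT0 : T = {0} := by
        ext t
        rw [hT, Finset.mem_singleton]
        constructor
        · rintro ⟨v, hv, h1, rfl⟩
          rw [hcase v (hmem v hv h1), sign_zero]
        · rintro rfl
          exact ⟨v0, hv0, hσ0, by rw [hcase v0 (hmem v0 hv0 hσ0), sign_zero]⟩
      rw [hT0, Finset.sum_singleton, hW0]
      have : WS f J W σ ⊓ LinearMap.ker (f j) = WS f J W σ :=
        inf_eq_left.2 fun u hu => LinearMap.mem_ker.2 (hcase u hu)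
      rw [this]
    · push Not at hcase
      obtain ⟨u, hu, hu'⟩ := hcase
      have hdim := finrank_inf_ker hu hu'
      have hpert : ∀ v ∈ W, svv f J v = σ → f j v = 0 → ∀ c : ℝ, c ≠ 0 →
          ∃ v' ∈ W, svv f J v' = σ ∧ SignType.sign (f j v') = SignType.sign (c * f j u) := by
        intro v hv h1 h2 c hc
        have e1 : ∀ᶠ ε in 𝓝[>] (0 : ℝ), ∀ i ∈ J,
            SignType.sign (f i v + ε * (c * f i u)) = SignType.sign (f i v) := by
          rw [Filter.eventually_all_finset]
          intro i hi
          apply ev_sign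
          intro h3
          have h4 : σ i = 0 := by
            rw [← h1]
            unfold svv
            rw [if_pos hi, h3, sign_zero]
          rw [(mem_WS.1 hu).2 i hi h4, mul_zero]
        obtain ⟨ε, hε1, hε2⟩ := (e1.and ev_gt).exists
        refine ⟨v + ε • c • u, W.add_mem hv (W.smul_mem _ (W.smul_mem _ (mem_WS.1 hu).1)), ?_, ?_⟩
        · rw [← h1]
          funext i
          by_cases hi : i ∈ J
          · unfold svv
            rw [if_pos hi, if_pos hi, ← hε1 i hi, map_add, map_smul, map_smul, smul_eq_mul,
              smul_eq_mul]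
          · rw [svv_notMem hi, svv_notMem hi]
        · rw [LinearMap.map_add, h2, zero_add, LinearMap.map_smul, LinearMap.map_smul,
            smul_eq_mul, smul_eq_mul, sign_mul, sign_eq_one_iff.2 hε2, one_mul]
      have c1 : (0 : SignType) ∈ T → (1 : SignType) ∈ T ∧ (-1 : SignType) ∈ T := by
        intro h0
        obtain ⟨v, hv, h1, h2⟩ := (hT 0).1 h0
        have h2' : f j v = 0 := sign_eq_zero_iff.1 h2
        constructor
        · obtain ⟨v', hv', h3, h4⟩ := hpert v hv h1 h2' (f j u) hu'
          refine (hT 1).2 ⟨v', hv', h3, ?_⟩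
          rw [h4, sign_eq_one_iff]
          exact mul_self_pos.2 hu'
        · obtain ⟨v', hv', h3, h4⟩ := hpert v hv h1 h2' (-f j u) (neg_ne_zero.2 hu')
          refine (hT (-1)).2 ⟨v', hv', h3, ?_⟩
          rw [h4, sign_eq_neg_one_iff]
          have := mul_self_pos.2 hu'
          linarith
      have c2 : (1 : SignType) ∈ T → (-1 : SignType) ∈ T → (0 : SignType) ∈ T := by
        intro h1 h2
        obtain ⟨v1, hv1, h3, h4⟩ := (hT 1).1 h1
        obtain ⟨v2, hv2, h5, h6⟩ := (hT (-1)).1 h2
        have h4' : 0 < f j v1 := sign_eq_one_iff.1 h4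
        have h6' : f j v2 < 0 := sign_eq_neg_one_iff.1 h6
        refine (hT 0).2 ⟨(-f j v2) • v1 + (f j v1) • v2,
          W.add_mem (W.smul_mem _ hv1) (W.smul_mem _ hv2), ?_, ?_⟩
        · funext i
          by_cases hi : i ∈ J
          · have h7 := congrFun h3 i
            have h8 := congrFun h5 i
            unfold svv at h7 h8 ⊢
            rw [if_pos hi] at h7 h8 ⊢
            rw [map_add, map_smul, map_smul, smul_eq_mul, smul_eq_mul]
            exact sign_comb h7 h8 (by linarith) h4'
          · rw [svv_notMem hi, ← h3, svv_notMem hi]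
        · rw [map_add, map_smul, map_smul, smul_eq_mul, smul_eq_mul, sign_eq_zero_iff]
          ring
      have hTs : SignType.sign (f j v0) ∈ T := (hT _).2 ⟨v0, hv0, hσ0, rfl⟩
      have hsum : ∑ t ∈ T, (-1 : ℤ) ^ Module.finrank ℝ
          ↥(WS f (insert j J) W (Function.update σ j t)) =
          (if (0 : SignType) ∈ T then (-1 : ℤ) ^ Module.finrank ℝ
            ↥(WS f J W σ ⊓ LinearMap.ker (f j)) else 0) +
          (if (-1 : SignType) ∈ T then (-1 : ℤ) ^ Module.finrank ℝ ↥(WS f J W σ) else 0) +
          (if (1 : SignType) ∈ T then (-1 : ℤ) ^ Module.finrank ℝ ↥(WS f J W σ) else 0) := by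
        rw [← Finset.sum_filter_add_sum_filter_not T (fun t => t = 0)]
        have e0 : ∑ t ∈ T with t = 0, (-1 : ℤ) ^ Module.finrank ℝ
            ↥(WS f (insert j J) W (Function.update σ j t)) =
            (if (0 : SignType) ∈ T then (-1 : ℤ) ^ Module.finrank ℝ
            ↥(WS f J W σ ⊓ LinearMap.ker (f j)) else 0) := by
          by_cases h : (0 : SignType) ∈ T
          · rw [if_pos h, Finset.filter_eq', if_pos h, Finset.sum_singleton, hW0]
          · rw [if_neg h, Finset.filter_eq', if_neg h, Finset.sum_empty]
        rw [e0, add_assoc]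
        congr 1
        rw [← Finset.sum_filter_add_sum_filter_not (T.filter fun t => ¬ t = 0) (fun t => t = -1)]
        congr 1
        · by_cases h : (-1 : SignType) ∈ T
          · rw [if_pos h, Finset.filter_eq', if_pos (Finset.mem_filter.2 ⟨h, by decide⟩),
              Finset.sum_singleton, hW1 _ (by decide)]
          · rw [if_neg h, Finset.filter_eq', if_neg (fun h' => h (Finset.mem_filter.1 h').1),
              Finset.sum_empty]
        · have hf1 : (T.filter fun t => ¬ t = 0).filter (fun t => ¬ t = -1) =
              T.filter fun t => t = 1 := by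
            rw [Finset.filter_filter]
            have h3 : ∀ t : SignType, (¬ t = 0 ∧ ¬ t = -1) ↔ t = 1 := by decide
            exact Finset.filter_congr fun t _ => h3 t
          rw [hf1]
          by_cases h : (1 : SignType) ∈ T
          · rw [if_pos h, Finset.filter_eq', if_pos h,
              Finset.sum_singleton, hW1 _ (by decide)]
          · rw [if_neg h, Finset.filter_eq', if_neg h, Finset.sum_empty]
      rw [hsum]
      by_cases h0 : (0 : SignType) ∈ T
      · obtain ⟨h1, h2⟩ := c1 h0
        rw [if_pos h0, if_pos h1, if_pos h2, ← hdim, pow_succ]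
        ring
      · rw [if_neg h0]
        by_cases h1 : (1 : SignType) ∈ T
        · have h2 : (-1 : SignType) ∉ T := fun h => h0 (c2 h1 h)
          rw [if_pos h1, if_neg h2]
          ring
        · have h2 : (-1 : SignType) ∈ T := by
            have h3 : SignType.sign (f j v0) = -1 := by
              rcases h4 : SignType.sign (f j v0) with _ | _ | _
              · rw [h4] at hTs; exact absurd hTs h0
              · rfl
              · rw [h4] at hTs; exact absurd hTs h1
            rw [← h3]
            exact hTs
          rw [if_neg h1, if_pos h2]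
          ring

end Pool.Agent.K6.H51.MHA
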