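import Pool.Agent.K6.H51.MHA.Iso

set_option autoImplicit false

/-! The homology of the complex of all generators of a given length. -/

namespace Pool.Agent.K6.H51.MHA

open Finsupp Filter Topology

universe u v w

/-- a product of groups which are infinite cyclic or trivial -/
theorem pi_equiv {T : Type v} (G : T → Type w) [∀ t, AddCommGroup (G t)] (P : T → Prop)
    (h1 : ∀ t, P t → Nonempty (G t ≃+ ℤ)) (h2 : ∀ t, ¬ P t → Subsingleton (G t)) :
    Nonempty ((∀ t, G t) ≃+ ({t // P t} → ℤ)) := by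
  classical
  have h3 : ∀ t : {t // P t}, Nonempty (G t.1 ≃+ ℤ) := fun t => h1 t.1 t.2
  let e := fun t => (h3 t).some
  refine ⟨AddEquiv.mk' ⟨fun z t => e t (z t.1), fun w t => if h : P t then (e ⟨t, h⟩).symm (w ⟨t, h⟩)
    else 0, ?_, ?_⟩ ?_⟩
  · intro z
    funext t
    by_cases h : P t
    · simp [h]
    · have := h2 t h
      exact Subsingleton.elim _ _
  · intro w
    funext t
    simp [t.2]
  · intro a b
    funext t
    exact map_add (e t) _ _

variable {V : Type u} [AddCommGroup V] [Module ℝ V] {I : Type v} [Fintype I]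
  (f : I → V →ₗ[ℝ] ℝ)

/-- the generators of length `l` -/
def SL (l : ℕ) : Set (List (I → Bool)) :=
  {L | L ≠ [] ∧ (∀ a ∈ L, a ∈ Ch f) ∧ L.IsChain (· ≠ ·) ∧ ∑ i, cr L i = l}

variable {f}

theorem SL_MC {l : ℕ} {L : List (I → Bool)} (h : L ∈ SL f l) :
    L ∈ MC f (L.head?.getD default) (cr L) := by
  obtain ⟨h1, h2, h3, h4⟩ := h
  refine ⟨?_, h2, h3, rfl⟩
  cases L with
  | nil => exact absurd rfl h1
  | cons a L => rfl

theorem HG_full [FiniteDimensional ℝ V] (k l : ℕ) :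
    Nonempty ((LB (I → Bool)).HG (SL f l) ((k + 1 : ℕ) : ℤ) ≃+
      (Fin (NN f Finset.univ (k + 1) l) → ℤ)) := by
  classical
  let T := (I → Bool) × (I → Fin (l + 1))
  let κ : List (I → Bool) → T := fun L => (L.head?.getD default,
    fun i => ⟨min (cr L i) l, by omega⟩)
  have hle : ∀ L ∈ SL f l, ∀ i, cr L i ≤ l := by
    intro L hL i
    rw [← hL.2.2.2]
    exact Finset.single_le_sum (f := cr L) (fun _ _ => Nat.zero_le _) (Finset.mem_univ i)
  have hκ : ∀ x ∈ SL f l, ∀ y ∈ SL f l, (LB (I → Bool)).Lt y x → κ y = κ x := by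
    intro x hx y hy hlt
    obtain ⟨P, a, Q, rfl, rfl⟩ := LB_lt hlt
    have hcr : cr (P ++ Q) = cr (P ++ a :: Q) := by
      have h1 := hx.2.2.2
      rw [← hy.2.2.2] at h1
      have h2 : ∀ i ∈ Finset.univ, cr (P ++ Q) i ≤ cr (P ++ a :: Q) i :=
        fun i _ => cr_erase_le P a Q i
      funext i
      exact (Finset.sum_eq_sum_iff_of_le h2).1 h1.symm i (Finset.mem_univ i)
    obtain ⟨_, _, _, _, _, _, _, _, h⟩ := MC_erase (SL_MC hx) hy.1 hcr
    refine Prod.ext ?_ (funext fun i => Fin.ext ?_)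
    · show (P ++ Q).head?.getD default = _
      rw [h.1]
      rfl
    · show min (cr (P ++ Q) i) l = min (cr (P ++ a :: Q) i) l
      rw [hcr]
  obtain ⟨e1⟩ := BCx.HG_pi (C := LB (I → Bool)) (S := SL f l) κ hκ ((k + 1 : ℕ) : ℤ)
  have hfib : ∀ t : T, (t.1 ∈ Ch f ∧ ∑ i, (t.2 i : ℕ) = l) →
      BCx.fib (SL f l) κ t = MC f t.1 fun i => (t.2 i : ℕ) := by
    rintro ⟨x, m⟩ ⟨hx, hm⟩
    ext L
    constructor
    · rintro ⟨h1, h2⟩
      have h3 := SL_MC h1
      have h4 : L.head?.getD default = x := (Prod.ext_iff.1 h2).1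
      rw [h4] at h3
      have h5 : cr L = fun i => (m i : ℕ) := by
        funext i
        have h6 : κ L = (x, m) := h2
        have h7 := congrFun (Prod.ext_iff.1 h6).2 i
        have h8 := congrArg Fin.val h7
        have h9 : min (cr L i) l = (m i : ℕ) := h8
        rw [← h9]
        exact (min_eq_left (hle L h1 i)).symm
      exact ⟨h3.1, h3.2.1, h3.2.2.1, h5⟩
    · intro h
      have h1 : L ∈ SL f l := by
        refine ⟨?_, h.2.1, h.2.2.1, ?_⟩
        · rintro rfl
          have := h.1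
          simp at this
        · rw [h.2.2.2]
          exact hm
      refine ⟨h1, Prod.ext ?_ (funext fun i => Fin.ext ?_)⟩
      · show L.head?.getD default = x
        rw [h.1]
        rfl
      · show min (cr L i) l = (m i : ℕ)
        rw [min_eq_left (hle L h1 i), h.2.2.2]
  have hfib' : ∀ t : T, ¬ (t.1 ∈ Ch f ∧ ∑ i, (t.2 i : ℕ) = l) →
      BCx.fib (SL f l) κ t = ∅ := by
    rintro ⟨x, m⟩ hxm
    rw [Set.eq_empty_iff_forall_notMem]
    rintro L ⟨h1, h2⟩
    apply hxm
    have h3 := SL_MC h1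
    have h4 : L.head?.getD default = x := (Prod.ext_iff.1 h2).1
    rw [h4] at h3
    have h5 : ∀ i, cr L i = (m i : ℕ) := by
      intro i
      have h6 : κ L = (x, m) := h2
      have h7 := congrFun (Prod.ext_iff.1 h6).2 i
      have h8 := congrArg Fin.val h7
      have h9 : min (cr L i) l = (m i : ℕ) := h8
      rw [← h9]
      exact (min_eq_left (hle L h1 i)).symm
    constructor
    · show x ∈ Ch f
      have h6 := h3.1
      cases L with
      | nil => simp at h6
      | cons a L =>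
        have ha : a = x := by simpa using h6
        rw [← ha]
        exact h1.2.1 a List.mem_cons_self
    · show ∑ i, (m i : ℕ) = l
      refine Eq.trans ?_ h1.2.2.2
      exact Finset.sum_congr rfl fun i _ => (h5 i).symm
  let P : T → Prop := fun t => (t.1 ∈ Ch f ∧ ∑ i, (t.2 i : ℕ) = l) ∧
    Good f Finset.univ t.1 (fun i => (t.2 i : ℕ)) (k + 1)
  obtain ⟨e2⟩ := pi_equiv (fun t => (LB (I → Bool)).HG (BCx.fib (SL f l) κ t)
    ((k + 1 : ℕ) : ℤ)) P (by
      rintro t ⟨h1, h2⟩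
      rw [hfib t h1]
      exact (HG_good l t.1 _ h1.1 h1.2 (k + 1)).1 h2) (by
      intro t ht
      by_cases h1 : t.1 ∈ Ch f ∧ ∑ i, (t.2 i : ℕ) = l
      · rw [hfib t h1]
        exact (HG_good l t.1 _ h1.1 h1.2 (k + 1)).2 fun h2 => ht ⟨h1, h2⟩
      · rw [hfib' t h1]
        exact BCx.subsingleton_of_acy BCx.acy_empty _)
  have hcard : Nat.card {t // P t} = NN f Finset.univ (k + 1) l := by
    rw [NN, ← Nat.card_coe_set_eq]
    apply Nat.card_congr
    refine ⟨fun t => ⟨(t.1.1, fun i => (t.1.2 i : ℕ)), ?_⟩, fun p => ⟨(p.1.1,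
      fun i => ⟨p.1.2 i, ?_⟩), ?_⟩, ?_, ?_⟩
    · obtain ⟨⟨⟨v, hv⟩, h2⟩, h3⟩ := t.2
      exact ⟨fun i hi => absurd (Finset.mem_univ i) hi, ⟨v, fun i _ => hv i⟩,
        fun i hi => absurd (Finset.mem_univ i) hi, h2, h3⟩
    · obtain ⟨_, _, _, h4, _⟩ := p.2
      have : p.1.2 i ≤ l :=
        (Finset.single_le_sum (f := p.1.2) (fun _ _ => Nat.zero_le _) (Finset.mem_univ i)).trans
          h4.le
      omega
    · obtain ⟨_, ⟨v, hv⟩, _, h4, h5⟩ := p.2
      exact ⟨⟨⟨v, fun i => hv i (Finset.mem_univ i)⟩, h4⟩, h5⟩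
    · intro t
      rfl
    · intro p
      rfl
  have e3 : {t // P t} ≃ Fin (NN f Finset.univ (k + 1) l) := by
    rw [← hcard]
    exact Finite.equivFin _
  exact ⟨e1.trans (e2.trans (AddEquiv.arrowCongr e3 (AddEquiv.refl ℤ)))⟩

end Pool.Agent.K6.H51.MHA
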