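import Pool.Agent.K6.H51.MHA.Main3

set_option autoImplicit false

/-! The homology of the generators with given crossing numbers. -/

namespace Pool.Agent.K6.H51.MHA

open Finsupp Filter Topology

universe u v

variable {V : Type u} [AddCommGroup V] [Module ℝ V] {I : Type v} [Fintype I]
  (f : I → V →ₗ[ℝ] ℝ)

/-- the codimension of an intersection -/
noncomputable def cod (S : Finset I) : ℕ :=
  Module.finrank ℝ V - Module.finrank ℝ ↥(⨅ i ∈ S, LinearMap.ker (f i))

/-- the support -/
def spp (n : I → ℕ) : Finset I := Finset.univ.filter fun i => n i ≠ 0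

theorem mem_spp {n : I → ℕ} {i : I} : i ∈ spp n ↔ n i ≠ 0 := by
  simp [spp]

/-- the pairs of a chamber of `J` and crossing numbers with nonzero homology in the degree `k` -/
inductive Good (J : Finset I) : (I → Bool) → (I → ℕ) → ℕ → Prop
  | zero (x : I → Bool) (n : I → ℕ) (hn : ∀ i, n i = 0) : Good J x n 1
  | step (x : I → Bool) (n : I → ℕ) (k m : ℕ) (hn : (spp n).Nonempty)
    (hw : ∃ w : V, (∀ i ∈ spp n, f i w = 0) ∧ ∀ i ∈ J, i ∉ spp n → 0 < gs f x i w)
    (hm : m = k + cod f (spp n))
    (h : Good J (fl (spp n) x) (fun i => n i - 1) k) : Good J x n m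

variable {f}

theorem good_zero {J : Finset I} {x : I → Bool} {n : I → ℕ} {k : ℕ} (hn : ∀ i, n i = 0) :
    Good f J x n k ↔ k = 1 := by
  constructor
  · intro h
    rcases h with ⟨_, _, _⟩ | ⟨_, _, k, _, hn', _, _, _⟩
    · rfl
    · obtain ⟨i, hi⟩ := hn'
      exact absurd (hn i) (mem_spp.1 hi)
  · rintro rfl
    exact Good.zero x n hn

theorem good_step {J : Finset I} {x : I → Bool} {n : I → ℕ} {m : ℕ} (hn : (spp n).Nonempty) :
    Good f J x n m ↔ (∃ w : V, (∀ i ∈ spp n, f i w = 0) ∧ ∀ i ∈ J, i ∉ spp n → 0 < gs f x i w) ∧
      ∃ k, m = k + cod f (spp n) ∧ Good f J (fl (spp n) x) (fun i => n i - 1) k := by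
  constructor
  · intro h
    rcases h with ⟨_, _, hn'⟩ | ⟨_, _, k, _, _, hw, hm, h⟩
    · obtain ⟨i, hi⟩ := hn
      exact absurd (hn' i) (mem_spp.1 hi)
    · exact ⟨hw, k, hm, h⟩
  · rintro ⟨hw, k, hm, h⟩
    exact Good.step x n k m hn hw hm h

theorem HG_neg {X : Type v} {C : BCx X} {S : Set X} {k : ℤ} (hk : ∀ x ∈ S, (C.deg x : ℤ) ≠ k) :
    Subsingleton (C.HG S k) := by
  constructor
  intro a b
  obtain ⟨a, rfl⟩ := QuotientAddGroup.mk_surjective a
  obtain ⟨b, rfl⟩ := QuotientAddGroup.mk_surjective b
  have key : ∀ z : C.cyc S k, z = 0 := by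
    rintro ⟨z, hz, hzk, hz0⟩
    apply Subtype.ext
    show z = 0
    ext x
    by_contra h
    exact hk x (hz x h) (hzk x h)
  rw [key a, key b]

theorem HG_single {α : Type v} (x : α) : Nonempty ((LB α).HG {[x]} 1 ≃+ ℤ) := by
  let g : (LB α).cyc {[x]} 1 →+ ℤ := AddMonoidHom.mk' (fun z => z.1 [x]) (by
    intro a b
    exact Finsupp.add_apply _ _ _)
  have hk : g.ker = ((LB α).bdy {[x]} 1).addSubgroupOf ((LB α).cyc {[x]} 1) := by
    ext z
    rw [AddMonoidHom.mem_ker, AddSubgroup.mem_addSubgroupOf]
    constructor
    · intro h
      have h1 : z.1 = 0 := by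
        ext y
        by_contra hy
        have h2 : y = [x] := z.2.1 y hy
        subst h2
        exact hy h
      rw [h1]
      exact zero_mem _
    · rintro ⟨w, hw, hwk, hw'⟩
      have h1 : w = 0 := by
        ext y
        by_contra hy
        have h2 : y = [x] := hw y hy
        have h3 : ((LB α).deg y : ℤ) = 1 + 1 := hwk y hy
        rw [h2, LB_deg] at h3
        simp at h3
      rw [h1, map_zero] at hw'
      show z.1 [x] = 0
      rw [← hw']
      rfl
  have hs : Function.Surjective g := by
    intro c
    refine ⟨⟨single [x] c, inS_single (S := {[x]}) (x := [x]) rfl c, inS_single (by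
      show (((LB α).deg [x] : ℕ) : ℤ) = 1
      rw [LB_deg]
      simp) c, ?_⟩, ?_⟩
    · ext y
      rw [BCx.DS_apply]
      by_cases hy : y ∈ ({[x]} : Set (List α))
      · have h2 : y = [x] := hy
        subst h2
        rw [pr_apply_mem hy]
        have h3 : (single [x] c : List α →₀ ℤ) = c • single [x] 1 := by
          rw [Finsupp.smul_single, smul_eq_mul, mul_one]
        rw [h3, map_zsmul, Finsupp.smul_apply, BCx.D_self, smul_zero]
        rfl
      · rw [pr_apply_notMem hy]; rfl
    · exact Finsupp.single_eq_same
  exact ⟨(QuotientAddGroup.quotientAddEquivOfEq hk.symm).trans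
    (QuotientAddGroup.quotientKerEquivOfSurjective g hs)⟩

theorem MC_zero {x : I → Bool} {n : I → ℕ} (hx : x ∈ Ch f) (hn : ∀ i, n i = 0) :
    MC f x n = {[x]} := by
  ext L
  constructor
  · rintro ⟨h1, h2, h3, h4⟩
    cases L with
    | nil => simp at h1
    | cons a L =>
      have ha : a = x := by simpa using h1
      subst ha
      cases L with
      | nil => rfl
      | cons b L =>
        exfalso
        rw [List.isChain_cons_cons] at h3
        apply h3.1
        funext i
        have h5 : cr (a :: b :: L) i = 0 := by rw [h4, hn]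
        exact (cr_zero h5 b List.mem_cons_self).symm
  · rintro h
    have h : L = [x] := h
    subst h
    refine ⟨rfl, ?_, List.isChain_singleton _, ?_⟩
    · intro a ha
      rw [List.mem_singleton.1 ha]
      exact hx
    · funext i
      rw [cr_one, hn]

theorem HG_good [FiniteDimensional ℝ V] (N : ℕ) : ∀ (x : I → Bool) (n : I → ℕ), x ∈ Ch f →
    ∑ i, n i = N → ∀ k : ℕ,
    (Good f Finset.univ x n k → Nonempty ((LB (I → Bool)).HG (MC f x n) k ≃+ ℤ)) ∧
    (¬ Good f Finset.univ x n k → Subsingleton ((LB (I → Bool)).HG (MC f x n) k)) := by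
  classical
  induction N using Nat.strong_induction_on with
  | _ N ih =>
    intro x n hx hN k
    by_cases hn : ∀ i, n i = 0
    · rw [MC_zero hx hn, good_zero hn]
      constructor
      · rintro rfl
        exact HG_single x
      · intro hk
        apply HG_neg
        intro y hy h
        have h2 : y = [x] := hy
        rw [h2, LB_deg] at h
        apply hk
        have h3 : ([x].length : ℤ) = 1 := by simp
        omega
    · have hne : (spp n).Nonempty := by
        push Not at hn
        obtain ⟨i, hi⟩ := hn
        exact ⟨i, mem_spp.2 hi⟩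
      let Z0 : Finset I := Finset.univ.filter fun i => ∀ v : V, (∀ j, 0 ≤ gs f x j v) →
        (∀ j, n j ≠ 0 → f j v = 0) → f i v = 0
      have hZ0 : ∀ i, i ∈ Z0 ↔ ∀ v : V, (∀ j, 0 ≤ gs f x j v) →
          (∀ j, n j ≠ 0 → f j v = 0) → f i v = 0 := by
        intro i
        simp [Z0]
      have hsub : ∀ i, n i ≠ 0 → i ∈ Z0 := by
        intro i hi
        rw [hZ0]
        intro v _ hv
        exact hv i hi
      have Z3' : ∃ w : V, (∀ j, 0 ≤ gs f x j w) ∧ (∀ i ∈ Z0, f i w = 0) ∧
          ∀ i, i ∉ Z0 → 0 < gs f x i w := by
        have h1 : ∀ i, ∃ v : V, (∀ j, 0 ≤ gs f x j v) ∧ (∀ j, n j ≠ 0 → f j v = 0) ∧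
            (i ∉ Z0 → f i v ≠ 0) := by
          intro i
          by_cases hi : i ∈ Z0
          · exact ⟨0, fun j => by rw [map_zero], fun j _ => map_zero _, fun h => absurd hi h⟩
          · have hi' := hi
            rw [hZ0] at hi'
            push Not at hi'
            obtain ⟨v, h1, h2, h3⟩ := hi'
            exact ⟨v, h1, h2, fun _ => h3⟩
        choose v hv1 hv2 hv3 using h1
        have hs1 : ∀ j, 0 ≤ gs f x j (∑ i, v i) := by
          intro j
          rw [map_sum]
          exact Finset.sum_nonneg fun i _ => hv1 i j
        have hs2 : ∀ j, n j ≠ 0 → f j (∑ i, v i) = 0 := by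
          intro j hj
          rw [map_sum]
          exact Finset.sum_eq_zero fun i _ => hv2 i j hj
        refine ⟨∑ i, v i, hs1, fun i hi => (hZ0 i).1 hi _ hs1 hs2, fun i hi => ?_⟩
        rw [map_sum]
        exact Finset.sum_pos' (fun j _ => hv1 j i) ⟨i, Finset.mem_univ i,
          lt_of_le_of_ne (hv1 i i) fun h => hv3 i hi ((gs_eq_zero f x).1 h.symm)⟩
      have Z3 : ∃ w : V, (∀ i ∈ Z0, f i w = 0) ∧ ∀ i, i ∉ Z0 → 0 < gs f x i w := by
        obtain ⟨w, _, h⟩ := Z3'
        exact ⟨w, h⟩
      by_cases heq : Z0 = spp n
      · have Z3n : ∃ w : V, (∀ i ∈ spp n, f i w = 0) ∧ ∀ i, i ∉ spp n → 0 < gs f x i w := by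
          rw [← heq]; exact Z3
        have hle : Module.finrank ℝ ↥(⨅ i ∈ spp n, LinearMap.ker (f i)) ≤ Module.finrank ℝ V :=
          Submodule.finrank_le _
        obtain ⟨e⟩ := step_succ (f := f) (Z := spp n) (n := n) hx hne (fun i => mem_spp.symm) Z3n
          (r := cod f (spp n)) (by unfold cod; omega) k
        have hx' : fl (spp n) x ∈ Ch f := fl_Ch hx Z3n
        have hlt : ∑ i, (n i - 1) < N := by
          rw [← hN]
          obtain ⟨i, hi⟩ := hne
          apply Finset.sum_lt_sum
          · intro i _
            exact Nat.sub_le _ _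
          · refine ⟨i, Finset.mem_univ i, ?_⟩
            have := mem_spp.1 hi
            omega
        by_cases hk : cod f (spp n) ≤ k
        · obtain ⟨k', rfl⟩ := Nat.exists_eq_add_of_le' hk
          have h1 := ih _ hlt (fl (spp n) x) (fun i => n i - 1) hx' rfl k'
          have h2 : ((k' + cod f (spp n) : ℕ) : ℤ) - (cod f (spp n) : ℤ) = k' := by
            push_cast
            ring
          rw [h2] at e
          have hiff : Good f Finset.univ x n (k' + cod f (spp n)) ↔
              Good f Finset.univ (fl (spp n) x) (fun i => n i - 1) k' := by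
            rw [good_step hne]
            constructor
            · rintro ⟨_, k'', h3, h4⟩
              have : k'' = k' := by omega
              rw [← this]; exact h4
            · intro h
              obtain ⟨w, hw1, hw2⟩ := Z3n
              exact ⟨⟨w, hw1, fun i _ hi => hw2 i hi⟩, k', rfl, h⟩
          rw [hiff]
          constructor
          · intro h
            obtain ⟨e'⟩ := h1.1 h
            exact ⟨e.trans e'⟩
          · intro h
            have := h1.2 h
            exact e.toEquiv.subsingleton
        · constructor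
          · intro h
            rw [good_step hne] at h
            obtain ⟨_, k'', h3, _⟩ := h
            omega
          · intro _
            have : Subsingleton ((LB (I → Bool)).HG (MC f (fl (spp n) x) fun i => n i - 1)
                ((k : ℤ) - (cod f (spp n) : ℤ))) := by
              apply HG_neg
              intro y _ h
              rw [LB_deg] at h
              omega
            exact e.toEquiv.subsingleton
      · constructor
        · intro h
          exfalso
          rw [good_step hne] at h
          obtain ⟨⟨w, hw1, hw2⟩, _⟩ := h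
          apply heq
          apply Finset.Subset.antisymm
          · intro i hi
            by_contra hi'
            have h1 := (hZ0 i).1 hi w (fun j => ?_) (fun j hj => hw1 j (mem_spp.2 hj))
            · have h2 := hw2 i (Finset.mem_univ i) hi'
              rw [gs_apply, h1, mul_zero] at h2
              exact lt_irrefl _ h2
            · by_cases hj : j ∈ spp n
              · rw [gs_apply, hw1 j hj, mul_zero]
              · exact (hw2 j (Finset.mem_univ j) hj).le
          · intro i hi
            exact hsub i (mem_spp.1 hi)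
        · intro _
          refine step_zero (Z := Z0) hx hsub ?_ Z3 ?_ k
          · intro p hp1 hp2 i hi
            obtain ⟨w, hw0, hw1, hw2⟩ := Z3'
            have e2 : ∀ᶠ δ in 𝓝[>] (0 : ℝ), ∀ i, i ∉ Z0 → 0 < gs f x i w + δ * gs f x i p := by
              rw [Filter.eventually_all]
              intro i
              by_cases hi : i ∈ Z0
              · exact Filter.Eventually.of_forall fun _ h => absurd hi h
              · filter_upwards [ev_pos (gs f x i p) (hw2 i hi)] with δ hδ
                exact fun _ => hδ
            obtain ⟨δ, hδ1, hδ2⟩ := (e2.and ev_gt).exists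
            have h1 := (hZ0 i).1 hi (w + δ • p) (fun j => ?_) (fun j hj => ?_)
            · rw [map_add, hw1 i hi, zero_add, map_smul, smul_eq_mul] at h1
              exact (mul_eq_zero.1 h1).resolve_left hδ2.ne'
            · rw [map_add, map_smul, smul_eq_mul]
              by_cases hj : j ∈ Z0
              · have h3 := hw0 j
                have h4 := mul_nonneg hδ2.le (hp1 j hj)
                linarith
              · exact (hδ1 j hj).le
            · rw [map_add, hw1 j (hsub j hj), zero_add, map_smul, smul_eq_mul, hp2 j hj, mul_zero]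
          · by_contra hcon
            push Not at hcon
            apply heq
            apply Finset.Subset.antisymm
            · intro i hi
              exact mem_spp.2 (hcon i hi)
            · intro i hi
              exact hsub i (mem_spp.1 hi)

end Pool.Agent.K6.H51.MHA
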