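import Pool.Agent.K6.H51.MHA.Count

set_option autoImplicit false

/-! The numbers of good pairs of arrangements with isomorphic lattices. -/

namespace Pool.Agent.K6.H51.MHA

open Finsupp Filter Topology

universe u v u' v'

variable {V : Type u} [AddCommGroup V] [Module ℝ V] {I : Type v} [Fintype I]
  {f : I → V →ₗ[ℝ] ℝ}
  {V' : Type u'} [AddCommGroup V'] [Module ℝ V'] {I' : Type v'} [Fintype I']
  {f' : I' → V' →ₗ[ℝ] ℝ}

variable (f) in
/-- the lattice of intersections -/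
abbrev LT : Type u := {X : Submodule ℝ V // X ∈ LF f}

/-- the codimension -/
noncomputable def cdm (X : Submodule ℝ V) : ℕ := Module.finrank ℝ V - Module.finrank ℝ X

theorem cod_ix {X : Submodule ℝ V} (hX : X ∈ LF f) : cod f (ix f X) = cdm X := by
  have h : (⨅ i ∈ ix f X, LinearMap.ker (f i)) = X := cap_ix hX
  unfold cod cdm
  rw [h]

section
variable [FiniteDimensional ℝ V]

theorem cdm_lt {X Y : Submodule ℝ V} (h : X < Y) : cdm Y < cdm X := by
  have h1 := Submodule.finrank_lt_finrank_of_lt h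
  have h2 := Submodule.finrank_le Y
  unfold cdm
  omega

theorem cdm_add (X : Submodule ℝ V) : Module.finrank ℝ X + cdm X = Module.finrank ℝ V := by
  have h2 := Submodule.finrank_le X
  unfold cdm
  omega

theorem cdm_eq_zero {X : Submodule ℝ V} : cdm X = 0 ↔ X = ⊤ := by
  constructor
  · intro h
    by_contra hne
    have := cdm_lt (lt_top_iff_ne_top.2 hne)
    omega
  · rintro rfl
    unfold cdm
    rw [finrank_top]
    omega

end

theorem top_mem : (⊤ : Submodule ℝ V) ∈ LF f := mem_LF.2 ⟨∅, by simp [cap]⟩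

theorem iso_top (φ : LT f ≃o LT f') : (φ ⟨⊤, top_mem⟩).1 = ⊤ := by
  have h1 : (⟨⊤, top_mem⟩ : LT f') ≤ φ ⟨⊤, top_mem⟩ := by
    rw [← φ.symm_apply_le]
    show (φ.symm ⟨⊤, top_mem⟩).1 ≤ ⊤
    exact le_top
  exact top_le_iff.1 h1

theorem iso_top_iff (φ : LT f ≃o LT f') (X : LT f) : (φ X).1 = ⊤ ↔ X.1 = ⊤ := by
  have h1 : φ X = φ ⟨⊤, top_mem⟩ ↔ X = ⟨⊤, top_mem⟩ := φ.injective.eq_iff
  rw [Subtype.ext_iff, iso_top, Subtype.ext_iff] at h1
  exact h1

section
variable [FiniteDimensional ℝ V] [FiniteDimensional ℝ V']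

theorem iso_cdm_le (m : ℕ) : ∀ (φ : LT f ≃o LT f') (X : LT f), cdm X.1 = m →
    cdm (φ X).1 ≤ m := by
  induction m using Nat.strong_induction_on with
  | _ m ih =>
    intro φ X hX
    by_cases htop : (φ X).1 = ⊤
    · rw [cdm_eq_zero.2 htop]
      exact Nat.zero_le _
    · obtain ⟨Y, hY, hlt, hfr⟩ := exists_cover (φ X).2 htop
      have h1 : φ (φ.symm ⟨Y, hY⟩) = ⟨Y, hY⟩ := φ.apply_symm_apply _
      have h2 : X < φ.symm ⟨Y, hY⟩ := by
        rw [φ.lt_symm_apply]
        exact hlt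
      have h3 := cdm_lt (V := V) h2
      have h4 := ih (cdm (φ.symm ⟨Y, hY⟩).1) (by rw [← hX]; exact h3) φ (φ.symm ⟨Y, hY⟩) rfl
      rw [h1] at h4
      have h4 : cdm Y ≤ cdm (φ.symm ⟨Y, hY⟩).1 := h4
      have h5 := cdm_add Y
      have h6 := cdm_add (φ X).1
      omega

theorem iso_cdm (φ : LT f ≃o LT f') (X : LT f) : cdm (φ X).1 = cdm X.1 := by
  apply le_antisymm (iso_cdm_le _ φ X rfl)
  have := iso_cdm_le _ φ.symm (φ X) rfl
  rwa [φ.symm_apply_apply] at this

theorem ker_mem (i : I) : LinearMap.ker (f i) ∈ LF f := mem_LF.2 ⟨{i}, by simp [cap]⟩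

theorem cdm_ker {i : I} (h : f i ≠ 0) : cdm (LinearMap.ker (f i)) = 1 := by
  have h1 := Module.Dual.finrank_ker_add_one_of_ne_zero h
  have h2 := cdm_add (LinearMap.ker (f i))
  omega

theorem exists_ker (hf : ∀ i, f i ≠ 0) {X : Submodule ℝ V} (hX : X ∈ LF f) (h1 : cdm X = 1) :
    ∃ i, LinearMap.ker (f i) = X := by
  obtain ⟨S, rfl⟩ := mem_LF.1 hX
  have hS : S.Nonempty := by
    rw [Finset.nonempty_iff_ne_empty]
    rintro rfl
    have : cap f (∅ : Finset I) = ⊤ := by simp [cap]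
    rw [this, cdm_eq_zero.2 rfl] at h1
    omega
  obtain ⟨i, hi⟩ := hS
  have hle : cap f S ≤ LinearMap.ker (f i) := fun v hv => mem_cap.1 hv i hi
  by_cases heq : cap f S = LinearMap.ker (f i)
  · exact ⟨i, heq.symm⟩
  · have h2 := cdm_lt (lt_of_le_of_ne hle heq)
    have h3 := cdm_ker (hf i)
    omega

open Classical in
theorem card_ix (hf : ∀ i, f i ≠ 0) (hinj : Function.Injective fun i => LinearMap.ker (f i))
    (X : LT f) : (ix f X.1).card =
      (Finset.univ.filter fun H : LT f => cdm H.1 = 1 ∧ X ≤ H).card := by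
  apply Finset.card_bij (fun i _ => (⟨LinearMap.ker (f i), ker_mem i⟩ : LT f))
  · intro i hi
    refine Finset.mem_filter.2 ⟨Finset.mem_univ _, cdm_ker (hf i), ?_⟩
    exact fun v hv => mem_ix.1 hi v hv
  · intro i _ j _ hij
    exact hinj (Subtype.ext_iff.1 hij)
  · intro H hH
    obtain ⟨_, h1, h2⟩ := Finset.mem_filter.1 hH
    obtain ⟨i, hi⟩ := exists_ker hf H.2 h1
    refine ⟨i, mem_ix.2 fun v hv => ?_, Subtype.ext hi⟩
    have : v ∈ LinearMap.ker (f i) := by rw [hi]; exact h2 hv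
    exact this

theorem iso_card (hf : ∀ i, f i ≠ 0) (hinj : Function.Injective fun i => LinearMap.ker (f i))
    (hf' : ∀ i, f' i ≠ 0) (hinj' : Function.Injective fun i => LinearMap.ker (f' i))
    (φ : LT f ≃o LT f') (X : LT f) : (ix f' (φ X).1).card = (ix f X.1).card := by
  classical
  rw [card_ix hf hinj, card_ix hf' hinj']
  symm
  apply Finset.card_bij (fun H _ => φ H)
  · intro H hH
    obtain ⟨_, h1, h2⟩ := Finset.mem_filter.1 hH
    exact Finset.mem_filter.2 ⟨Finset.mem_univ _, by rw [iso_cdm, h1], φ.monotone h2⟩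
  · intro H _ H' _ h
    exact φ.injective h
  · intro H hH
    obtain ⟨_, h1, h2⟩ := Finset.mem_filter.1 hH
    refine ⟨φ.symm H, Finset.mem_filter.2 ⟨Finset.mem_univ _, by rw [iso_cdm, h1], ?_⟩,
      φ.apply_symm_apply H⟩
    rw [φ.le_symm_apply]
    exact h2

theorem neg_one_cdm (X : Submodule ℝ V) :
    (-1 : ℤ) ^ Module.finrank ℝ V * (-1) ^ Module.finrank ℝ X = (-1) ^ cdm X := by
  have h := cdm_add X
  rw [← h, pow_add, mul_right_comm, ← pow_add, ← two_mul, pow_mul]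
  norm_num

open Classical in
theorem euler_LT (X Y : LT f) (hXY : X ≤ Y) : ∑ W : LT f, (if X ≤ W ∧ W ≤ Y then
    (-1 : ℤ) ^ cdm W.1 * cc f (ix f X.1) (ix f W.1) else 0) = (-1) ^ cdm Y.1 := by
  have h := euler_LF X.2 Y.2 hXY
  rw [Finset.sum_filter, ← Finset.sum_coe_sort] at h
  rw [← neg_one_cdm Y.1, ← h, Finset.mul_sum]
  refine Finset.sum_congr rfl fun W _ => ?_
  by_cases hW : X ≤ W ∧ W ≤ Y
  · have hW' : X.1 ≤ W.1 ∧ W.1 ≤ Y.1 := hW
    rw [if_pos hW, if_pos hW', ← neg_one_cdm W.1, mul_assoc]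
  · have hW' : ¬ (X.1 ≤ W.1 ∧ W.1 ≤ Y.1) := hW
    rw [if_neg hW, if_neg hW', mul_zero]

theorem iso_cc (m : ℕ) (φ : LT f ≃o LT f') (X : LT f) : ∀ Y : LT f, X ≤ Y →
    Module.finrank ℝ Y.1 = m →
    cc f' (ix f' (φ X).1) (ix f' (φ Y).1) = cc f (ix f X.1) (ix f Y.1) := by
  classical
  induction m using Nat.strong_induction_on with
  | _ m ih =>
    intro Y hXY hY
    have h1 := euler_LT X Y hXY
    have h2 := euler_LT (φ X) (φ Y) (φ.monotone hXY)
    rw [← φ.toEquiv.sum_comp, iso_cdm, ← h1, ← sub_eq_zero, ← Finset.sum_sub_distrib,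
      Finset.sum_eq_single_of_mem Y (Finset.mem_univ Y)] at h2
    · have e1 : φ X ≤ φ.toEquiv Y ∧ φ.toEquiv Y ≤ φ Y := ⟨φ.monotone hXY, le_rfl⟩
      rw [if_pos e1, if_pos ⟨hXY, le_rfl⟩] at h2
      have e2 : (φ.toEquiv Y) = φ Y := rfl
      rw [e2, iso_cdm, ← mul_sub] at h2
      have e3 : ((-1 : ℤ) ^ cdm Y.1) ≠ 0 := pow_ne_zero _ (by norm_num)
      have e4 := (mul_eq_zero.1 h2).resolve_left e3
      have e5 := sub_eq_zero.1 e4
      exact_mod_cast e5
    · intro W _ hWY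
      have e2 : (φ.toEquiv W) = φ W := rfl
      rw [e2]
      by_cases hW : X ≤ W ∧ W ≤ Y
      · have e1 : φ X ≤ φ W ∧ φ W ≤ φ Y := ⟨φ.monotone hW.1, φ.monotone hW.2⟩
        rw [if_pos hW, if_pos e1, iso_cdm, ih (Module.finrank ℝ W.1) ?_ W hW.1 rfl, sub_self]
        rw [← hY]
        exact Submodule.finrank_lt_finrank_of_lt (lt_of_le_of_ne hW.2 fun h => hWY (Subtype.ext h))
      · have e1 : ¬ (φ X ≤ φ W ∧ φ W ≤ φ Y) := by
          rw [φ.le_iff_le, φ.le_iff_le]
          exact hW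
        rw [if_neg hW, if_neg e1, sub_self]

theorem ix_top (hf : ∀ i, f i ≠ 0) : ix f ⊤ = ∅ := by
  rw [Finset.eq_empty_iff_forall_notMem]
  intro i hi
  apply hf i
  ext v
  exact mem_ix.1 hi v trivial

/-- the numbers of good pairs depend only on the lattice -/
theorem iso_NN (hf : ∀ i, f i ≠ 0) (hinj : Function.Injective fun i => LinearMap.ker (f i))
    (hf' : ∀ i, f' i ≠ 0) (hinj' : Function.Injective fun i => LinearMap.ker (f' i))
    (φ : LT f ≃o LT f') (l : ℕ) : ∀ (X : LT f) (k : ℕ),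
    NN f' (ix f' (φ X).1) k l = NN f (ix f X.1) k l := by
  classical
  induction l using Nat.strong_induction_on with
  | _ l ih =>
    intro X k
    rcases Nat.eq_zero_or_pos l with rfl | hl
    · rw [count_zero, count_zero]
      congr 1
      rw [← ix_top hf, ← ix_top hf']
      have h1 := iso_cc _ φ X ⟨⊤, top_mem⟩ (show X.1 ≤ ⊤ from le_top) rfl
      rw [iso_top] at h1
      exact h1
    · rw [count_rec hf X.2 k hl, count_rec hf' (φ X).2 k hl, Finset.sum_filter,
        Finset.sum_filter, ← Finset.sum_coe_sort (LF f'), ← Finset.sum_coe_sort (LF f),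
        ← φ.toEquiv.sum_comp]
      refine Finset.sum_congr rfl fun Y _ => ?_
      have e2 : (φ.toEquiv Y) = φ Y := rfl
      rw [e2]
      by_cases hY : X.1 ≤ Y.1 ∧ Y.1 ≠ ⊤
      · have hY' : (φ X).1 ≤ (φ Y).1 ∧ (φ Y).1 ≠ ⊤ :=
          ⟨φ.monotone (show X ≤ Y from hY.1), fun h => hY.2 ((iso_top_iff φ Y).1 h)⟩
        rw [if_pos hY, if_pos hY', iso_cc _ φ X Y hY.1 rfl, cod_ix Y.2, cod_ix (φ Y).2, iso_cdm,
          iso_card hf hinj hf' hinj']
        congr 1
        by_cases hc : cdm Y.1 ≤ k ∧ (ix f Y.1).card ≤ l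
        · rw [if_pos hc, if_pos hc]
          apply ih
          have hpos : 0 < (ix f Y.1).card := by
            rw [Finset.card_pos, Finset.nonempty_iff_ne_empty]
            intro h
            apply hY.2
            rw [← cap_ix Y.2, h]
            simp [cap]
          omega
        · rw [if_neg hc, if_neg hc]
      · have hY' : ¬ ((φ X).1 ≤ (φ Y).1 ∧ (φ Y).1 ≠ ⊤) := by
          rintro ⟨h1, h2⟩
          exact hY ⟨φ.le_iff_le.1 h1, fun h => h2 ((iso_top_iff φ Y).2 h)⟩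
        rw [if_neg hY, if_neg hY']

/-- the total numbers -/
theorem iso_NN_univ (hf : ∀ i, f i ≠ 0) (hinj : Function.Injective fun i => LinearMap.ker (f i))
    (hf' : ∀ i, f' i ≠ 0) (hinj' : Function.Injective fun i => LinearMap.ker (f' i))
    (φ : LT f ≃o LT f') (k l : ℕ) :
    NN f' Finset.univ k l = NN f Finset.univ k l := by
  have h1 : ix f (cap f Finset.univ) = Finset.univ := by
    ext i
    rw [mem_ix]
    exact ⟨fun _ => Finset.mem_univ i, fun _ v hv => mem_cap.1 hv i (Finset.mem_univ i)⟩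
  have h2 : ix f' (cap f' Finset.univ) = Finset.univ := by
    ext i
    rw [mem_ix]
    exact ⟨fun _ => Finset.mem_univ i, fun _ v hv => mem_cap.1 hv i (Finset.mem_univ i)⟩
  have h3 : (φ ⟨cap f Finset.univ, cap_mem _⟩).1 = cap f' Finset.univ := by
    apply le_antisymm
    · have h4 : φ ⟨cap f Finset.univ, cap_mem _⟩ ≤ ⟨cap f' Finset.univ, cap_mem _⟩ := by
        rw [← φ.le_symm_apply]
        intro v hv
        have hv : v ∈ cap f Finset.univ := hv
        rw [← cap_ix (φ.symm ⟨cap f' Finset.univ, cap_mem _⟩).2, mem_cap]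
        intro i _
        exact mem_cap.1 hv i (Finset.mem_univ i)
      exact h4
    · intro v hv
      rw [← cap_ix (φ ⟨cap f Finset.univ, cap_mem _⟩).2, mem_cap]
      intro i _
      exact mem_cap.1 hv i (Finset.mem_univ i)
  have h5 := iso_NN hf hinj hf' hinj' φ l ⟨cap f Finset.univ, cap_mem _⟩ k
  rw [h3, h1, h2] at h5
  exact h5

end

end Pool.Agent.K6.H51.MHA
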