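import Pool.Agent.K6.H51.MHA.Tens

set_option autoImplicit false

/-! The chain complex of all lists. -/

namespace Pool.Agent.K6.H51.MHA

open Finsupp

universe u v

variable {α : Type u}

theorem cons_inj (a : α) : Function.Injective (fun m : List α => a :: m) := by
  intro x y h
  exact (List.cons.inj h).2

theorem mapDomain_cons (a : α) (z : List α →₀ ℤ) (m : List α) :
    mapDomain (fun m => a :: m) z (a :: m) = z m :=
  Finsupp.mapDomain_apply (cons_inj a) z m

theorem mapDomain_cons_ne (a : α) (z : List α →₀ ℤ) (m : List α)
    (h : ∀ m', m ≠ a :: m') : mapDomain (fun m => a :: m) z m = 0 := by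
  apply Finsupp.mapDomain_of_notMem_range
  rintro ⟨m', hm'⟩
  exact h m' hm'.symm

/-- the boundary of a list -/
noncomputable def lbd : List α → (List α →₀ ℤ)
  | [] => 0
  | a :: l => single l 1 - mapDomain (fun m => a :: m) (lbd l)

theorem lbd_cons (a : α) (l : List α) :
    lbd (a :: l) = single l 1 - mapDomain (fun m => a :: m) (lbd l) := rfl

theorem lbd_exists {l y : List α} (h : lbd l y ≠ 0) :
    ∃ P a Q, l = P ++ a :: Q ∧ y = P ++ Q := by
  induction l generalizing y with
  | nil => exact absurd rfl h
  | cons a l ih =>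
    rw [lbd_cons, Finsupp.sub_apply] at h
    by_cases h1 : l = y
    · exact ⟨[], a, l, rfl, h1.symm⟩
    · rw [Finsupp.single_eq_of_ne' h1, zero_sub, neg_ne_zero] at h
      by_cases h2 : ∃ m, y = a :: m
      · obtain ⟨m, rfl⟩ := h2
        rw [mapDomain_cons] at h
        obtain ⟨P, b, Q, rfl, rfl⟩ := ih h
        exact ⟨a :: P, b, Q, rfl, rfl⟩
      · exact absurd (mapDomain_cons_ne a _ y fun m hm => h2 ⟨m, hm⟩) h

/-- the boundary, extended linearly -/
noncomputable def lD : (List α →₀ ℤ) →+ (List α →₀ ℤ) :=
  Finsupp.liftAddHom fun l => (zmultiplesHom _) (lbd l)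

theorem lD_single (l : List α) (c : ℤ) : lD (single l c) = c • lbd l := by
  unfold lD
  rw [Finsupp.liftAddHom_apply_single, zmultiplesHom_apply]

theorem lD_cons (a : α) (z : List α →₀ ℤ) :
    lD (mapDomain (fun m => a :: m) z) = z - mapDomain (fun m => a :: m) (lD z) := by
  induction z using Finsupp.induction_linear with
  | zero => simp
  | add f g hf hg => rw [mapDomain_add, map_add, hf, hg, map_add, mapDomain_add]; abel
  | single l c =>
    rw [mapDomain_single, lD_single, lD_single, lbd_cons, smul_sub, Finsupp.smul_single,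
      smul_eq_mul, mul_one, mapDomain_smul]

theorem lD_lD (z : List α →₀ ℤ) : lD (lD z) = 0 := by
  have h : ∀ l : List α, lD (lbd l) = 0 := by
    intro l
    induction l with
    | nil => exact map_zero _
    | cons a l ih =>
      rw [lbd_cons, map_sub, lD_cons, ih, lD_single, one_smul, mapDomain_zero, sub_zero, sub_self]
  induction z using Finsupp.induction_linear with
  | zero => rw [map_zero, map_zero]
  | add f g hf hg => rw [map_add, map_add, hf, hg, add_zero]
  | single l c => rw [lD_single, map_zsmul, h, smul_zero]

variable (α) in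
/-- the complex of all lists -/
noncomputable def LB : BCx (List α) where
  D := lD
  D_D := lD_lD
  deg := List.length
  D_deg := by
    intro x y h
    rw [lD_single, one_smul] at h
    obtain ⟨P, a, Q, rfl, rfl⟩ := lbd_exists h
    simp
    omega

theorem LB_D (l : List α) : (LB α).D (single l 1) = lbd l := by
  show lD (single l 1) = _
  rw [lD_single, one_smul]

theorem LB_lt {l y : List α} (h : (LB α).Lt y l) : ∃ P a Q, l = P ++ a :: Q ∧ y = P ++ Q := by
  unfold BCx.Lt at h
  rw [LB_D] at h
  exact lbd_exists h

theorem LB_deg (l : List α) : (LB α).deg l = l.length := rfl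

/-- cones are acyclic -/
theorem acy_cone {S : Set (List α)} (v : α) (h1 : ∀ l ∈ S, v :: l ∈ S)
    (h2 : ∀ l ∈ S, ∀ P a Q, l = P ++ a :: Q → v :: (P ++ Q) ∈ S → P ++ Q ∈ S) :
    (LB α).Acy S := by
  refine BCx.Acy.homotopy (mapDomain.addMonoidHom fun m => v :: m) ?_ ?_
  · intro l hl
    show InS S (mapDomain (fun m => v :: m) (single l 1))
    rw [mapDomain_single]
    exact inS_single (h1 l hl) _
  · intro l hl
    show (LB α).DS S (mapDomain (fun m => v :: m) (single l 1)) +
      mapDomain (fun m => v :: m) ((LB α).DS S (single l 1)) = _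
    rw [mapDomain_single, BCx.DS_apply, BCx.DS_apply, LB_D, LB_D, lbd_cons, map_sub,
      pr_eq_self (inS_single hl _)]
    have : pr S (mapDomain (fun m => v :: m) (lbd l)) =
        mapDomain (fun m => v :: m) (pr S (lbd l)) := by
      ext y
      by_cases hy : ∃ m, y = v :: m
      · obtain ⟨m, rfl⟩ := hy
        rw [mapDomain_cons]
        by_cases hm : lbd l m = 0
        · rw [pr_apply, pr_apply, mapDomain_cons, hm]
          simp
        · obtain ⟨P, a, Q, rfl, rfl⟩ := lbd_exists hm
          by_cases hPQ : P ++ Q ∈ S
          · rw [pr_apply_mem hPQ, pr_apply_mem (h1 _ hPQ), mapDomain_cons]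
          · rw [pr_apply_notMem hPQ, pr_apply_notMem fun h => hPQ (h2 _ hl P a Q rfl h)]
      · have hy' : ∀ m, y ≠ v :: m := fun m hm => hy ⟨m, hm⟩
        rw [mapDomain_cons_ne v _ y hy', pr_apply, mapDomain_cons_ne v _ y hy']
        simp
    rw [this]
    abel

theorem lbd_append (A B : List α) : lbd (A ++ B) =
    mapDomain (fun m => m ++ B) (lbd A) +
      ((-1 : ℤ) ^ A.length) • mapDomain (fun m => A ++ m) (lbd B) := by
  induction A with
  | nil =>
    simp only [List.nil_append, List.length_nil, pow_zero, one_smul]
    have : (fun m : List α => m) = id := rfl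
    rw [this, mapDomain_id]
    show lbd B = mapDomain _ 0 + lbd B
    rw [mapDomain_zero, zero_add]
  | cons a A ih =>
    rw [List.cons_append, lbd_cons, ih, mapDomain_add, mapDomain_smul, ← mapDomain_comp,
      ← mapDomain_comp, lbd_cons, sub_eq_add_neg (single A 1), mapDomain_add, mapDomain_single]
    have e : mapDomain (fun m : List α => m ++ B) (-mapDomain (fun m => a :: m) (lbd A)) =
        -mapDomain ((fun m : List α => a :: m) ∘ fun m => m ++ B) (lbd A) := by
      have := (mapDomain.addMonoidHom (M := ℤ) (fun m : List α => m ++ B)).map_neg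
        (mapDomain (fun m => a :: m) (lbd A))
      change mapDomain (fun m : List α => m ++ B) (-mapDomain (fun m => a :: m) (lbd A)) =
        -(mapDomain (fun m : List α => m ++ B) (mapDomain (fun m => a :: m) (lbd A))) at this
      rw [this, ← mapDomain_comp]
      rfl
    rw [e, List.length_cons, pow_succ]
    have e2 : ((fun m : List α => a :: m) ∘ fun m => A ++ m) = fun m => a :: A ++ m := rfl
    rw [e2]
    simp only [mul_neg, mul_one, neg_smul]
    abel

theorem lbd_apply_append (A B A' B' : List α)
    (h1 : ∀ A'', lbd A A'' ≠ 0 → A'' ++ B = A' ++ B' → A'' = A' ∧ B = B')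
    (h2 : ∀ B'', lbd B B'' ≠ 0 → A ++ B'' = A' ++ B' → A = A' ∧ B'' = B') :
    lbd (A ++ B) (A' ++ B') = ((LB α).tens (LB α)).D (single (A, B) 1) (A', B') := by
  classical
  rw [BCx.tens_D_single, LB_D, LB_D, lbd_append, Finsupp.add_apply, Finsupp.smul_apply, smul_eq_mul]
  congr 1
  · by_cases hB : B = B'
    · subst hB
      rw [Finsupp.single_eq_same, mul_one]
      exact Finsupp.mapDomain_apply (f := fun m : List α => m ++ B)
        (fun x y h => List.append_cancel_right h) (lbd A) A'
    · rw [Finsupp.single_eq_of_ne' hB, mul_zero, mapDomain, Finsupp.sum_apply]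
      apply Finset.sum_eq_zero
      intro A'' hA''
      change (single (A'' ++ B) (lbd A A'') : List α →₀ ℤ) (A' ++ B') = 0
      rw [Finsupp.single_apply, if_neg]
      intro h
      exact hB (h1 A'' (Finsupp.mem_support_iff.1 hA'') h).2
  · rw [LB_deg]
    congr 1
    by_cases hA : A = A'
    · subst hA
      rw [Finsupp.single_eq_same, one_mul]
      exact Finsupp.mapDomain_apply (f := fun m : List α => A ++ m)
        (fun x y h => List.append_cancel_left h) (lbd B) B'
    · rw [Finsupp.single_eq_of_ne' hA, zero_mul, mapDomain, Finsupp.sum_apply]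
      apply Finset.sum_eq_zero
      intro B'' hB''
      change (single (A ++ B'') (lbd B B'') : List α →₀ ℤ) (A' ++ B') = 0
      rw [Finsupp.single_apply, if_neg]
      intro h
      exact hA (h2 B'' (Finsupp.mem_support_iff.1 hB'') h).1

/-- the coefficient of a list in the boundary of the list with one more element at the end -/
theorem lbd_snoc (A : List α) (g : α) (h : (A ++ [g]).IsChain (· ≠ ·)) :
    lbd (A ++ [g]) A = (-1) ^ A.length := by
  induction A with
  | nil =>
    rw [List.nil_append, lbd_cons, Finsupp.sub_apply, Finsupp.single_eq_same]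
    show 1 - mapDomain _ 0 [] = _
    rw [mapDomain_zero]
    simp
  | cons a A ih =>
    rw [List.cons_append, lbd_cons, Finsupp.sub_apply, mapDomain_cons,
      ih (List.IsChain.tail (by simpa using h))]
    have h1 : A ++ [g] ≠ a :: A := by
      intro h2
      cases A with
      | nil =>
        rw [List.nil_append] at h2
        have h3 : g = a := (List.cons.inj h2).1
        subst h3
        simp at h
      | cons b A =>
        rw [List.cons_append] at h2
        have h3 : b = a := (List.cons.inj h2).1
        subst h3
        simp at h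
    rw [Finsupp.single_eq_of_ne' h1, List.length_cons, pow_succ]
    ring

end Pool.Agent.K6.H51.MHA
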