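import Pool.Agent.K6.H51.MHA.Cr

set_option autoImplicit false

/-! The complex of inessential beginnings, first part. -/

namespace Pool.Agent.K6.H51.MHA

open Finsupp

universe u v

variable {V : Type u} [AddCommGroup V] [Module ℝ V] {I : Type v} (f : I → V →ₗ[ℝ] ℝ)
  (x : I → Bool) (n : I → ℕ) (Z : Finset I)

/-- the functionals with the signs `x` -/
noncomputable def gs (i : I) : V →ₗ[ℝ] ℝ := sg (x i) • f i

theorem gs_apply (i : I) (v : V) : gs f x i v = sg (x i) * f i v := rfl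

theorem sg_ne_zero (b : Bool) : sg b ≠ 0 := by cases b <;> simp [sg]

theorem gs_eq_zero {i : I} {v : V} : gs f x i v = 0 ↔ f i v = 0 := by
  rw [gs_apply, mul_eq_zero]
  constructor
  · rintro (h | h)
    · exact absurd h (sg_ne_zero _)
    · exact h
  · exact fun h => Or.inr h

/-- `p` lies on the hyperplanes which are crossed by `A` -/
def Van (A : List (I → Bool)) (p : V) : Prop := ∀ i, cr A i ≠ 0 → f i p = 0

/-- inessential lists -/
def Ines (A : List (I → Bool)) : Prop := ∃ p ∈ QQ (gs f x) ⊤ Z, Van f A p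

/-- the admissible splittings -/
def Sp (A B : List (I → Bool)) : Prop :=
  A.head? = some x ∧ Ines f x Z A ∧ ¬ Ines f x Z (A ++ B.take 1)

/-- the admissible splittings of generators -/
def Pc (y : List (I → Bool) × List (I → Bool)) : Prop :=
  y.1 ++ y.2 ∈ MC f x n ∧ Sp f x Z y.1 y.2

/-- the big complex -/
def MM : Set (List V × (List (I → Bool) × List (I → Bool))) :=
  {t | Pc f x n Z t.2 ∧ ∀ p ∈ t.1, p ∈ QQ (gs f x) ⊤ Z ∧ Van f t.2.1 p}

variable {f x n Z}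

theorem Van.mono {A A' : List (I → Bool)} {p : V} (h : ∀ i, cr A' i ≤ cr A i)
    (hp : Van f A p) : Van f A' p := by
  intro i hi
  apply hp
  have := h i
  omega

theorem Ines.mono {A A' : List (I → Bool)} (h : ∀ i, cr A' i ≤ cr A i)
    (hp : Ines f x Z A) : Ines f x Z A' := by
  obtain ⟨p, hp, hp'⟩ := hp
  exact ⟨p, hp, hp'.mono h⟩

theorem Sp.ne_nil {A B : List (I → Bool)} (h : Sp f x Z A B) : ∃ y B', B = y :: B' := by
  cases B with
  | nil =>
    exfalso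
    apply h.2.2
    rw [List.take_nil, List.append_nil]
    exact h.2.1
  | cons y B => exact ⟨y, B, rfl⟩

theorem Sp.ne_nil' {A B : List (I → Bool)} (h : Sp f x Z A B) : A ≠ [] := by
  rintro rfl
  have := h.1
  simp at this

theorem Sp_unique {A B A' B' : List (I → Bool)} (h : Sp f x Z A B) (h' : Sp f x Z A' B')
    (heq : A ++ B = A' ++ B') : A = A' ∧ B = B' := by
  have key : ∀ {A B A' B' : List (I → Bool)}, Sp f x Z A B → Sp f x Z A' B' →
      ∀ l, A' = A ++ l → B = l ++ B' → A = A' ∧ B = B' := by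
    intro A B A' B' h h' l h1 h2
    cases l with
    | nil => exact ⟨by rw [h1, List.append_nil], by rw [h2, List.nil_append]⟩
    | cons y l =>
      exfalso
      apply h.2.2
      rw [h2]
      apply h'.2.1.mono
      intro i
      rw [h1]
      have := cr_le_append (A ++ [y]) l i
      simpa using this
  rcases List.append_eq_append_iff.1 heq with ⟨l, h1, h2⟩ | ⟨l, h1, h2⟩
  · exact key h h' l h1 h2
  · have := key h' h l h1 h2
    exact ⟨this.1.symm, this.2.symm⟩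

theorem Sp_exists {A R : List (I → Bool)} (h1 : A.head? = some x) (h2 : Ines f x Z A)
    (h3 : ¬ Ines f x Z (A ++ R)) : ∃ A' B', A ++ R = A' ++ B' ∧ Sp f x Z A' B' := by
  induction R generalizing A with
  | nil =>
    rw [List.append_nil] at h3
    exact absurd h2 h3
  | cons y R ih =>
    by_cases h4 : Ines f x Z (A ++ [y])
    · have h5 : A ++ y :: R = A ++ [y] ++ R := by simp
      rw [h5] at h3 ⊢
      refine ih ?_ h4 h3
      cases A with
      | nil => simp at h1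
      | cons a A => simpa using h1
    · exact ⟨A, y :: R, rfl, h1, h2, h4⟩

theorem Pc_erase1 {P Q B : List (I → Bool)} {a : I → Bool} (h : Pc f x n Z (P ++ a :: Q, B))
    (h' : cr (P ++ Q ++ B) = n) : Pc f x n Z (P ++ Q, B) := by
  obtain ⟨h1, h2⟩ := h
  obtain ⟨y, B', rfl⟩ := h2.ne_nil
  have h3 : P ++ a :: (Q ++ y :: B') ∈ MC f x n := by simpa using h1
  obtain ⟨P', b, c, Q', h4, h5, h6, h7, h8⟩ := MC_erase h3 (by simp) (by rw [← h']; simp)
  refine ⟨by simpa using h8, ?_, h2.2.1.mono (cr_erase_le P a Q), ?_⟩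
  · rw [← h2.1]
    subst h4
    cases P' <;> rfl
  · intro h9
    apply h2.2.2
    apply h9.mono
    intro i
    have e1 : cr (P ++ a :: Q ++ y :: B') i = n i := by rw [h1.2.2.2]
    have e2 : cr (P ++ Q ++ y :: B') i = n i := by rw [h']
    rw [cr_append] at e1 e2
    show cr (P ++ a :: Q ++ [y]) i ≤ cr (P ++ Q ++ [y]) i
    omega

theorem Pc_erase2 {A P Q : List (I → Bool)} {a : I → Bool} (h : Pc f x n Z (A, P ++ a :: Q))
    (h' : cr (A ++ (P ++ Q)) = n) : Pc f x n Z (A, P ++ Q) := by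
  obtain ⟨h1, h2⟩ := h
  have hA := h2.ne_nil'
  have h3 : (A ++ P) ++ a :: Q ∈ MC f x n := by simpa using h1
  obtain ⟨P', b, c, Q', h4, h5, h6, h7, h8⟩ := MC_erase h3 (by simp [hA]) (by rw [← h']; simp)
  refine ⟨by simpa using h8, h2.1, h2.2.1, ?_⟩
  intro h9
  apply h2.2.2
  subst h5
  cases P with
  | nil =>
    rw [List.append_nil] at h4
    subst h4
    apply h9.mono
    intro i
    show cr (P' ++ [b] ++ [a]) i ≤ cr (P' ++ [b] ++ [c]) i
    rw [cr_snoc, cr_snoc]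
    have := h6 i
    rw [or_comm, eq_comm (a := a i) (b := c i), eq_comm (a := a i) (b := b i)] at this
    unfold dd
    rcases this with h | h
    · rw [h]
    · rw [if_pos h]; omega
  | cons y P => exact h9

/-- the ambient complex -/
noncomputable abbrev TT (V : Type u) (I : Type v) :
    BCx (List V × (List (I → Bool) × List (I → Bool))) :=
  (LB V).tens ((LB (I → Bool)).tens (LB (I → Bool)))

theorem TT_lt {pl pl' : List V} {A A' B B' : List (I → Bool)}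
    (h : (TT V I).Lt (pl', (A', B')) (pl, (A, B))) :
    ((A' = A ∧ B' = B) ∧ ∃ P p Q, pl = P ++ p :: Q ∧ pl' = P ++ Q) ∨
    ((pl' = pl ∧ B' = B) ∧ ∃ P a Q, A = P ++ a :: Q ∧ A' = P ++ Q) ∨
    ((pl' = pl ∧ A' = A) ∧ ∃ P a Q, B = P ++ a :: Q ∧ B' = P ++ Q) := by
  rcases (LB V).tens_lt _ h with ⟨h1, h2⟩ | ⟨h1, h2⟩
  · left
    exact ⟨Prod.ext_iff.1 h1, LB_lt h2⟩
  · rcases (LB (I → Bool)).tens_lt _ h2 with ⟨h3, h4⟩ | ⟨h3, h4⟩
    · right; left
      exact ⟨⟨h1, h3⟩, LB_lt h4⟩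
    · right; right
      exact ⟨⟨h1, h3⟩, LB_lt h4⟩

theorem TT_cr_le {t w : List V × (List (I → Bool) × List (I → Bool))}
    (h : (TT V I).Lt t w) (i : I) : cr (t.2.1 ++ t.2.2) i ≤ cr (w.2.1 ++ w.2.2) i := by
  obtain ⟨pl', A', B'⟩ := t
  obtain ⟨pl, A, B⟩ := w
  rcases TT_lt h with ⟨⟨rfl, rfl⟩, _⟩ | ⟨⟨rfl, rfl⟩, P, a, Q, rfl, rfl⟩ |
    ⟨⟨rfl, rfl⟩, P, a, Q, rfl, rfl⟩
  · exact le_rfl
  · have := cr_erase_le P a (Q ++ B') i
    simpa using this
  · have := cr_erase_le (A' ++ P) a Q i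
    simpa using this

theorem MM_conv : (TT V I).Conv (MM f x n Z) := by
  rintro ⟨pl, A, B⟩ ht z hz ⟨pl', A', B'⟩ hw hzw
  have hcr : cr (A' ++ B') = n := by
    funext i
    have e1 := TT_cr_le hw i
    have e2 := TT_cr_le hzw i
    have e3 : cr (z.2.1 ++ z.2.2) i = n i := by rw [hz.1.1.2.2.2]
    have e4 : cr (A ++ B) i = n i := by
      have : cr (A ++ B) = n := ht.1.1.2.2.2
      rw [this]
    simp only at e1 e2
    omega
  rcases TT_lt hw with ⟨⟨rfl, rfl⟩, P, p, Q, rfl, rfl⟩ | ⟨⟨rfl, rfl⟩, P, a, Q, rfl, rfl⟩ |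
    ⟨⟨rfl, rfl⟩, P, a, Q, rfl, rfl⟩
  · refine ⟨ht.1, fun q hq => ht.2 q ?_⟩
    have hq' : q ∈ P ++ Q := hq
    rw [List.mem_append] at hq'
    show q ∈ P ++ p :: Q
    rw [List.mem_append, List.mem_cons]
    tauto
  · exact ⟨Pc_erase1 ht.1 hcr, fun q hq => ⟨(ht.2 q hq).1, (ht.2 q hq).2.mono
      (cr_erase_le P a Q)⟩⟩
  · exact ⟨Pc_erase2 ht.1 hcr, fun q hq => ht.2 q hq⟩

theorem MM_acy : (TT V I).Acy (MM f x n Z) := by
  apply BCx.Acy.piecesL MM_conv
  rintro ⟨A, B⟩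
  by_cases h : Pc f x n Z (A, B)
  · obtain ⟨p, hp, hp'⟩ := h.2.2.1
    have : {pl | (pl, (A, B)) ∈ MM f x n Z} =
        {pl | ∀ a ∈ pl, a ∈ {p | p ∈ QQ (gs f x) ⊤ Z ∧ Van f A p}} := by
      ext pl
      exact ⟨fun h => h.2, fun h' => ⟨h, h'⟩⟩
    rw [this]
    exact acy_all (v := p) ⟨hp, hp'⟩
  · have : {pl | (pl, (A, B)) ∈ MM f x n Z} = ∅ := by
      rw [Set.eq_empty_iff_forall_notMem]
      intro pl hpl
      exact h hpl.1
    rw [this]
    exact BCx.acy_empty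

variable (f x n Z) in
/-- no points -/
def M0 : Set (List V × (List (I → Bool) × List (I → Bool))) :=
  {t | t ∈ MM f x n Z ∧ t.1 = []}

theorem M0_clo : (TT V I).Clo (M0 f x n Z) (MM f x n Z) := by
  refine ⟨fun t ht => ht.1, ?_⟩
  rintro ⟨pl, A, B⟩ ⟨_, h⟩ ⟨pl', A', B'⟩ h' hlt
  refine ⟨h', ?_⟩
  have h1 : pl = [] := h
  subst h1
  rcases TT_lt hlt with ⟨_, P, p, Q, h2, _⟩ | ⟨⟨rfl, _⟩, _⟩ | ⟨⟨rfl, _⟩, _⟩
  · simp at h2
  · rfl
  · rfl

/-- the splitting of the generators -/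
theorem M0_HG (hx : x ∈ Ch f) (hZ : Z.Nonempty)
    (Z2 : ∀ p, (∀ i ∈ Z, 0 ≤ gs f x i p) → (∀ i, n i ≠ 0 → f i p = 0) → ∀ i ∈ Z, f i p = 0)
    (k : ℤ) : Nonempty ((TT V I).HG (M0 f x n Z) k ≃+ (LB (I → Bool)).HG (MC f x n) k) := by
  have h := BCx.HG_congr (C := TT V I) (C' := LB (I → Bool)) (S := M0 f x n Z)
    (S' := MC f x n) (fun t => t.2.1 ++ t.2.2) ⟨?_, ?_, ?_⟩ 1 rfl ?_ 0 ?_ k
  · rw [add_zero] at h
    exact h
  · intro t ht
    exact ht.1.1.1
  · rintro ⟨pl, A, B⟩ ⟨h1, h2⟩ ⟨pl', A', B'⟩ ⟨h1', h2'⟩ heq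
    obtain ⟨h3, h4⟩ := Sp_unique h1.1.2 h1'.1.2 heq
    have h2 : pl = [] := h2
    have h2' : pl' = [] := h2'
    simp only at h3 h4
    rw [h2, h2', h3, h4]
  · intro L hL
    obtain ⟨v, hv⟩ := hx
    obtain ⟨i0, hi0⟩ := hZ
    obtain ⟨R, rfl⟩ : ∃ R, L = [x] ++ R := by
      cases L with
      | nil => exact absurd hL.1 (by simp)
      | cons a L =>
        have ha : a = x := by simpa using hL.1
        exact ⟨L, by rw [ha]; rfl⟩
    obtain ⟨A, B, h1, h2⟩ := Sp_exists (f := f) (Z := Z) (A := [x]) (R := R) (x := x) rfl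
      ⟨v, ⟨trivial, fun i _ => (hv i).le, i0, hi0, (hv i0).ne'⟩, fun i hi => absurd rfl hi⟩ (by
      rintro ⟨p, ⟨_, hp1, i, hi, hp2⟩, hp3⟩
      apply hp2
      rw [gs_eq_zero]
      refine Z2 p hp1 (fun j hj => hp3 j ?_) i hi
      rw [hL.2.2.2]
      exact hj)
    refine ⟨([], (A, B)), ⟨⟨⟨?_, h2⟩, fun p hp => absurd hp List.not_mem_nil⟩, rfl⟩, h1.symm⟩
    show A ++ B ∈ _
    rw [← h1]
    exact hL
  · rintro ⟨pl, A, B⟩ ⟨h1, h2⟩ ⟨pl', A', B'⟩ ⟨h1', h2'⟩
    have h2 : pl = [] := h2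
    have h2' : pl' = [] := h2'
    subst h2
    subst h2'
    rw [BCx.tens_snd, LB_deg, List.length_nil, pow_zero, one_mul, one_mul, LB_D]
    apply lbd_apply_append
    · intro A'' hA'' heq
      obtain ⟨P, a, Q, rfl, rfl⟩ := lbd_exists hA''
      have h3 : Pc f x n Z (P ++ Q, B) := by
        apply Pc_erase1 h1.1
        rw [heq]
        exact h1'.1.1.2.2.2
      exact Sp_unique h3.2 h1'.1.2 heq
    · intro B'' hB'' heq
      obtain ⟨P, a, Q, rfl, rfl⟩ := lbd_exists hB''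
      have h3 : Pc f x n Z (A, P ++ Q) := by
        apply Pc_erase2 h1.1
        rw [heq]
        exact h1'.1.1.2.2.2
      exact Sp_unique h3.2 h1'.1.2 heq
  · rintro ⟨pl, A, B⟩ ⟨_, h2⟩
    have h2 : pl = [] := h2
    subst h2
    show ((A ++ B).length : ℤ) = ((([] : List V).length + (A.length + B.length) : ℕ) : ℤ) + 0
    rw [List.length_append, List.length_nil]
    push_cast
    ring

end Pool.Agent.K6.H51.MHA
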