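import Pool.Agent.K6.H51.MHA.Main1

set_option autoImplicit false

/-! The gate. -/

namespace Pool.Agent.K6.H51.MHA

open Finsupp Filter Topology

universe u v

variable {V : Type u} [AddCommGroup V] [Module ℝ V] {I : Type v} {f : I → V →ₗ[ℝ] ℝ}
  {x : I → Bool} {n : I → ℕ} {Z : Finset I}

theorem list_sum_nonneg {φ : V →ₗ[ℝ] ℝ} {pl : List V} (h : ∀ p ∈ pl, 0 ≤ φ p) :
    0 ≤ φ pl.sum := by
  induction pl with
  | nil => simp
  | cons a l ih =>
    rw [List.sum_cons, map_add]
    have h1 := h a List.mem_cons_self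
    have h2 := ih fun p hp => h p (List.mem_cons_of_mem _ hp)
    linarith

theorem list_sum_pos {φ : V →ₗ[ℝ] ℝ} {pl : List V} (h : ∀ p ∈ pl, 0 ≤ φ p)
    (h' : ∃ p ∈ pl, φ p ≠ 0) : 0 < φ pl.sum := by
  induction pl with
  | nil =>
    obtain ⟨p, hp, _⟩ := h'
    exact absurd hp List.not_mem_nil
  | cons a l ih =>
    rw [List.sum_cons, map_add]
    have h1 := h a List.mem_cons_self
    have h2 := list_sum_nonneg fun p hp => h p (List.mem_cons_of_mem _ hp)
    obtain ⟨p, hp, hp'⟩ := h'
    rcases List.mem_cons.1 hp with rfl | hp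
    · have := lt_of_le_of_ne h1 (Ne.symm hp')
      linarith
    · have := ih (fun p hp => h p (List.mem_cons_of_mem _ hp)) ⟨p, hp, hp'⟩
      linarith

theorem list_sum_zero {φ : V →ₗ[ℝ] ℝ} {pl : List V} (h : ∀ p ∈ pl, φ p = 0) :
    φ pl.sum = 0 := by
  induction pl with
  | nil => simp
  | cons a l ih =>
    rw [List.sum_cons, map_add, h a List.mem_cons_self,
      ih fun p hp => h p (List.mem_cons_of_mem _ hp), add_zero]

open Classical in
variable (f x) in
/-- the gate -/
noncomputable def gate (pl : List V) (y : I → Bool) (i : I) : Bool :=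
  if ∀ p ∈ pl, f i p = 0 then y i else x i

theorem gate_mem [Finite I] {pl : List V} {y : I → Bool} (hpl : ∀ p ∈ pl, p ∈ QQ (gs f x) ⊤ Z)
    (hy : y ∈ Ch f) (hyx : ∀ i, i ∉ Z → y i = x i)
    (Z3 : ∃ w : V, (∀ i ∈ Z, f i w = 0) ∧ ∀ i, i ∉ Z → 0 < gs f x i w) :
    gate f x pl y ∈ Ch f := by
  classical
  obtain ⟨w, hw1, hw2⟩ := Z3
  obtain ⟨u, hu⟩ := hy
  have e1 : ∀ᶠ ε in 𝓝[>] (0 : ℝ), ∀ i ∈ Z, 0 < sg (gate f x pl y i) * f i (pl.sum + ε • u) := by
    rw [Filter.eventually_all_finset]
    intro i hi
    by_cases h : ∀ p ∈ pl, f i p = 0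
    · have h1 : gate f x pl y i = y i := if_pos h
      filter_upwards [ev_gt] with ε hε
      rw [h1, map_add, list_sum_zero h, zero_add, map_smul, smul_eq_mul]
      have := mul_pos hε (hu i)
      linarith
    · have h1 : gate f x pl y i = x i := if_neg h
      have h2 : 0 < gs f x i pl.sum := by
        apply list_sum_pos (fun p hp => (hpl p hp).2.1 i hi)
        push Not at h
        obtain ⟨p, hp, hp'⟩ := h
        exact ⟨p, hp, fun h0 => hp' ((gs_eq_zero f x).1 h0)⟩
      filter_upwards [ev_pos (sg (x i) * f i u) h2] with ε hε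
      rw [gs_apply] at hε
      rw [h1, map_add, map_smul, smul_eq_mul]
      linarith
  obtain ⟨ε, hε⟩ := e1.exists
  have e2 : ∀ᶠ δ in 𝓝[>] (0 : ℝ), ∀ i, i ∉ Z → 0 < gs f x i w + δ * gs f x i (pl.sum + ε • u) := by
    rw [Filter.eventually_all]
    intro i
    by_cases hi : i ∈ Z
    · exact Filter.Eventually.of_forall fun _ h => absurd hi h
    · filter_upwards [ev_pos (gs f x i (pl.sum + ε • u)) (hw2 i hi)] with δ hδ
      exact fun _ => hδ
  obtain ⟨δ, hδ1, hδ2⟩ := (e2.and ev_gt).exists
  refine ⟨w + δ • (pl.sum + ε • u), fun i => ?_⟩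
  rw [map_add, map_smul, smul_eq_mul]
  by_cases hi : i ∈ Z
  · rw [hw1 i hi, zero_add]
    have := mul_pos hδ2 (hε i hi)
    linarith
  · have h1 : gate f x pl y i = x i := by
      unfold gate
      split_ifs
      · exact hyx i hi
      · rfl
    have := hδ1 i hi
    rw [gs_apply, gs_apply] at this
    rw [h1]
    linarith

theorem cr_insert {A' B' : List (I → Bool)} {a g y : I → Bool} (h : ∀ i, g i = a i ∨ g i = y i) :
    cr (A' ++ [a] ++ [g] ++ y :: B') = cr (A' ++ [a] ++ y :: B') := by
  funext i
  have e1 : A' ++ [a] ++ [g] ++ y :: B' = A' ++ a :: g :: y :: B' := by simp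
  have e2 : A' ++ [a] ++ y :: B' = A' ++ a :: y :: B' := by simp
  rw [e1, e2, cr_append A' a (g :: y :: B'), cr_append A' a (y :: B'), cr_two, cr_two, cr_two]
  have := dd_btw.2 (h i)
  omega

variable (f x) in
/-- the points do not lie on a hyperplane between `x` and the first element of `B` -/
def gd (pl : List V) (B : List (I → Bool)) : Prop :=
  ∀ y, B.head? = some y → ∀ i, x i ≠ y i → ∃ p ∈ pl, f i p ≠ 0

variable (f x n Z) in
/-- the part which will be shown to be acyclic -/
def Mr : Set (List V × (List (I → Bool) × List (I → Bool))) :=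
  {t | (t ∈ MM f x n Z ∧ t.1 ≠ []) ∧ ¬ (t.2.1 = [x] ∧ gd f x t.1 t.2.2)}

variable (f x n Z) in
/-- the rest -/
def M1 : Set (List V × (List (I → Bool) × List (I → Bool))) :=
  {t | (t ∈ MM f x n Z ∧ t.1 ≠ []) ∧ (t.2.1 = [x] ∧ gd f x t.1 t.2.2)}

variable (f x n Z) in
/-- at least one point -/
def Mp : Set (List V × (List (I → Bool) × List (I → Bool))) :=
  {t | t ∈ MM f x n Z ∧ t.1 ≠ []}

theorem Mp_eq : MM f x n Z \ M0 f x n Z = Mp f x n Z := by
  ext t
  constructor
  · rintro ⟨h1, h2⟩
    exact ⟨h1, fun h => h2 ⟨h1, h⟩⟩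
  · rintro ⟨h1, h2⟩
    exact ⟨h1, fun h => h2 h.2⟩

theorem M1_eq : Mp f x n Z \ Mr f x n Z = M1 f x n Z := by
  ext t
  constructor
  · rintro ⟨h1, h2⟩
    refine ⟨h1, ?_⟩
    by_contra h
    exact h2 ⟨h1, h⟩
  · rintro ⟨h1, h2⟩
    exact ⟨h1, fun h => h.2 h2⟩

theorem Mp_conv : (TT V I).Conv (Mp f x n Z) := by
  rw [← Mp_eq]
  exact M0_clo.conv_right MM_conv

theorem Mr_clo : (TT V I).Clo (Mr f x n Z) (Mp f x n Z) := by
  refine ⟨fun t ht => ht.1, ?_⟩
  rintro ⟨pl, A, B⟩ ⟨h1, h2⟩ ⟨pl', A', B'⟩ h' hlt
  refine ⟨h', ?_⟩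
  rintro ⟨h3, h4⟩
  have h3 : A' = [x] := h3
  subst h3
  have h4 : gd f x pl' B' := h4
  apply h2
  rcases TT_lt hlt with ⟨⟨rfl, rfl⟩, P, p, Q, rfl, rfl⟩ | ⟨⟨rfl, rfl⟩, P, a, Q, rfl, h5⟩ |
    ⟨⟨rfl, rfl⟩, P, a, Q, rfl, rfl⟩
  · refine ⟨rfl, ?_⟩
    intro y hy i hi
    obtain ⟨q, hq, hq'⟩ := h4 y hy i hi
    refine ⟨q, ?_, hq'⟩
    rw [List.mem_append] at hq
    show q ∈ P ++ p :: Q
    rw [List.mem_append, List.mem_cons]
    tauto
  · exfalso
    have h6 : P ++ a :: (Q ++ B') ∈ MC f x n := by
      have := h1.1.1.1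
      simpa using this
    obtain ⟨P', b, c, Q', h7, h8, h9, h10, h11⟩ := MC_erase h6 (by
      intro h
      rw [← List.append_assoc, ← h5] at h
      simp at h) (by
      rw [← List.append_assoc, ← h5]
      exact h'.1.1.1.2.2.2)
    have h12 : P' = [] ∧ b = x ∧ Q = [] := by
      rw [h7, List.append_assoc, List.singleton_append] at h5
      cases P' with
      | nil =>
        rw [List.nil_append] at h5
        have := List.cons.inj h5
        exact ⟨rfl, this.1.symm, this.2.symm⟩
      | cons c P' =>
        rw [List.cons_append] at h5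
        have := (List.cons.inj h5).2
        simp at this
    obtain ⟨rfl, rfl, rfl⟩ := h12
    rw [List.nil_append] at h7 h8
    subst h7
    have hc : B'.head? = some c := by rw [h8]; rfl
    -- a differs from b somewhere
    have hab : ∃ i, b i ≠ a i := by
      by_contra hcon
      push Not at hcon
      have h13 : b = a := funext hcon
      have h14 := h6.2.2.1
      rw [List.singleton_append, List.isChain_cons_cons] at h14
      exact h14.1 h13
    obtain ⟨i, hi⟩ := hab
    have hi2 : b i ≠ c i := by
      rcases h9 i with h | h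
      · exact absurd h.symm hi
      · rw [← h]; exact hi
    obtain ⟨p, hp, hp'⟩ := h4 c hc i hi2
    apply hp'
    have h15 := (h1.1.2 p hp).2
    apply h15
    show cr (b :: a :: []) i ≠ 0
    rw [cr_two, cr_one, add_zero]
    intro h0
    exact hi (dd_eq_zero.1 h0)
  · refine ⟨rfl, ?_⟩
    cases P with
    | cons y P =>
      intro y' hy'
      exact h4 y' (by simpa using hy')
    | nil =>
      intro y' hy' i hi
      have hy' : a = y' := by simpa using hy'
      subst hy'
      have h6 : [x] ++ a :: Q ∈ MC f x n := h1.1.1.1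
      obtain ⟨P', b, c, Q', h7, h8, h9, h10, h11⟩ := MC_erase h6 (by simp) (by
        exact h'.1.1.1.2.2.2)
      have h12 : b = x := by
        cases P' with
        | nil =>
          rw [List.nil_append] at h7
          exact (List.cons.inj h7).1.symm
        | cons c P' =>
          rw [List.cons_append] at h7
          have := (List.cons.inj h7).2
          simp at this
      subst h12
      subst h8
      apply h4 c rfl i
      rcases h9 i with h | h
      · exact absurd h.symm hi
      · rw [← h]; exact hi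

theorem Mr_acy [Finite I] (hx : x ∈ Ch f) (Z1 : ∀ i, n i ≠ 0 → i ∈ Z)
    (Z3 : ∃ w : V, (∀ i ∈ Z, f i w = 0) ∧ ∀ i, i ∉ Z → 0 < gs f x i w) :
    (TT V I).Acy (Mr f x n Z) := by
  classical
  have hconv : (TT V I).Conv (Mr f x n Z) := Mr_clo.conv_left Mp_conv
  apply BCx.Acy.piecesR hconv
  intro pl
  have hconv2 := hconv.sliceR pl
  apply BCx.Acy.piecesL hconv2
  intro B
  have hconv3 := hconv2.sliceL B
  by_cases hpl : pl = []
  · have : {A | A ∈ {A | (A, B) ∈ {y | (pl, y) ∈ Mr f x n Z}}} = ∅ := by
      rw [Set.eq_empty_iff_forall_notMem]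
      intro A hA
      exact hA.1.2 hpl
    rw [Set.setOf_mem_eq] at this
    rw [this]
    exact BCx.acy_empty
  cases B with
  | nil =>
    have : {A | (A, ([] : List (I → Bool))) ∈ {y | (pl, y) ∈ Mr f x n Z}} = ∅ := by
      rw [Set.eq_empty_iff_forall_notMem]
      intro A hA
      obtain ⟨y, B', h⟩ := Sp.ne_nil (show Sp f x Z A [] from hA.1.1.1.2)
      exact absurd h (by simp)
    rw [this]
    exact BCx.acy_empty
  | cons y B =>
    obtain ⟨p0, hp0⟩ := List.exists_mem_of_ne_nil pl hpl
    -- facts
    have hyx : ∀ A, (pl, (A, y :: B)) ∈ Mr f x n Z → ∀ i, i ∉ Z → y i = x i := by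
      intro A hA i hi
      have h1 := hA.1.1.1.1
      have h2 : n i = 0 := by
        by_contra h
        exact hi (Z1 i h)
      have h3 : cr (A ++ y :: B) i = 0 := by
        have : cr (A ++ y :: B) = n := h1.2.2.2
        rw [this, h2]
      have h4 : (A ++ y :: B).head? = some x := h1.1
      exact cr_zero' h3 h4 y (by simp)
    have F2 : ∀ A a, (pl, (A ++ [a], y :: B)) ∈ MM f x n Z → ∀ i,
        (∀ p ∈ pl, f i p = 0) ∨ (a i = x i ∧ cr (A ++ [a]) i = 0) := by
      intro A a hA i
      by_cases h : ∀ p ∈ pl, f i p = 0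
      · exact Or.inl h
      · right
        push Not at h
        obtain ⟨p, hp, hp'⟩ := h
        have h1 := (hA.2 p hp).2
        have h2 : cr (A ++ [a]) i = 0 := by
          by_contra h3
          exact hp' (h1 i h3)
        exact ⟨cr_zero' h2 hA.1.2.1 a (by simp), h2⟩
    have F3 : ∀ A a, (pl, (A ++ [a], y :: B)) ∈ MM f x n Z → ∀ i,
        gate f x pl y i = a i ∨ gate f x pl y i = y i := by
      intro A a hA i
      rcases F2 A a hA i with h | h
      · exact Or.inr (if_pos h)
      · by_cases h' : ∀ p ∈ pl, f i p = 0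
        · exact Or.inr (if_pos h')
        · left
          rw [h.1]
          exact if_neg h'
    have F4 : ∀ A a, (pl, (A ++ [a], y :: B)) ∈ MM f x n Z → gate f x pl y ≠ y := by
      intro A a hA hgy
      apply hA.1.2.2.2
      refine ⟨p0, (hA.2 p0 hp0).1, ?_⟩
      intro i hi
      rcases F2 A a hA i with h | h
      · exact h p0 hp0
      · by_cases h' : ∀ p ∈ pl, f i p = 0
        · exact h' p0 hp0
        · exfalso
          apply hi
          show cr (A ++ [a] ++ [y]) i = 0
          rw [cr_snoc, h.2, zero_add, dd_eq_zero, h.1]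
          have h1 : gate f x pl y i = x i := if_neg h'
          rw [← h1, hgy]
    have F5 : ∀ A a p, (pl, (A ++ [a], y :: B)) ∈ MM f x n Z → p ∈ pl →
        Van f (A ++ [a] ++ [gate f x pl y]) p := by
      intro A a p hA hp i hi
      rcases F2 A a hA i with h | h
      · exact h p hp
      · by_cases h' : ∀ p ∈ pl, f i p = 0
        · exact h' p hp
        · exfalso
          apply hi
          rw [cr_snoc, h.2, zero_add, dd_eq_zero, h.1]
          exact (if_neg h').symm
    have hsnoc : ∀ A, (pl, (A, y :: B)) ∈ MM f x n Z → ∃ A' a, A = A' ++ [a] := by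
      intro A hA
      rcases List.eq_nil_or_concat A with rfl | ⟨A', a, rfl⟩
      · exact absurd rfl hA.1.2.ne_nil'
      · exact ⟨A', a, List.concat_eq_append⟩
    have hσ : ∀ A, (pl, (A, y :: B)) ∈ Mr f x n Z → A.getLast? ≠ some (gate f x pl y) →
        (pl, (A ++ [gate f x pl y], y :: B)) ∈ Mr f x n Z := by
      intro A hA hlast
      obtain ⟨A, a, rfl⟩ := hsnoc A hA.1.1
      have hag : a ≠ gate f x pl y := by
        rintro h
        apply hlast
        rw [← h]
        simp
      have h3 := F3 A a hA.1.1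
      have h4 := F4 A a hA.1.1
      have h5 := fun p hp => F5 A a p hA.1.1 hp
      have hMC : A ++ [a] ++ y :: B ∈ MC f x n := hA.1.1.1.1
      refine ⟨⟨⟨⟨⟨?_, ?_, ?_, ?_⟩, ?_, ?_, ?_⟩, ?_⟩, hpl⟩, ?_⟩
      · have := hMC.1
        show (A ++ [a] ++ [gate f x pl y] ++ y :: B).head? = some x
        rw [← this]
        cases A <;> rfl
      · intro b hb
        have hb : b ∈ A ++ [a] ++ [gate f x pl y] ++ y :: B := hb
        by_cases hbg : b = gate f x pl y
        · rw [hbg]
          exact gate_mem (fun p hp => (hA.1.1.2 p hp).1) (hMC.2.1 y (by simp))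
            (hyx _ hA) Z3
        · apply hMC.2.1
          simp only [List.mem_append, List.mem_cons, List.not_mem_nil, or_false] at hb ⊢
          tauto
      · show (A ++ [a] ++ [gate f x pl y] ++ y :: B).IsChain (· ≠ ·)
        have h6 := hMC.2.2.1
        rw [List.append_assoc, List.singleton_append, List.isChain_append,
          List.isChain_cons_cons] at h6
        obtain ⟨h7, ⟨h8, h9⟩, h10⟩ := h6
        have e1 : A ++ [a] ++ [gate f x pl y] ++ y :: B = A ++ a :: gate f x pl y :: y :: B := by
          simp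
        rw [e1, List.isChain_append, List.isChain_cons_cons, List.isChain_cons_cons]
        refine ⟨h7, ⟨hag, h4, h9⟩, ?_⟩
        intro b hb c hc
        exact h10 b hb c (by simpa using hc)
      · show cr (A ++ [a] ++ [gate f x pl y] ++ y :: B) = n
        rw [cr_insert h3]
        exact hMC.2.2.2
      · have := hMC.1
        show (A ++ [a] ++ [gate f x pl y]).head? = some x
        rw [← this]
        cases A <;> rfl
      · exact ⟨p0, (hA.1.1.2 p0 hp0).1, h5 p0 hp0⟩
      · intro h6
        apply hA.1.1.1.2.2.2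
        apply h6.mono
        intro i
        have e1 : A ++ [a] ++ [gate f x pl y] ++ (y :: B).take 1 =
            A ++ [a] ++ [gate f x pl y] ++ y :: [] := rfl
        show cr (A ++ [a] ++ y :: []) i ≤ cr (A ++ [a] ++ [gate f x pl y] ++ y :: []) i
        rw [cr_insert h3]
      · intro p hp
        exact ⟨(hA.1.1.2 p hp).1, h5 p hp⟩
      · rintro ⟨h6, _⟩
        have h6 : A ++ [a] ++ [gate f x pl y] = [x] := h6
        have h7 := congrArg List.length h6
        simp at h7
    refine BCx.Acy.matching hconv3 (S0 := {A | (pl, (A, y :: B)) ∈ Mr f x n Z ∧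
      A.getLast? ≠ some (gate f x pl y)}) (fun A hA => hA.1) (fun A => A ++ [gate f x pl y])
      ?_ ?_ ?_ ?_
    · rintro A ⟨hA, hlast⟩
      refine ⟨hσ A hA hlast, fun h => h.2 ?_⟩
      simp
    · rintro A ⟨hA, hlast⟩
      have hA : (pl, (A, y :: B)) ∈ Mr f x n Z := hA
      have hlast : A.getLast? = some (gate f x pl y) := by
        by_contra h
        exact hlast ⟨hA, h⟩
      obtain ⟨A, a, rfl⟩ := hsnoc A hA.1.1
      have hag : a = gate f x pl y := by simpa using hlast
      subst hag
      rcases List.eq_nil_or_concat A with rfl | ⟨A', a, rfl⟩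
      · exfalso
        apply hA.2
        have h1 : gate f x pl y = x := by
          have := hA.1.1.1.2.1
          simpa using this
        refine ⟨?_, ?_⟩
        · show [gate f x pl y] = [x]
          rw [h1]
        · intro y' hy' i hi
          have hy' : y = y' := by simpa using hy'
          subst hy'
          by_contra hcon
          push Not at hcon
          apply hi
          have h2 : gate f x pl y i = y i := if_pos hcon
          rw [← h2, h1]
      · rw [List.concat_eq_append] at *
        have hMC : A' ++ [a] ++ [gate f x pl y] ++ y :: B ∈ MC f x n := hA.1.1.1.1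
        have hV : ∀ p ∈ pl, Van f (A' ++ [a]) p := fun p hp =>
          (hA.1.1.2 p hp).2.mono (cr_le_append _ _)
        have hE : ∀ i, (∀ p ∈ pl, f i p = 0) ∨ a i = x i := by
          intro i
          by_cases h : ∀ p ∈ pl, f i p = 0
          · exact Or.inl h
          · right
            push Not at h
            obtain ⟨p, hp, hp'⟩ := h
            have h2 : cr (A' ++ [a]) i = 0 := by
              by_contra h3
              exact hp' (hV p hp i h3)
            refine cr_zero' h2 ?_ a (by simp)
            have := hMC.1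
            rw [← this]
            cases A' <;> rfl
        have h3 : ∀ i, gate f x pl y i = a i ∨ gate f x pl y i = y i := by
          intro i
          by_cases h' : ∀ p ∈ pl, f i p = 0
          · exact Or.inr (if_pos h')
          · left
            rw [(hE i).resolve_left h']
            exact if_neg h'
        have h4 : Pc f x n Z (A' ++ [a] ++ [], y :: B) := by
          apply Pc_erase1 (a := gate f x pl y)
          · exact hA.1.1.1
          · rw [List.append_nil, ← cr_insert h3]
            exact hMC.2.2.2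
        rw [List.append_nil] at h4
        have h5 := hMC.2.2.1
        have e1 : A' ++ [a] ++ [gate f x pl y] ++ y :: B = A' ++ a :: gate f x pl y :: y :: B := by
          simp
        rw [e1, List.isChain_append, List.isChain_cons_cons, List.isChain_cons_cons] at h5
        have hag : a ≠ gate f x pl y := h5.2.1.1
        refine ⟨A' ++ [a], ⟨⟨⟨⟨h4, fun p hp => ⟨(hA.1.1.2 p hp).1, hV p hp⟩⟩, hpl⟩, ?_⟩, ?_⟩, rfl⟩
        · rintro ⟨h6, h7⟩
          have h6 : A' ++ [a] = [x] := h6
          have h8 : a = x := by
            cases A' with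
            | nil => exact (List.cons.inj h6).1
            | cons c A' =>
              have := congrArg List.length h6
              simp at this
          apply hag
          rw [h8]
          funext i
          by_cases h' : ∀ p ∈ pl, f i p = 0
          · have h9 : gate f x pl y i = y i := if_pos h'
            rw [h9]
            by_contra h10
            obtain ⟨p, hp, hp'⟩ := h7 y rfl i h10
            exact hp' (h' p hp)
          · exact (if_neg h').symm
        · intro h6
          apply hag
          simpa using h6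
    · rintro A ⟨hA, hlast⟩
      have h1 := (hσ A hA hlast).1.1.1.1.2.2.1
      have h1 : (A ++ [gate f x pl y] ++ y :: B).IsChain (· ≠ ·) := h1
      rw [List.isChain_append] at h1
      rw [LB_D, lbd_snoc A _ h1.1]
      exact isUnit_neg_one.pow _
    · rintro A ⟨hA, hlast⟩ A' ⟨hA', hlast'⟩ hne
      by_contra hcon
      rw [LB_D] at hcon
      obtain ⟨P, a, Q, h1, h2⟩ := lbd_exists hcon
      rcases List.eq_nil_or_concat Q with rfl | ⟨Q, b, rfl⟩
      · rw [List.append_nil] at h2
        subst h2
        apply hne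
        have := (List.append_inj' h1 rfl).1
        exact this.symm
      · apply hlast'
        rw [List.concat_eq_append] at h1 h2
        rw [h2]
        have h3 := congrArg List.getLast? h1
        have e1 : P ++ a :: (Q ++ [b]) = (P ++ a :: Q) ++ [b] := by simp
        rw [e1] at h3
        rw [← List.append_assoc]
        simp only [List.getLast?_append, List.getLast?_singleton, Option.some_or] at h3 ⊢
        exact h3.symm

end Pool.Agent.K6.H51.MHA
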