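import Pool.Agent.K6.H51.MHA.Main2

set_option autoImplicit false

/-! The recursion for the homology of the generators with given crossing numbers. -/

namespace Pool.Agent.K6.H51.MHA

open Finsupp Filter Topology

universe u v

variable {V : Type u} [AddCommGroup V] [Module ℝ V] {I : Type v} {f : I → V →ₗ[ℝ] ℝ}
  {x : I → Bool} {n : I → ℕ} {Z : Finset I}

open Classical in
/-- the opposite sign vector on `Z` -/
noncomputable def fl (Z : Finset I) (x : I → Bool) (i : I) : Bool := if i ∈ Z then !x i else x i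

theorem fl_mem {i : I} (h : i ∈ Z) : fl Z x i = !x i := if_pos h

theorem fl_notMem {i : I} (h : i ∉ Z) : fl Z x i = x i := if_neg h

theorem fl_Ch [Finite I] (hx : x ∈ Ch f)
    (Z3 : ∃ w : V, (∀ i ∈ Z, f i w = 0) ∧ ∀ i, i ∉ Z → 0 < gs f x i w) : fl Z x ∈ Ch f := by
  obtain ⟨w, hw1, hw2⟩ := Z3
  obtain ⟨v, hv⟩ := hx
  have e2 : ∀ᶠ δ in 𝓝[>] (0 : ℝ), ∀ i, i ∉ Z → 0 < gs f x i w + δ * gs f x i (-v) := by
    rw [Filter.eventually_all]
    intro i
    by_cases hi : i ∈ Z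
    · exact Filter.Eventually.of_forall fun _ h => absurd hi h
    · filter_upwards [ev_pos (gs f x i (-v)) (hw2 i hi)] with δ hδ
      exact fun _ => hδ
  obtain ⟨δ, hδ1, hδ2⟩ := (e2.and ev_gt).exists
  refine ⟨w + δ • (-v), fun i => ?_⟩
  by_cases hi : i ∈ Z
  · rw [fl_mem hi, map_add, hw1 i hi, zero_add, map_smul, smul_eq_mul, map_neg, sg_not]
    have := mul_pos hδ2 (hv i)
    linarith
  · have := hδ1 i hi
    rw [fl_notMem hi, map_add, map_smul, smul_eq_mul]
    rw [gs_apply, gs_apply] at this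
    linarith

theorem M1_conv : (TT V I).Conv (M1 f x n Z) := by
  rw [← M1_eq]
  exact Mr_clo.conv_right Mp_conv

variable (f x n Z) in
/-- the part with the opposite chamber -/
def Mo : Set (List V × (List (I → Bool) × List (I → Bool))) :=
  {t | t ∈ M1 f x n Z ∧ t.2.2.head? = some (fl Z x)}

theorem off_Z (Z1 : ∀ i, n i ≠ 0 → i ∈ Z) {A B : List (I → Bool)} (h : A ++ B ∈ MC f x n)
    {i : I} (hi : i ∉ Z) : ∀ y ∈ B, y i = x i := by
  intro y hy
  have h3 : cr (A ++ B) i = 0 := by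
    rw [h.2.2.2]
    by_contra h'
    exact hi (Z1 i h')
  exact cr_zero' h3 h.1 y (List.mem_append_right _ hy)

theorem Mo_clo (Z1 : ∀ i, n i ≠ 0 → i ∈ Z) : (TT V I).Clo (Mo f x n Z) (M1 f x n Z) := by
  refine ⟨fun t ht => ht.1, ?_⟩
  rintro ⟨pl, A, B⟩ ⟨h1, h2⟩ ⟨pl', A', B'⟩ h' hlt
  have h2 : B.head? = some (fl Z x) := h2
  refine ⟨h', ?_⟩
  show B'.head? = some (fl Z x)
  rcases TT_lt hlt with ⟨⟨rfl, rfl⟩, P, p, Q, rfl, rfl⟩ | ⟨⟨rfl, rfl⟩, P, a, Q, rfl, h5⟩ |
    ⟨⟨rfl, rfl⟩, P, a, Q, rfl, rfl⟩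
  · exact h2
  · exact h2
  · cases P with
    | cons y P => simpa using h2
    | nil =>
      have ha : a = fl Z x := by simpa using h2
      have hA : A' = [x] := h1.2.1
      subst hA
      have h6 : [x] ++ a :: Q ∈ MC f x n := h1.1.1.1.1
      obtain ⟨P', b, c, Q', h7, h8, h9, h10, h11⟩ := MC_erase h6 (by simp) (by
        exact h'.1.1.1.1.2.2.2)
      have h12 : b = x := by
        cases P' with
        | nil =>
          rw [List.nil_append] at h7
          exact (List.cons.inj h7).1.symm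
        | cons c P' =>
          rw [List.cons_append] at h7
          have := (List.cons.inj h7).2
          simp at this
      subst h12
      subst h8
      have hc : c = fl Z b := by
        funext i
        by_cases hi : i ∈ Z
        · rcases h9 i with h | h
          · rw [ha, fl_mem hi] at h
            exact absurd h (by simp)
          · rw [← h, ha]
        · rw [fl_notMem hi]
          exact off_Z Z1 h6 hi c (by simp)
      rw [hc]
      rfl

theorem Mo_acy [FiniteDimensional ℝ V] (hx : x ∈ Ch f) (Z1 : ∀ i, n i ≠ 0 → i ∈ Z) :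
    (TT V I).Acy (M1 f x n Z \ Mo f x n Z) := by
  classical
  apply BCx.Acy.piecesL ((Mo_clo Z1).conv_right M1_conv)
  rintro ⟨A, B⟩
  by_cases hc : Pc f x n Z (A, B) ∧ A = [x] ∧ B.head? ≠ some (fl Z x)
  · obtain ⟨h1, rfl, h3⟩ := hc
    obtain ⟨y, B', rfl⟩ := h1.2.ne_nil
    have hMC : [x] ++ y :: B' ∈ MC f x n := h1.1
    have hsep : ∀ i, x i ≠ y i → i ∈ Z := by
      intro i hi
      by_contra hiZ
      exact hi (off_Z Z1 hMC hiZ y (by simp)).symm
    have hset : {pl | (pl, ([x], y :: B')) ∈ M1 f x n Z \ Mo f x n Z} =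
        RR (gs f x) ⊤ Z (Z.filter fun i => x i ≠ y i) := by
      ext pl
      constructor
      · rintro ⟨h4, _⟩
        refine ⟨h4.1.2, fun v hv => (h4.1.1.2 v hv).1, fun i hi => ?_⟩
        obtain ⟨v, hv, hv'⟩ := h4.2.2 y rfl i (Finset.mem_filter.1 hi).2
        exact ⟨v, hv, fun h0 => hv' ((gs_eq_zero f x).1 h0)⟩
      · rintro ⟨h4, h5, h6⟩
        refine ⟨⟨⟨⟨h1, fun p hp => ⟨h5 p hp, fun i hi => absurd rfl hi⟩⟩, h4⟩, rfl, ?_⟩,
          fun h => h3 h.2⟩
        intro y' hy' i hi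
        have hy' : y = y' := by simpa using hy'
        subst hy'
        obtain ⟨v, hv, hv'⟩ := h6 i (Finset.mem_filter.2 ⟨hsep i hi, hi⟩)
        exact ⟨v, hv, fun h0 => hv' ((gs_eq_zero f x).2 h0)⟩
    rw [hset]
    obtain ⟨v, hv⟩ := hx
    obtain ⟨w, hw⟩ := hMC.2.1 y (by simp)
    refine (vis (g := gs f x) (Z.card + (Z.filter fun i => x i ≠ y i).card) ⊤ Z
      (Z.filter fun i => x i ≠ y i) le_rfl (Finset.filter_subset _ _) ?_ v trivial
      (fun i _ => hv i) w trivial ?_ ?_).1 ?_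
    · have hne : ∃ i, x i ≠ y i := by
        by_contra hcon
        push Not at hcon
        have h13 : x = y := funext hcon
        have h14 := hMC.2.2.1
        rw [List.singleton_append, List.isChain_cons_cons] at h14
        exact h14.1 h13
      obtain ⟨i, hi⟩ := hne
      exact ⟨i, Finset.mem_filter.2 ⟨hsep i hi, hi⟩⟩
    · intro i hi
      have h4 := (Finset.mem_filter.1 hi).2
      have h5 : x i = !y i := by
        revert h4
        cases x i <;> cases y i <;> simp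
      rw [gs_apply, h5, sg_not]
      have := hw i
      linarith
    · intro i hi hi'
      have h5 : x i = y i := by
        by_contra h6
        exact hi' (Finset.mem_filter.2 ⟨hi, h6⟩)
      rw [gs_apply, h5]
      exact hw i
    · intro heq
      apply h3
      have : y = fl Z x := by
        funext i
        by_cases hi : i ∈ Z
        · have h4 : i ∈ Z.filter fun i => x i ≠ y i := by rw [heq]; exact hi
          have h5 := (Finset.mem_filter.1 h4).2
          rw [fl_mem hi]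
          revert h5
          cases x i <;> cases y i <;> simp
        · rw [fl_notMem hi]
          exact off_Z Z1 hMC hi y (by simp)
      rw [this]
      rfl
  · have : {pl | (pl, (A, B)) ∈ M1 f x n Z \ Mo f x n Z} = ∅ := by
      rw [Set.eq_empty_iff_forall_notMem]
      rintro pl ⟨h1, h2⟩
      exact hc ⟨h1.1.1.1, h1.2.1, fun h => h2 ⟨h1, h⟩⟩
    rw [this]
    exact BCx.acy_empty

/-- the reduction to the part with the opposite chamber -/
theorem HG_red [Finite I] [FiniteDimensional ℝ V] (hx : x ∈ Ch f) (hZ : Z.Nonempty)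
    (Z1 : ∀ i, n i ≠ 0 → i ∈ Z)
    (Z2 : ∀ p, (∀ i ∈ Z, 0 ≤ gs f x i p) → (∀ i, n i ≠ 0 → f i p = 0) → ∀ i ∈ Z, f i p = 0)
    (Z3 : ∃ w : V, (∀ i ∈ Z, f i w = 0) ∧ ∀ i, i ∉ Z → 0 < gs f x i w) (k : ℤ) :
    Nonempty ((LB (I → Bool)).HG (MC f x n) k ≃+ (TT V I).HG (Mo f x n Z) (k + 1)) := by
  obtain ⟨e1⟩ := M0_HG hx hZ Z2 k
  obtain ⟨e2⟩ := BCx.HG_conn (C := TT V I) M0_clo MM_conv MM_acy (S := MM f x n Z)
    (S1 := M0 f x n Z) k
  obtain ⟨e3⟩ := BCx.HG_quot (C := TT V I) (S1 := Mr f x n Z) (S := Mp f x n Z) Mr_clo Mp_conv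
    (Mr_acy hx Z1 Z3) (k + 1)
  obtain ⟨e4⟩ := BCx.HG_sub (C := TT V I) (S1 := Mo f x n Z) (S := M1 f x n Z) (Mo_clo Z1)
    M1_conv (Mo_acy hx Z1) (k + 1)
  rw [Mp_eq] at e2
  rw [M1_eq] at e3
  exact ⟨e1.symm.trans (e2.symm.trans (e3.trans e4.symm))⟩

theorem step_zero [Finite I] [FiniteDimensional ℝ V] (hx : x ∈ Ch f)
    (Z1 : ∀ i, n i ≠ 0 → i ∈ Z)
    (Z2 : ∀ p, (∀ i ∈ Z, 0 ≤ gs f x i p) → (∀ i, n i ≠ 0 → f i p = 0) → ∀ i ∈ Z, f i p = 0)
    (Z3 : ∃ w : V, (∀ i ∈ Z, f i w = 0) ∧ ∀ i, i ∉ Z → 0 < gs f x i w)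
    (h : ∃ i ∈ Z, n i = 0) (k : ℤ) : Subsingleton ((LB (I → Bool)).HG (MC f x n) k) := by
  obtain ⟨i0, hi0, hi0'⟩ := h
  obtain ⟨e⟩ := HG_red hx ⟨i0, hi0⟩ Z1 Z2 Z3 k
  have hMo : Mo f x n Z = ∅ := by
    rw [Set.eq_empty_iff_forall_notMem]
    rintro ⟨pl, A, B⟩ ⟨h1, h2⟩
    have h2 : B.head? = some (fl Z x) := h2
    obtain ⟨B', rfl⟩ : ∃ B', B = fl Z x :: B' := by
      cases B with
      | nil => simp at h2
      | cons y B => exact ⟨B, by simpa using h2⟩
    have hMC : A ++ fl Z x :: B' ∈ MC f x n := h1.1.1.1.1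
    have h3 : cr (A ++ fl Z x :: B') i0 = 0 := by rw [hMC.2.2.2, hi0']
    have h4 := cr_zero' h3 hMC.1 (fl Z x) (by simp)
    rw [fl_mem hi0] at h4
    simp at h4
  rw [hMo] at e
  have := BCx.subsingleton_of_acy (C := TT V I) BCx.acy_empty (k + 1)
  exact e.toEquiv.subsingleton

theorem step_succ [Finite I] [FiniteDimensional ℝ V] (hx : x ∈ Ch f) (hZ : Z.Nonempty)
    (Z1 : ∀ i, n i ≠ 0 ↔ i ∈ Z)
    (Z3 : ∃ w : V, (∀ i ∈ Z, f i w = 0) ∧ ∀ i, i ∉ Z → 0 < gs f x i w) {r : ℕ}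
    (hr : Module.finrank ℝ V = Module.finrank ℝ ↥(⨅ i ∈ Z, LinearMap.ker (f i)) + r) (k : ℤ) :
    Nonempty ((LB (I → Bool)).HG (MC f x n) k ≃+
      (LB (I → Bool)).HG (MC f (fl Z x) fun i => n i - 1) (k - r)) := by
  classical
  have Z2 : ∀ p, (∀ i ∈ Z, 0 ≤ gs f x i p) → (∀ i, n i ≠ 0 → f i p = 0) → ∀ i ∈ Z, f i p = 0 :=
    fun p _ h i hi => h i ((Z1 i).2 hi)
  obtain ⟨e⟩ := HG_red hx hZ (fun i hi => (Z1 i).1 hi) Z2 Z3 k
  have hxfl : x ≠ fl Z x := by
    obtain ⟨i, hi⟩ := hZ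
    intro h
    have := congrFun h i
    rw [fl_mem hi] at this
    simp at this
  have hsep : ∀ i, x i ≠ fl Z x i ↔ i ∈ Z := by
    intro i
    by_cases hi : i ∈ Z
    · rw [fl_mem hi]; simp [hi]
    · rw [fl_notMem hi]; simp [hi]
  have hMo : Mo f x n Z = RR (gs f x) ⊤ Z Z ×ˢ (({[x]} : Set (List (I → Bool))) ×ˢ
      MC f (fl Z x) fun i => n i - 1) := by
    ext ⟨pl, A, B⟩
    constructor
    · rintro ⟨h1, h2⟩
      have h2 : B.head? = some (fl Z x) := h2
      have hA : A = [x] := h1.2.1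
      subst hA
      obtain ⟨B', rfl⟩ : ∃ B', B = fl Z x :: B' := by
        cases B with
        | nil => simp at h2
        | cons y B => exact ⟨B, by simpa using h2⟩
      have hMC : [x] ++ fl Z x :: B' ∈ MC f x n := h1.1.1.1.1
      refine ⟨⟨h1.1.2, fun v hv => (h1.1.1.2 v hv).1, fun i hi => ?_⟩, rfl, ?_⟩
      · obtain ⟨v, hv, hv'⟩ := h1.2.2 (fl Z x) rfl i ((hsep i).2 hi)
        exact ⟨v, hv, fun h0 => hv' ((gs_eq_zero f x).1 h0)⟩
      · refine ⟨rfl, fun a ha => hMC.2.1 a (List.mem_append_right _ ha), ?_, ?_⟩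
        · have := hMC.2.2.1
          rw [List.isChain_append] at this
          exact this.2.1
        · funext i
          have h3 : cr (x :: fl Z x :: B') i = n i := congrFun hMC.2.2.2 i
          rw [cr_two] at h3
          show cr (fl Z x :: B') i = n i - 1
          by_cases hi : i ∈ Z
          · have h4 : dd x (fl Z x) i = 1 := if_neg ((hsep i).2 hi)
            omega
          · have h4 : n i = 0 := by
              by_contra h5
              exact hi ((Z1 i).1 h5)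
            omega
    · rintro ⟨⟨h1, h2, h3⟩, h4, h5⟩
      have h4 : A = [x] := h4
      subst h4
      have h5 : B ∈ MC f (fl Z x) fun i => n i - 1 := h5
      obtain ⟨B', rfl⟩ : ∃ B', B = fl Z x :: B' := by
        cases B with
        | nil => exact absurd h5.1 (by simp)
        | cons y B => exact ⟨B, by simpa using h5.1⟩
      have hMC : [x] ++ fl Z x :: B' ∈ MC f x n := by
        refine ⟨rfl, ?_, ?_, ?_⟩
        · intro a ha
          rcases List.mem_cons.1 ha with rfl | ha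
          · exact hx
          · exact h5.2.1 a ha
        · rw [List.singleton_append, List.isChain_cons_cons]
          exact ⟨hxfl, h5.2.2.1⟩
        · funext i
          show cr (x :: fl Z x :: B') i = n i
          rw [cr_two, congrFun h5.2.2.2 i]
          by_cases hi : i ∈ Z
          · have h6 : dd x (fl Z x) i = 1 := if_neg ((hsep i).2 hi)
            have := (Z1 i).2 hi
            omega
          · have h4 : n i = 0 := by
              by_contra h5
              exact hi ((Z1 i).1 h5)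
            have h6 : dd x (fl Z x) i = 0 := by
              rw [dd_eq_zero, fl_notMem hi]
            omega
      refine ⟨⟨⟨⟨⟨hMC, rfl, ?_, ?_⟩, fun p hp => ⟨h2 p hp, fun i hi => absurd rfl hi⟩⟩, h1⟩,
        rfl, ?_⟩, rfl⟩
      · obtain ⟨v, hv⟩ := hx
        obtain ⟨i0, hi0⟩ := hZ
        exact ⟨v, ⟨trivial, fun i _ => (hv i).le, i0, hi0, (hv i0).ne'⟩,
          fun i hi => absurd rfl hi⟩
      · rintro ⟨p, ⟨_, _, i, hi, hp⟩, hp'⟩
        apply hp
        rw [gs_eq_zero]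
        apply hp'
        show cr (x :: fl Z x :: []) i ≠ 0
        rw [cr_two, cr_one, add_zero]
        intro h0
        exact (hsep i).2 hi (dd_eq_zero.1 h0)
      · intro y' hy' i hi
        have hy' : fl Z x = y' := by simpa using hy'
        subst hy'
        obtain ⟨v, hv, hv'⟩ := h3 i ((hsep i).1 hi)
        exact ⟨v, hv, fun h0 => hv' ((gs_eq_zero f x).2 h0)⟩
  rw [hMo] at e
  -- the sphere
  have hsph : Sph r (RR (gs f x) ⊤ Z Z) := by
    obtain ⟨v, hv⟩ := id hx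
    refine (vis (g := gs f x) (Z.card + Z.card) ⊤ Z Z le_rfl (Finset.Subset.refl _) hZ v trivial
      (fun i _ => hv i) (-v) trivial (fun i _ => ?_) (fun i hi hi' => absurd hi hi')).2 rfl r ?_
    · rw [map_neg]
      have h1 : 0 < gs f x i v := hv i
      linarith
    · have h1 : (⊤ ⊓ ⨅ i ∈ Z, LinearMap.ker (gs f x i) : Submodule ℝ V) =
          ⨅ i ∈ Z, LinearMap.ker (f i) := by
        rw [top_inf_eq]
        ext v
        simp only [Submodule.mem_iInf, LinearMap.mem_ker, gs_eq_zero]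
      rw [finrank_top, hr, h1]
  have hsing : (LB (I → Bool)).Conv ({[x]} : Set (List (I → Bool))) := by
    rintro a rfl b rfl c h1 h2
    have h3 := (LB (I → Bool)).D_deg _ _ h1
    have h4 := (LB (I → Bool)).D_deg _ _ h2
    omega
  obtain ⟨e2⟩ := hsph.HG (C' := (LB (I → Bool)).tens (LB (I → Bool)))
    (BCx.Conv.prod hsing (MC_conv (f := f) (fl Z x) fun i => n i - 1)) (k + 1 - r)
  rw [sub_add_cancel] at e2
  have h3 := BCx.HG_congr (C := TT V I) (C' := LB (I → Bool))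
    (S := ({[]} : Set (List V)) ×ˢ (({[x]} : Set (List (I → Bool))) ×ˢ
      MC f (fl Z x) fun i => n i - 1)) (S' := MC f (fl Z x) fun i => n i - 1)
    (fun t => t.2.2) ⟨?_, ?_, ?_⟩ (-1) rfl ?_ (-1) ?_ (k + 1 - r)
  · obtain ⟨e3⟩ := h3
    have h4 : k + 1 - (r : ℤ) + -1 = k - r := by ring
    rw [h4] at e3
    exact ⟨e.trans (e2.trans e3)⟩
  · rintro ⟨pl, A, B⟩ ⟨_, _, h⟩
    exact h
  · rintro ⟨pl, A, B⟩ ⟨h1, h2, _⟩ ⟨pl', A', B'⟩ ⟨h1', h2', _⟩ heq
    have h1 : pl = [] := h1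
    have h1' : pl' = [] := h1'
    have h2 : A = [x] := h2
    have h2' : A' = [x] := h2'
    have heq : B = B' := heq
    rw [h1, h1', h2, h2', heq]
  · intro B hB
    exact ⟨([], ([x], B)), ⟨rfl, rfl, hB⟩, rfl⟩
  · rintro ⟨pl, A, B⟩ ⟨h1, h2, _⟩ ⟨pl', A', B'⟩ ⟨h1', h2', _⟩
    have h1 : pl = [] := h1
    have h1' : pl' = [] := h1'
    have h2 : A = [x] := h2
    have h2' : A' = [x] := h2'
    subst h1 h1' h2 h2'
    rw [BCx.tens_snd, BCx.tens_snd, LB_deg, LB_deg, List.length_nil, pow_zero, one_mul]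
    show (LB (I → Bool)).D (single B 1) B' =
      -1 * ((-1) ^ 1 * (LB (I → Bool)).D (single B 1) B')
    ring
  · rintro ⟨pl, A, B⟩ ⟨h1, h2, _⟩
    have h1 : pl = [] := h1
    have h2 : A = [x] := h2
    subst h1 h2
    show (B.length : ℤ) = ((([] : List V).length + ([x].length + B.length) : ℕ) : ℤ) + -1
    rw [List.length_nil, List.length_singleton]
    push_cast
    ring

end Pool.Agent.K6.H51.MHA
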