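import Pool.Agent.K6.H51.MHA.Cx2

set_option autoImplicit false

/-! Tensor products of based complexes, isomorphisms of based complexes. -/

namespace Pool.Agent.K6.H51.MHA

open Finsupp

universe u v

variable {X : Type u} {Y : Type v}

/-- the product of two elements of free abelian groups -/
noncomputable def tn : (X →₀ ℤ) →+ (Y →₀ ℤ) →+ (X × Y →₀ ℤ) :=
  Finsupp.liftAddHom fun x => (zmultiplesHom _)
    (Finsupp.liftAddHom fun y => (zmultiplesHom _) (single (x, y) (1 : ℤ)))

theorem tn_single_single (x : X) (y : Y) (a b : ℤ) :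
    tn (single x a) (single y b) = single (x, y) (a * b) := by
  unfold tn
  rw [Finsupp.liftAddHom_apply_single, zmultiplesHom_apply, AddMonoidHom.coe_smul, Pi.smul_apply,
    Finsupp.liftAddHom_apply_single, zmultiplesHom_apply, Finsupp.smul_single, Finsupp.smul_single]
  congr 1
  simp

theorem tn_apply (u : X →₀ ℤ) (v : Y →₀ ℤ) (x : X) (y : Y) : tn u v (x, y) = u x * v y := by
  induction u using Finsupp.induction_linear with
  | zero => simp
  | add f g hf hg =>
    rw [map_add, AddMonoidHom.add_apply, Finsupp.add_apply, hf, hg, Finsupp.add_apply, add_mul]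
  | single x' a =>
    induction v using Finsupp.induction_linear with
    | zero => simp
    | add f g hf hg => rw [map_add, Finsupp.add_apply, hf, hg, Finsupp.add_apply, mul_add]
    | single y' b =>
      classical
      rw [tn_single_single, Finsupp.single_apply, Finsupp.single_apply, Finsupp.single_apply]
      by_cases h1 : x' = x <;> by_cases h2 : y' = y <;> simp [h1, h2]

namespace BCx

variable (C : BCx X) (C' : BCx Y)

/-- the sign of the degree -/
noncomputable def eps : (X →₀ ℤ) →+ (X →₀ ℤ) :=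
  Finsupp.liftAddHom fun x => (zmultiplesHom _) (single x ((-1) ^ C.deg x))

theorem eps_single (x : X) (a : ℤ) : C.eps (single x a) = single x ((-1) ^ C.deg x * a) := by
  unfold eps
  rw [Finsupp.liftAddHom_apply_single, zmultiplesHom_apply, Finsupp.smul_single, smul_eq_mul,
    mul_comm]

theorem eps_apply (z : X →₀ ℤ) (x : X) : C.eps z x = (-1) ^ C.deg x * z x := by
  induction z using Finsupp.induction_linear with
  | zero => simp
  | add f g hf hg => rw [map_add, Finsupp.add_apply, hf, hg, Finsupp.add_apply, mul_add]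
  | single x' a =>
    classical
    rw [eps_single, Finsupp.single_apply, Finsupp.single_apply]
    by_cases h : x' = x <;> simp [h]

theorem eps_D (z : X →₀ ℤ) : C.eps (C.D z) = -C.D (C.eps z) := by
  induction z using Finsupp.induction_linear with
  | zero => simp
  | add f g hf hg => rw [map_add, map_add, hf, hg, map_add, map_add]; abel
  | single x a =>
    have h1 : (single x a : X →₀ ℤ) = a • single x 1 := by
      rw [Finsupp.smul_single, smul_eq_mul, mul_one]
    rw [h1, map_zsmul, map_zsmul, map_zsmul, map_zsmul, ← smul_neg]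
    congr 1
    rw [eps_single, mul_one]
    have h2 : (single x ((-1) ^ C.deg x) : X →₀ ℤ) = ((-1 : ℤ) ^ C.deg x) • single x 1 := by
      rw [Finsupp.smul_single, smul_eq_mul, mul_one]
    rw [h2, map_zsmul]
    ext y
    rw [eps_apply, Finsupp.neg_apply, Finsupp.smul_apply, smul_eq_mul]
    by_cases hy : C.D (single x 1) y = 0
    · rw [hy]; simp
    · rw [← C.D_deg x y hy, pow_succ]
      ring

/-- the tensor product -/
noncomputable def tens : BCx (X × Y) where
  D := Finsupp.liftAddHom fun p => (zmultiplesHom _)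
    (tn (C.D (single p.1 1)) (single p.2 1) + tn (C.eps (single p.1 1)) (C'.D (single p.2 1)))
  D_D := by
    set Δ : (X × Y →₀ ℤ) →+ (X × Y →₀ ℤ) := Finsupp.liftAddHom fun p => (zmultiplesHom _)
      (tn (C.D (single p.1 1)) (single p.2 1) +
        tn (C.eps (single p.1 1)) (C'.D (single p.2 1))) with hΔ
    have h1 : ∀ u v, Δ (tn u v) = tn (C.D u) v + tn (C.eps u) (C'.D v) := by
      intro u v
      induction u using Finsupp.induction_linear with
      | zero => simp
      | add f g hf hg =>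
        rw [map_add, AddMonoidHom.add_apply, map_add, hf, hg, map_add, map_add, map_add,
          AddMonoidHom.add_apply, map_add, AddMonoidHom.add_apply]
        abel
      | single x a =>
        induction v using Finsupp.induction_linear with
        | zero => simp
        | add f g hf hg =>
          rw [map_add, map_add, hf, hg, map_add, map_add, map_add]
          abel
        | single y b =>
          have e1 : (single x a : X →₀ ℤ) = a • single x 1 := by
            rw [Finsupp.smul_single, smul_eq_mul, mul_one]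
          have e2 : (single y b : Y →₀ ℤ) = b • single y 1 := by
            rw [Finsupp.smul_single, smul_eq_mul, mul_one]
          rw [e1, e2]
          simp only [map_zsmul, AddMonoidHom.coe_smul, Pi.smul_apply]
          rw [tn_single_single, hΔ, Finsupp.liftAddHom_apply_single, zmultiplesHom_apply]
          rw [mul_one, one_smul, smul_add, smul_add]
    intro z
    induction z using Finsupp.induction_linear with
    | zero => simp
    | add f g hf hg => rw [map_add, map_add, hf, hg, add_zero]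
    | single p a =>
      have e : (single p a : X × Y →₀ ℤ) = tn (single p.1 a) (single p.2 1) := by
        rw [tn_single_single, mul_one]
      rw [e, h1, map_add, h1, h1, C.D_D, C'.D_D, C.eps_D]
      simp
  deg p := C.deg p.1 + C'.deg p.2
  D_deg := by
    intro p q h
    rw [Finsupp.liftAddHom_apply_single, zmultiplesHom_apply, one_smul, Finsupp.add_apply] at h
    obtain ⟨x', y'⟩ := q
    obtain ⟨x, y⟩ := p
    rw [tn_apply, tn_apply, eps_single] at h
    classical
    by_cases h1 : C.D (single x 1) x' * (single y 1 : Y →₀ ℤ) y' = 0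
    · rw [h1, zero_add] at h
      have h2 := left_ne_zero_of_mul h
      have h3 := right_ne_zero_of_mul h
      rw [Finsupp.single_apply] at h2
      have h4 : x = x' := by
        by_contra h5
        rw [if_neg h5] at h2
        exact h2 rfl
      subst h4
      have := C'.D_deg y y' h3
      show C.deg x + C'.deg y' + 1 = C.deg x + C'.deg y
      omega
    · have h2 := left_ne_zero_of_mul h1
      have h3 := right_ne_zero_of_mul h1
      rw [Finsupp.single_apply] at h3
      have h4 : y = y' := by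
        by_contra h5
        rw [if_neg h5] at h3
        exact h3 rfl
      subst h4
      have := C.D_deg x x' h2
      show C.deg x' + C'.deg y + 1 = C.deg x + C'.deg y
      omega

theorem tens_D_single (x : X) (y : Y) (x' : X) (y' : Y) :
    (C.tens C').D (single (x, y) 1) (x', y') =
      C.D (single x 1) x' * (single y 1 : Y →₀ ℤ) y' +
        (-1) ^ C.deg x * ((single x 1 : X →₀ ℤ) x' * C'.D (single y 1) y') := by
  show (Finsupp.liftAddHom fun p : X × Y => (zmultiplesHom _)
    (tn (C.D (single p.1 1)) (single p.2 1) +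
      tn (C.eps (single p.1 1)) (C'.D (single p.2 1)))) (single (x, y) 1) (x', y') = _
  rw [Finsupp.liftAddHom_apply_single, zmultiplesHom_apply, one_smul, Finsupp.add_apply,
    tn_apply, tn_apply, eps_apply]
  congr 1
  by_cases h : x = x'
  · rw [h]; ring
  · rw [Finsupp.single_eq_of_ne' h]; ring

theorem D_self (x : X) : C.D (single x 1) x = 0 := by
  by_contra h
  have := C.D_deg x x h
  omega

theorem tens_fst (x x' : X) (y : Y) :
    (C.tens C').D (single (x, y) 1) (x', y) = C.D (single x 1) x' := by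
  rw [tens_D_single, D_self, Finsupp.single_eq_same]
  ring

theorem tens_snd (x : X) (y y' : Y) :
    (C.tens C').D (single (x, y) 1) (x, y') = (-1) ^ C.deg x * C'.D (single y 1) y' := by
  rw [tens_D_single, D_self, Finsupp.single_eq_same]
  ring

theorem tens_lt {x x' : X} {y y' : Y} (h : (C.tens C').Lt (x', y') (x, y)) :
    (y' = y ∧ C.Lt x' x) ∨ (x' = x ∧ C'.Lt y' y) := by
  classical
  unfold Lt at h
  rw [tens_D_single] at h
  by_cases h1 : y = y'
  · subst h1
    by_cases h2 : x = x'
    · subst h2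
      right
      refine ⟨rfl, fun h3 => h ?_⟩
      rw [h3, D_self]
      ring
    · left
      refine ⟨rfl, fun h3 => h ?_⟩
      rw [h3, Finsupp.single_eq_of_ne' h2]
      ring
  · rw [Finsupp.single_apply, if_neg h1, mul_zero, zero_add] at h
    right
    have h3 := right_ne_zero_of_mul h
    have h4 := left_ne_zero_of_mul h3
    have h5 := right_ne_zero_of_mul h3
    rw [Finsupp.single_apply] at h4
    refine ⟨?_, h5⟩
    by_contra h6
    rw [if_neg fun h7 => h6 h7.symm] at h4
    exact h4 rfl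

variable {C C'}

/-- isomorphisms of based complexes -/
theorem congr_key {S : Set X} {S' : Set Y} (j : X → Y) (hj : Set.BijOn j S S') (ε : ℤ)
    (h : ∀ x ∈ S, ∀ y ∈ S, C'.D (single (j x) 1) (j y) = ε * C.D (single x 1) y) :
    ∃ (φ : (X →₀ ℤ) →+ (Y →₀ ℤ)) (ψ : (Y →₀ ℤ) →+ (X →₀ ℤ)),
      (∀ z, InS S z → InS S' (φ z)) ∧ (∀ z, InS S' z → InS S (ψ z)) ∧
      (∀ z, InS S z → ψ (φ z) = z) ∧ (∀ z, InS S' z → φ (ψ z) = z) ∧
      (∀ z, InS S z → C'.DS S' (φ z) = ε • φ (C.DS S z)) ∧
      (∀ z x, InS S z → x ∈ S → φ z (j x) = z x) := by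
  classical
  by_cases hne : S.Nonempty
  swap
  · rw [Set.not_nonempty_iff_eq_empty] at hne
    subst hne
    have hS' : S' = ∅ := by
      have := hj.image_eq
      rw [Set.image_empty] at this
      exact this.symm
    subst hS'
    have e1 : ∀ z : X →₀ ℤ, InS (∅ : Set X) z → z = 0 := by
      intro z hz
      ext x
      by_contra h
      exact hz x h
    have e2 : ∀ z : Y →₀ ℤ, InS (∅ : Set Y) z → z = 0 := by
      intro z hz
      ext x
      by_contra h
      exact hz x h
    refine ⟨0, 0, fun z _ => InS.zero _, fun z _ => InS.zero _, fun z hz => ?_, fun z hz => ?_,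
      fun z hz => ?_, fun z x _ hx => hx.elim⟩
    · rw [e1 z hz]; rfl
    · rw [e2 z hz]; rfl
    · simp
  obtain ⟨x0, hx0⟩ := hne
  let i : Y → X := fun y => if h : ∃ x ∈ S, j x = y then h.choose else x0
  have hi1 : ∀ x ∈ S, i (j x) = x := by
    intro x hx
    have h : ∃ x' ∈ S, j x' = j x := ⟨x, hx, rfl⟩
    show (if h : ∃ x' ∈ S, j x' = j x then h.choose else x0) = x
    rw [dif_pos h]
    exact hj.injOn h.choose_spec.1 hx h.choose_spec.2
  have hi2 : ∀ y ∈ S', i y ∈ S ∧ j (i y) = y := by
    intro y hy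
    obtain ⟨x, hx, rfl⟩ := hj.surjOn hy
    rw [hi1 x hx]
    exact ⟨hx, rfl⟩
  have hφ : ∀ z : X →₀ ℤ, InS S z → ∀ y, mapDomain j z y = if y ∈ S' then z (i y) else 0 := by
    intro z hz y
    by_cases hy : y ∈ S'
    · rw [if_pos hy, mapDomain, Finsupp.sum_apply, Finsupp.sum]
      by_cases h0 : z (i y) = 0
      · rw [h0]
        apply Finset.sum_eq_zero
        intro x hx
        rw [Finsupp.single_apply, if_neg]
        intro hxy
        apply Finsupp.mem_support_iff.1 hx
        rw [← h0, ← hxy, hi1 x (hz x (Finsupp.mem_support_iff.1 hx))]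
      · rw [Finset.sum_eq_single_of_mem (i y) (Finsupp.mem_support_iff.2 h0), (hi2 y hy).2,
          Finsupp.single_eq_same]
        intro x hx hne
        rw [Finsupp.single_apply, if_neg]
        intro hxy
        apply hne
        rw [← hxy, hi1 x (hz x (Finsupp.mem_support_iff.1 hx))]
    · rw [if_neg hy, mapDomain, Finsupp.sum_apply, Finsupp.sum]
      apply Finset.sum_eq_zero
      intro x hx
      rw [Finsupp.single_apply, if_neg]
      intro hxy
      exact hy (hxy ▸ hj.mapsTo (hz x (Finsupp.mem_support_iff.1 hx)))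
  have hψ : ∀ z : Y →₀ ℤ, InS S' z → ∀ x, mapDomain i z x = if x ∈ S then z (j x) else 0 := by
    intro z hz x
    by_cases hx : x ∈ S
    · rw [if_pos hx, mapDomain, Finsupp.sum_apply, Finsupp.sum]
      by_cases h0 : z (j x) = 0
      · rw [h0]
        apply Finset.sum_eq_zero
        intro y hy
        rw [Finsupp.single_apply, if_neg]
        intro hxy
        apply Finsupp.mem_support_iff.1 hy
        rw [← h0, ← hxy, (hi2 y (hz y (Finsupp.mem_support_iff.1 hy))).2]
      · rw [Finset.sum_eq_single_of_mem (j x) (Finsupp.mem_support_iff.2 h0), hi1 x hx,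
          Finsupp.single_eq_same]
        intro y hy hne
        rw [Finsupp.single_apply, if_neg]
        intro hxy
        apply hne
        rw [← hxy, (hi2 y (hz y (Finsupp.mem_support_iff.1 hy))).2]
    · rw [if_neg hx, mapDomain, Finsupp.sum_apply, Finsupp.sum]
      apply Finset.sum_eq_zero
      intro y hy
      rw [Finsupp.single_apply, if_neg]
      intro hxy
      exact hx (hxy ▸ (hi2 y (hz y (Finsupp.mem_support_iff.1 hy))).1)
  have hφS : ∀ z, InS S z → InS S' (mapDomain j z) := by
    intro z hz y hy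
    by_contra h
    exact hy (by rw [hφ z hz, if_neg h])
  have hψS : ∀ z, InS S' z → InS S (mapDomain i z) := by
    intro z hz x hx
    by_contra h
    exact hx (by rw [hψ z hz, if_neg h])
  have hφj : ∀ z x, InS S z → x ∈ S → mapDomain j z (j x) = z x := by
    intro z x hz hx
    rw [hφ z hz, if_pos (hj.mapsTo hx), hi1 x hx]
  refine ⟨mapDomain.addMonoidHom j, mapDomain.addMonoidHom i, hφS, hψS, ?_, ?_, ?_, hφj⟩
  · intro z hz
    ext x
    show mapDomain i (mapDomain j z) x = z x
    rw [hψ _ (hφS z hz)]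
    by_cases hx : x ∈ S
    · rw [if_pos hx, hφj z x hz hx]
    · rw [if_neg hx]
      by_contra h
      exact hx (hz x (Ne.symm h))
  · intro z hz
    ext y
    show mapDomain j (mapDomain i z) y = z y
    rw [hφ _ (hψS z hz)]
    by_cases hy : y ∈ S'
    · rw [if_pos hy, hψ z hz, if_pos (hi2 y hy).1, (hi2 y hy).2]
    · rw [if_neg hy]
      by_contra h
      exact hy (hz y (Ne.symm h))
  · intro z hz
    ext y
    show C'.DS S' (mapDomain j z) y = (ε • mapDomain j (C.DS S z)) y
    rw [Finsupp.smul_apply, DS_apply]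
    by_cases hy : y ∈ S'
    · obtain ⟨x, hx, rfl⟩ := hj.surjOn hy
      rw [pr_apply_mem hy, hφj _ x (C.inS_DS S z) hx, DS_apply, pr_apply_mem hx, C.D_apply z x,
        C'.D_apply, Finsupp.sum_mapDomain_index (by intro b; rw [zero_mul])
          (by intro b m₁ m₂; rw [add_mul]), Finsupp.sum, Finsupp.sum, smul_eq_mul, Finset.mul_sum]
      refine Finset.sum_congr rfl fun w hw => ?_
      rw [h w (hz w (Finsupp.mem_support_iff.1 hw)) x hx]
      ring
    · rw [pr_apply_notMem hy, hφ _ (C.inS_DS S z), if_neg hy, smul_zero]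

theorem HG_congr {S : Set X} {S' : Set Y} (j : X → Y) (hj : Set.BijOn j S S') (ε : ℤ)
    (hε : ε * ε = 1)
    (h : ∀ x ∈ S, ∀ y ∈ S, C'.D (single (j x) 1) (j y) = ε * C.D (single x 1) y) (s : ℤ)
    (hdeg : ∀ x ∈ S, (C'.deg (j x) : ℤ) = C.deg x + s) (k : ℤ) :
    Nonempty (C.HG S k ≃+ C'.HG S' (k + s)) := by
  obtain ⟨φ, ψ, h1, h2, h3, h4, h5, h6⟩ := congr_key (C := C) (C' := C') j hj ε h
  have hd : ∀ k z, InS S z → (C.Hom k z ↔ C'.Hom (k + s) (φ z)) := by
    intro k z hz
    constructor
    · intro hk y hy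
      obtain ⟨x, hx, rfl⟩ := hj.surjOn (h1 z hz y hy)
      rw [h6 z x hz hx] at hy
      show (C'.deg (j x) : ℤ) = k + s
      rw [hdeg x hx, show (C.deg x : ℤ) = k from hk x hy]
    · intro hk x hx
      have hxS := hz x hx
      rw [← h6 z x hz hxS] at hx
      have h7 : (C'.deg (j x) : ℤ) = k + s := hk _ hx
      rw [hdeg x hxS] at h7
      show (C.deg x : ℤ) = k
      omega
  have h5' : ∀ z, InS S z → C.DS S z = 0 → C'.DS S' (φ z) = 0 := by
    intro z hz h0
    rw [h5 z hz, h0, map_zero, smul_zero]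
  have h5'' : ∀ z, InS S z → φ (C.DS S z) = ε • C'.DS S' (φ z) := by
    intro z hz
    rw [h5 z hz, smul_smul, hε, one_smul]
  let f : C.cyc S k →+ C'.cyc S' (k + s) := AddMonoidHom.mk' (fun z => ⟨φ z.1, h1 z.1 z.2.1,
    (hd k z.1 z.2.1).1 z.2.2.1, h5' z.1 z.2.1 z.2.2.2⟩) (by
      intro a b
      apply Subtype.ext
      exact map_add _ _ _)
  apply equiv_of_map f
  · rintro ⟨z, hz, hzk, hz0⟩
    constructor
    · rintro ⟨v, hv, hvk, hv'⟩
      have hv'' : C'.DS S' v = φ z := hv'
      have e1 : InS S (ε • ψ v) := by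
        intro x hx
        apply h2 v hv x
        intro h0
        apply hx
        rw [Finsupp.smul_apply, h0, smul_zero]
      have e2 : φ (ε • ψ v) = ε • v := by rw [map_zsmul, h4 v hv]
      refine ⟨ε • ψ v, e1, ?_, ?_⟩
      · rw [hd (k + 1) _ e1, e2]
        intro y hy
        rw [Finsupp.smul_apply] at hy
        have h8 : (C'.deg y : ℤ) = k + s + 1 := hvk y fun h0 => hy (by rw [h0, smul_zero])
        show (C'.deg y : ℤ) = k + 1 + s
        omega
      · show _ = z
        rw [← h3 _ (C.inS_DS S _), h5'' _ e1, e2, map_zsmul (C'.DS S'), smul_smul, hε, one_smul,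
          hv'', h3 z hz]
    · rintro ⟨v, hv, hvk, hv'⟩
      have hv'' : C.DS S v = z := hv'
      have e1 : InS S' (ε • φ v) := by
        intro x hx
        apply h1 v hv x
        intro h0
        apply hx
        rw [Finsupp.smul_apply, h0, smul_zero]
      refine ⟨ε • φ v, e1, ?_, ?_⟩
      · have h8 := (hd (k + 1) v hv).1 hvk
        intro y hy
        rw [Finsupp.smul_apply] at hy
        have h9 : (C'.deg y : ℤ) = k + 1 + s := h8 y fun h0 => hy (by rw [h0, smul_zero])
        show (C'.deg y : ℤ) = k + s + 1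
        omega
      · show _ = φ z
        rw [map_zsmul, h5 v hv, smul_smul, hε, one_smul, hv'']
  · rintro ⟨z, hz, hzk, hz0⟩
    have e1 : InS S (ψ z) := h2 z hz
    refine ⟨⟨ψ z, e1, ?_, ?_⟩, ?_⟩
    · rw [hd k _ e1, h4 z hz]; exact hzk
    · rw [← h3 _ (C.inS_DS S _), h5'' _ e1, h4 z hz, hz0, smul_zero, map_zero]
    · show z - φ (ψ z) ∈ _
      rw [h4 z hz, sub_self]
      exact zero_mem _

theorem Acy.congr {S : Set X} {S' : Set Y} (j : X → Y) (hj : Set.BijOn j S S') (ε : ℤ)
    (hε : ε * ε = 1)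
    (h : ∀ x ∈ S, ∀ y ∈ S, C'.D (single (j x) 1) (j y) = ε * C.D (single x 1) y)
    (hA : C.Acy S) : C'.Acy S' := by
  obtain ⟨φ, ψ, h1, h2, h3, h4, h5, h6⟩ := congr_key (C := C) (C' := C') j hj ε h
  intro z hz hz0
  have e1 : C.DS S (ψ z) = 0 := by
    have h7 := h5 (ψ z) (h2 z hz)
    rw [h4 z hz, hz0] at h7
    have h8 : φ (C.DS S (ψ z)) = 0 := by
      rw [← one_smul ℤ (φ (C.DS S (ψ z))), ← hε, mul_smul, ← h7, smul_zero]
    rw [← h3 _ (C.inS_DS S _), h8, map_zero]
  obtain ⟨w, hw, hw'⟩ := hA _ (h2 z hz) e1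
  refine ⟨ε • φ w, ?_, ?_⟩
  · intro x hx
    apply h1 w hw x
    intro h0
    apply hx
    rw [Finsupp.smul_apply, h0, smul_zero]
  · rw [map_zsmul, h5 w hw, smul_smul, hε, one_smul, hw', h4 z hz]

theorem acy_slice_left {S : Set X} (y : Y) (h : C.Acy S) :
    (C.tens C').Acy {p | p.1 ∈ S ∧ p.2 = y} := by
  refine Acy.congr (C := C) (fun x => (x, y)) ⟨?_, ?_, ?_⟩ 1 rfl ?_ h
  · intro x hx; exact ⟨hx, rfl⟩
  · intro a _ b _ hab; exact (Prod.ext_iff.1 hab).1
  · rintro ⟨a, b⟩ ⟨ha, rfl⟩; exact ⟨a, ha, rfl⟩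
  · intro a _ b _
    rw [tens_fst, one_mul]

theorem acy_slice_right {S : Set Y} (x : X) (h : C'.Acy S) :
    (C.tens C').Acy {p | p.2 ∈ S ∧ p.1 = x} := by
  refine Acy.congr (C := C') (fun y => (x, y)) ⟨?_, ?_, ?_⟩ ((-1) ^ C.deg x) ?_ ?_ h
  · intro y hy; exact ⟨hy, rfl⟩
  · intro a _ b _ hab; exact (Prod.ext_iff.1 hab).2
  · rintro ⟨a, b⟩ ⟨ha, rfl⟩; exact ⟨b, ha, rfl⟩
  · rw [← pow_add, ← two_mul, pow_mul]; norm_num
  · intro a _ b _
    rw [tens_snd]

theorem Acy.piecesL {S : Set (X × Y)} (hS : (C.tens C').Conv S)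
    (h : ∀ y, C.Acy {x | (x, y) ∈ S}) : (C.tens C').Acy S := by
  refine Acy.pieces hS Prod.snd C'.deg ?_ ?_
  · rintro ⟨x, y⟩ _ ⟨x', y'⟩ _ hlt
    rcases C.tens_lt C' hlt with ⟨h1, _⟩ | ⟨_, h1⟩
    · exact Or.inl h1
    · right
      have := C'.D_deg y y' h1
      show C'.deg y' < C'.deg y
      omega
  · intro y
    have h1 := acy_slice_left (C := C) (C' := C') y (h y)
    convert h1 using 1
    ext ⟨a, b⟩
    constructor
    · rintro ⟨h2, h3⟩
      have h3' : b = y := h3
      subst h3'
      exact ⟨h2, rfl⟩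
    · rintro ⟨h2, h3⟩
      have h3' : b = y := h3
      subst h3'
      exact ⟨h2, rfl⟩

theorem Acy.piecesR {S : Set (X × Y)} (hS : (C.tens C').Conv S)
    (h : ∀ x, C'.Acy {y | (x, y) ∈ S}) : (C.tens C').Acy S := by
  refine Acy.pieces hS Prod.fst C.deg ?_ ?_
  · rintro ⟨x, y⟩ _ ⟨x', y'⟩ _ hlt
    rcases C.tens_lt C' hlt with ⟨_, h1⟩ | ⟨h1, _⟩
    · right
      have := C.D_deg x x' h1
      show C.deg x' < C.deg x
      omega
    · exact Or.inl h1
  · intro x
    have h1 := acy_slice_right (C := C) (C' := C') x (h x)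
    convert h1 using 1
    ext ⟨a, b⟩
    constructor
    · rintro ⟨h2, h3⟩
      have h3' : a = x := h3
      subst h3'
      exact ⟨h2, rfl⟩
    · rintro ⟨h2, h3⟩
      have h3' : a = x := h3
      subst h3'
      exact ⟨h2, rfl⟩

theorem lt_fst {x x' : X} (y : Y) (h : C.Lt x' x) : (C.tens C').Lt (x', y) (x, y) := by
  unfold Lt
  rw [tens_fst]
  exact h

theorem lt_snd (x : X) {y y' : Y} (h : C'.Lt y' y) : (C.tens C').Lt (x, y') (x, y) := by
  unfold Lt
  rw [tens_snd]
  exact mul_ne_zero (pow_ne_zero _ (by norm_num)) h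

theorem Conv.sliceL {S : Set (X × Y)} (hS : (C.tens C').Conv S) (y : Y) :
    C.Conv {x | (x, y) ∈ S} := by
  intro x hx z hz w hw hzw
  exact hS _ hx _ hz _ (lt_fst y hw) (lt_fst y hzw)

theorem Conv.sliceR {S : Set (X × Y)} (hS : (C.tens C').Conv S) (x : X) :
    C'.Conv {y | (x, y) ∈ S} := by
  intro a ha z hz w hw hzw
  exact hS _ ha _ hz _ (lt_snd x hw) (lt_snd x hzw)

theorem Conv.prod {S : Set X} {T : Set Y} (hS : C.Conv S) (hT : C'.Conv T) :
    (C.tens C').Conv (S ×ˢ T) := by
  rintro ⟨x, y⟩ ⟨hx, hy⟩ ⟨z, t⟩ ⟨hz, ht⟩ ⟨w, v⟩ h1 h2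
  have hx' : x ∈ S := hx
  have hy' : y ∈ T := hy
  have hz' : z ∈ S := hz
  have ht' : t ∈ T := ht
  rcases C.tens_lt C' h1 with ⟨rfl, h3⟩ | ⟨rfl, h3⟩ <;>
    rcases C.tens_lt C' h2 with ⟨rfl, h4⟩ | ⟨rfl, h4⟩
  · exact ⟨hS x hx' z hz' w h3 h4, hy'⟩
  · exact ⟨hz', hy'⟩
  · exact ⟨hx', ht'⟩
  · exact ⟨hx', hT y hy' t ht' v h3 h4⟩

end BCx

end Pool.Agent.K6.H51.MHA
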