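import Pool.Agent.K6.H51.MHA.Lst

set_option autoImplicit false

/-! Visible parts of the boundary of a polyhedral cone. -/

namespace Pool.Agent.K6.H51.MHA

open Finsupp Filter Topology

universe u v

theorem ev_pos {a : ℝ} (b : ℝ) (h : 0 < a) : ∀ᶠ ε in 𝓝[>] (0 : ℝ), 0 < a + ε * b := by
  have h1 : Tendsto (fun ε : ℝ => a + ε * b) (𝓝 0) (𝓝 (a + 0 * b)) :=
    (tendsto_const_nhds.add (tendsto_id.mul_const b))
  rw [zero_mul, add_zero] at h1
  exact (h1.eventually (lt_mem_nhds h)).filter_mono nhdsWithin_le_nhds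

theorem ev_neg {a : ℝ} (b : ℝ) (h : a < 0) : ∀ᶠ ε in 𝓝[>] (0 : ℝ), a + ε * b < 0 := by
  filter_upwards [ev_pos (-b) (neg_pos.2 h)] with ε hε
  linarith

theorem ev_gt : ∀ᶠ ε in 𝓝[>] (0 : ℝ), 0 < ε := eventually_mem_nhdsWithin

theorem ev_ne (a : ℝ) {b : ℝ} (h : b ≠ 0) : ∀ᶠ ε in 𝓝[>] (0 : ℝ), a + ε * b ≠ 0 := by
  rcases lt_trichotomy a 0 with h1 | h1 | h1
  · filter_upwards [ev_neg b h1] with ε hε
    exact hε.ne
  · filter_upwards [ev_gt] with ε hε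
    rw [h1, zero_add]
    exact mul_ne_zero hε.ne' h
  · filter_upwards [ev_pos b h1] with ε hε
    exact hε.ne'

variable {V : Type u} [AddCommGroup V] [Module ℝ V] {I : Type v} (g : I → V →ₗ[ℝ] ℝ)

/-- the cone without its lineality space -/
def QQ (W : Submodule ℝ V) (K : Finset I) : Set V :=
  {v | v ∈ W ∧ (∀ i ∈ K, 0 ≤ g i v) ∧ ∃ i ∈ K, g i v ≠ 0}

/-- nonempty lists over the cone which are not contained in one of the walls of `S` -/
def RR (W : Submodule ℝ V) (K S : Finset I) : Set (List V) :=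
  {l | l ≠ [] ∧ (∀ v ∈ l, v ∈ QQ g W K) ∧ ∀ i ∈ S, ∃ v ∈ l, g i v ≠ 0}

theorem RR_conv (W : Submodule ℝ V) (K S : Finset I) : (LB V).Conv (RR g W K S) := by
  intro x hx z hz w hw hzw
  obtain ⟨P, a, Q, rfl, rfl⟩ := LB_lt hw
  obtain ⟨P', a', Q', h1, rfl⟩ := LB_lt hzw
  refine ⟨?_, fun v hv => hx.2.1 v ?_, fun i hi => ?_⟩
  · intro h
    rw [h] at h1
    simp at h1
  · rw [List.mem_append] at hv
    rw [List.mem_append, List.mem_cons]
    tauto
  · obtain ⟨v, hv, hv'⟩ := hz.2.2 i hi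
    refine ⟨v, ?_, hv'⟩
    rw [h1]
    rw [List.mem_append] at hv
    rw [List.mem_append, List.mem_cons]
    tauto

/-- spheres -/
inductive Sph {α : Type u} : ℕ → Set (List α) → Prop
  | zero : Sph 0 {[]}
  | succ (r : ℕ) (S S1 : Set (List α)) (h1 : (LB α).Clo S1 S) (h2 : (LB α).Conv S)
    (h3 : (LB α).Acy S) (h4 : Sph r S1) : Sph (r + 1) (S \ S1)

/-- all lists over a nonempty set form an acyclic complex -/
theorem acy_all {α : Type u} {T : Set α} {v : α} (hv : v ∈ T) : (LB α).Acy {l | ∀ a ∈ l, a ∈ T} := by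
  apply acy_cone v
  · intro l hl a ha
    rcases List.mem_cons.1 ha with rfl | ha
    · exact hv
    · exact hl a ha
  · intro l _ P a Q _ h b hb
    exact h b (List.mem_cons_of_mem _ hb)

theorem conv_all {α : Type u} {T : Set α} : (LB α).Conv {l | ∀ a ∈ l, a ∈ T} := by
  intro x hx z hz w hw hzw
  obtain ⟨P, a, Q, rfl, rfl⟩ := LB_lt hw
  intro b hb
  apply hx b
  rw [List.mem_append] at hb
  rw [List.mem_append, List.mem_cons]
  tauto

variable {g}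

/-- generic points -/
theorem exists_generic [DecidableEq I] {W : Submodule ℝ V} {K S : Finset I} {p q : V} (hSK : S ⊆ K)
    (hpW : p ∈ W) (hqW : q ∈ W) (hp : ∀ i ∈ K, 0 < g i p) (hq : ∀ i ∈ S, g i q < 0)
    (hq' : ∀ i ∈ K, i ∉ S → 0 < g i q)
    (hnp : ∀ i ∈ K, ∀ j ∈ K, i ≠ j → ∃ w ∈ W, g i p * g j w ≠ g j p * g i w) :
    ∃ q ∈ W, (∀ i ∈ S, g i q < 0) ∧ (∀ i ∈ K, i ∉ S → 0 < g i q) ∧
      ∀ i ∈ K, ∀ j ∈ K, i ≠ j → g i p * g j q ≠ g j p * g i q := by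
  let F : Finset (I × I) := (K ×ˢ K).filter fun x => x.1 ≠ x.2
  let h : F → Module.Dual ℝ V := fun x => g x.1.1 p • g x.1.2 - g x.1.2 p • g x.1.1
  have hh : ∀ x : F, ∃ w ∈ W, h x w ≠ 0 := by
    rintro ⟨⟨i, j⟩, hx⟩
    rw [Finset.mem_filter, Finset.mem_product] at hx
    obtain ⟨w, hw, hw'⟩ := hnp i hx.1.1 j hx.1.2 hx.2
    refine ⟨w, hw, ?_⟩
    show (g i p • g j - g j p • g i) w ≠ 0
    rw [LinearMap.sub_apply, LinearMap.smul_apply, LinearMap.smul_apply, smul_eq_mul, smul_eq_mul,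
      sub_ne_zero]
    exact hw'
  obtain ⟨w, hw, hw'⟩ := Module.Dual.exists_forall_mem_ne_zero_of_forall_exists W h hh
  have e1 : ∀ᶠ ε in 𝓝[>] (0 : ℝ), ∀ i ∈ S, g i q + ε * g i w < 0 :=
    (Filter.eventually_all_finset S).2 fun i hi => ev_neg _ (hq i hi)
  have e2 : ∀ᶠ ε in 𝓝[>] (0 : ℝ), ∀ i ∈ K \ S, 0 < g i q + ε * g i w :=
    (Filter.eventually_all_finset (K \ S)).2 fun i hi =>
      ev_pos _ (hq' i (Finset.mem_sdiff.1 hi).1 (Finset.mem_sdiff.1 hi).2)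
  have e3 : ∀ᶠ ε in 𝓝[>] (0 : ℝ), ∀ x : F, h x q + ε * h x w ≠ 0 :=
    Filter.eventually_all.2 fun x => ev_ne _ (hw' x)
  obtain ⟨ε, h1, h2, h3⟩ := (e1.and (e2.and e3)).exists
  have hlin : ∀ f : V →ₗ[ℝ] ℝ, f (q + ε • w) = f q + ε * f w := fun f => by
    rw [map_add, map_smul, smul_eq_mul]
  refine ⟨q + ε • w, W.add_mem hqW (W.smul_mem _ hw), ?_, ?_, ?_⟩
  · intro i hi
    rw [hlin]
    exact h1 i hi
  · intro i hi hi'
    rw [hlin]
    exact h2 i (Finset.mem_sdiff.2 ⟨hi, hi'⟩)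
  · intro i hi j hj hij heq
    apply h3 ⟨(i, j), Finset.mem_filter.2 ⟨Finset.mem_product.2 ⟨hi, hj⟩, hij⟩⟩
    rw [← hlin]
    show (g i p • g j - g j p • g i) (q + ε • w) = 0
    rw [LinearMap.sub_apply, LinearMap.smul_apply, LinearMap.smul_apply, smul_eq_mul, smul_eq_mul,
      sub_eq_zero]
    exact heq

theorem finrank_inf_ker [FiniteDimensional ℝ V] {W : Submodule ℝ V} {f : V →ₗ[ℝ] ℝ} {p : V}
    (hp : p ∈ W) (h : f p ≠ 0) :
    Module.finrank ℝ ↥(W ⊓ LinearMap.ker f) + 1 = Module.finrank ℝ W := by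
  have h1 : f.domRestrict W ≠ 0 := by
    intro h0
    apply h
    have : f.domRestrict W ⟨p, hp⟩ = 0 := by rw [h0]; rfl
    exact this
  have h2 := Module.Dual.finrank_ker_add_one_of_ne_zero h1
  rw [← h2, ← Submodule.map_comap_subtype, Submodule.finrank_map_subtype_eq]
  rfl

theorem RR_eq_of_prop [DecidableEq I] {W : Submodule ℝ V} {K S : Finset I} {p q : V}
    (hSK : S ⊆ K) (hqW : q ∈ W) (hp : ∀ i ∈ K, 0 < g i p) (hq : ∀ i ∈ S, g i q < 0)
    (hq' : ∀ i ∈ K, i ∉ S → 0 < g i q) {i j : I} (hi : i ∈ K) (hj : j ∈ K) (hij : i ≠ j)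
    (h : ∀ w ∈ W, g i p * g j w = g j p * g i w) :
    (i ∈ S ↔ j ∈ S) ∧ RR g W K S = RR g W (K.erase j) (S.erase j) ∧
      W ⊓ (⨅ i ∈ K, LinearMap.ker (g i)) = W ⊓ ⨅ i ∈ K.erase j, LinearMap.ker (g i) := by
  have hpi := hp i hi
  have hpj := hp j hj
  have k1 : ∀ w ∈ W, 0 ≤ g i w → 0 ≤ g j w := by
    intro w hw h1
    by_contra h2
    have h3 := h w hw
    nlinarith [mul_pos hpi (neg_pos.2 (not_le.1 h2)), mul_nonneg hpj.le h1]
  have k2 : ∀ w ∈ W, g i w = 0 ↔ g j w = 0 := by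
    intro w hw
    have h3 := h w hw
    constructor
    · intro h4
      rw [h4, mul_zero] at h3
      exact (mul_eq_zero.1 h3).resolve_left hpi.ne'
    · intro h4
      rw [h4, mul_zero] at h3
      exact (mul_eq_zero.1 h3.symm).resolve_left hpj.ne'
  have hS : i ∈ S ↔ j ∈ S := by
    have h3 := h q hqW
    constructor
    · intro h1
      by_contra h2
      nlinarith [mul_pos hpi (hq' j hj h2), mul_pos hpj (neg_pos.2 (hq i h1))]
    · intro h1
      by_contra h2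
      nlinarith [mul_pos hpj (hq' i hi h2), mul_pos hpi (neg_pos.2 (hq j h1))]
  have hQ : QQ g W K = QQ g W (K.erase j) := by
    ext v
    constructor
    · rintro ⟨h1, h2, k, hk, hk'⟩
      refine ⟨h1, fun i hi => h2 i (Finset.mem_of_mem_erase hi), ?_⟩
      by_cases hkj : k = j
      · subst hkj
        exact ⟨i, Finset.mem_erase.2 ⟨hij, hi⟩, fun h0 => hk' ((k2 v h1).1 h0)⟩
      · exact ⟨k, Finset.mem_erase.2 ⟨hkj, hk⟩, hk'⟩
    · rintro ⟨h1, h2, k, hk, hk'⟩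
      refine ⟨h1, fun k hk => ?_, k, Finset.mem_of_mem_erase hk, hk'⟩
      by_cases hkj : k = j
      · subst hkj
        exact k1 v h1 (h2 i (Finset.mem_erase.2 ⟨hij, hi⟩))
      · exact h2 k (Finset.mem_erase.2 ⟨hkj, hk⟩)
  refine ⟨hS, ?_, ?_⟩
  · ext l
    constructor
    · rintro ⟨h1, h2, h3⟩
      exact ⟨h1, fun v hv => by rw [← hQ]; exact h2 v hv,
        fun i hi => h3 i (Finset.mem_of_mem_erase hi)⟩
    · rintro ⟨h1, h2, h3⟩
      refine ⟨h1, fun v hv => by rw [hQ]; exact h2 v hv, fun k hk => ?_⟩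
      by_cases hkj : k = j
      · subst hkj
        obtain ⟨v, hv, hv'⟩ := h3 i (Finset.mem_erase.2 ⟨hij, hS.2 hk⟩)
        exact ⟨v, hv, fun h0 => hv' ((k2 v (h2 v hv).1).2 h0)⟩
      · exact h3 k (Finset.mem_erase.2 ⟨hkj, hk⟩)
  · ext v
    simp only [Submodule.mem_inf, Submodule.mem_iInf, LinearMap.mem_ker]
    constructor
    · rintro ⟨h1, h2⟩
      exact ⟨h1, fun i hi => h2 i (Finset.mem_of_mem_erase hi)⟩
    · rintro ⟨h1, h2⟩
      refine ⟨h1, fun k hk => ?_⟩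
      by_cases hkj : k = j
      · subst hkj
        exact (k2 v h1).1 (h2 i (Finset.mem_erase.2 ⟨hij, hi⟩))
      · exact h2 k (Finset.mem_erase.2 ⟨hkj, hk⟩)

/-- the last wall on the way from `p` to `q` -/
theorem exists_last [DecidableEq I] {W : Submodule ℝ V} {K S : Finset I} {p q : V}
    (hSK : S ⊆ K) (hS : S.Nonempty) (hpW : p ∈ W) (hqW : q ∈ W) (hp : ∀ i ∈ K, 0 < g i p)
    (hq : ∀ i ∈ S, g i q < 0) (hq' : ∀ i ∈ K, i ∉ S → 0 < g i q)
    (hgen : ∀ i ∈ K, ∀ j ∈ K, i ≠ j → g i p * g j q ≠ g j p * g i q) :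
    ∃ j ∈ S, ∃ qj ∈ W, g j qj = 0 ∧ (∀ i ∈ S.erase j, g i qj < 0) ∧
      ∀ i ∈ K, i ∉ S → 0 < g i qj := by
  obtain ⟨j, hj, hmax⟩ := S.exists_max_image (fun i => g i p / (g i p - g i q)) hS
  have hd : ∀ i ∈ S, 0 < g i p - g i q := fun i hi => by
    have := hp i (hSK hi)
    have := hq i hi
    linarith
  set t : ℝ := g j p / (g j p - g j q) with ht
  have hdj := hd j hj
  have ht0 : 0 < t := div_pos (hp j (hSK hj)) hdj
  have ht1 : t < 1 := by
    rw [ht, div_lt_one hdj]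
    have := hq j hj
    linarith
  have hlin : ∀ i, g i (p + t • (q - p)) = g i p - t * (g i p - g i q) := fun i => by
    rw [map_add, map_smul, map_sub, smul_eq_mul]
    ring
  refine ⟨j, hj, p + t • (q - p), W.add_mem hpW (W.smul_mem _ (W.sub_mem hqW hpW)), ?_, ?_, ?_⟩
  · rw [hlin, ht, div_mul_cancel₀ _ hdj.ne', sub_self]
  · intro i hi
    rw [Finset.mem_erase] at hi
    have hdi := hd i hi.2
    have h1 : g i p / (g i p - g i q) ≤ t := hmax i hi.2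
    have h2 : g i p / (g i p - g i q) ≠ t := by
      intro h3
      rw [ht, div_eq_div_iff hdi.ne' hdj.ne'] at h3
      apply hgen i (hSK hi.2) j (hSK hj) hi.1
      linarith
    have h3 : g i p / (g i p - g i q) < t := lt_of_le_of_ne h1 h2
    rw [div_lt_iff₀ hdi] at h3
    rw [hlin]
    linarith
  · intro i hi hi'
    rw [hlin]
    have := hp i hi
    have := hq' i hi hi'
    nlinarith [mul_pos (sub_pos.2 ht1) (hp i hi), mul_pos ht0 (hq' i hi hi')]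

end Pool.Agent.K6.H51.MHA
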