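import Pool.Agent.K6.H51.MHA.Vis

set_option autoImplicit false

/-! Visible parts of the boundary of a polyhedral cone: the theorem. -/

namespace Pool.Agent.K6.H51.MHA

open Finsupp Filter Topology

universe u v

variable {V : Type u} [AddCommGroup V] [Module ℝ V] {I : Type v} {g : I → V →ₗ[ℝ] ℝ}

theorem QQ_wall [DecidableEq I] {W : Submodule ℝ V} {K : Finset I} {j : I} (hj : j ∈ K) {v : V} :
    v ∈ QQ g (W ⊓ LinearMap.ker (g j)) (K.erase j) ↔ v ∈ QQ g W K ∧ g j v = 0 := by
  constructor
  · rintro ⟨⟨h1, h2⟩, h3, k, hk, hk'⟩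
    have h2' : g j v = 0 := h2
    refine ⟨⟨h1, fun i hi => ?_, k, Finset.mem_of_mem_erase hk, hk'⟩, h2'⟩
    by_cases hij : i = j
    · rw [hij, h2']
    · exact h3 i (Finset.mem_erase.2 ⟨hij, hi⟩)
  · rintro ⟨⟨h1, h2, k, hk, hk'⟩, h3⟩
    refine ⟨⟨h1, h3⟩, fun i hi => h2 i (Finset.mem_of_mem_erase hi), k, ?_, hk'⟩
    refine Finset.mem_erase.2 ⟨?_, hk⟩
    rintro rfl
    exact hk' h3

theorem RR_wall [DecidableEq I] {W : Submodule ℝ V} {K S : Finset I} {j : I} (hj : j ∈ K)
    (hjS : j ∈ S) : RR g W K S = RR g W K (S.erase j) \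
      RR g (W ⊓ LinearMap.ker (g j)) (K.erase j) (S.erase j) := by
  ext l
  constructor
  · rintro ⟨h1, h2, h3⟩
    refine ⟨⟨h1, h2, fun i hi => h3 i (Finset.mem_of_mem_erase hi)⟩, fun h4 => ?_⟩
    obtain ⟨v, hv, hv'⟩ := h3 j hjS
    exact hv' ((QQ_wall hj).1 (h4.2.1 v hv)).2
  · rintro ⟨⟨h1, h2, h3⟩, h4⟩
    refine ⟨h1, h2, fun i hi => ?_⟩
    by_cases hij : i = j
    · subst hij
      by_contra hcon
      push Not at hcon
      exact h4 ⟨h1, fun v hv => (QQ_wall hj).2 ⟨h2 v hv, hcon v hv⟩, h3⟩
    · exact h3 i (Finset.mem_erase.2 ⟨hij, hi⟩)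

theorem RR_clo [DecidableEq I] {W : Submodule ℝ V} {K S : Finset I} {j : I} (hj : j ∈ K) :
    (LB V).Clo (RR g (W ⊓ LinearMap.ker (g j)) (K.erase j) S) (RR g W K S) := by
  constructor
  · rintro l ⟨h1, h2, h3⟩
    exact ⟨h1, fun v hv => ((QQ_wall hj).1 (h2 v hv)).1, h3⟩
  · rintro l ⟨h1, h2, h3⟩ l' ⟨h1', h2', h3'⟩ hlt
    obtain ⟨P, a, Q, rfl, rfl⟩ := LB_lt hlt
    refine ⟨h1', fun v hv => h2 v ?_, h3'⟩
    rw [List.mem_append] at hv
    rw [List.mem_append, List.mem_cons]
    tauto

theorem vis [DecidableEq I] [FiniteDimensional ℝ V] (N : ℕ) : ∀ (W : Submodule ℝ V)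
    (K S : Finset I), K.card + S.card ≤ N → S ⊆ K → S.Nonempty →
    ∀ p ∈ W, (∀ i ∈ K, 0 < g i p) → ∀ q ∈ W, (∀ i ∈ S, g i q < 0) →
    (∀ i ∈ K, i ∉ S → 0 < g i q) →
    (S ≠ K → (LB V).Acy (RR g W K S)) ∧ (S = K → ∀ r, Module.finrank ℝ W =
      Module.finrank ℝ ↥(W ⊓ ⨅ i ∈ K, LinearMap.ker (g i)) + r → Sph r (RR g W K S)) := by
  induction N with
  | zero =>
    intro W K S hN _ hS
    have := hS.card_pos
    omega
  | succ N ih =>
    intro W K S hN hSK hS p hpW hp q0 hqW0 hq0 hq0'
    by_cases hprop : ∃ i ∈ K, ∃ j ∈ K, i ≠ j ∧ ∀ w ∈ W, g i p * g j w = g j p * g i w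
    · obtain ⟨i, hi, j, hj, hij, h⟩ := hprop
      obtain ⟨h1, h2, h3⟩ := RR_eq_of_prop hSK hqW0 hp hq0 hq0' hi hj hij h
      have hKc := Finset.card_erase_lt_of_mem hj
      have hSc := Finset.card_erase_le (s := S) (a := j)
      have h4 := ih W (K.erase j) (S.erase j) (by omega) (Finset.erase_subset_erase _ hSK) (by
        obtain ⟨s, hs⟩ := hS
        by_cases hsj : s = j
        · subst hsj
          exact ⟨i, Finset.mem_erase.2 ⟨hij, h1.2 hs⟩⟩
        · exact ⟨s, Finset.mem_erase.2 ⟨hsj, hs⟩⟩) p hpW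
        (fun i hi => hp i (Finset.mem_of_mem_erase hi)) q0 hqW0
        (fun i hi => hq0 i (Finset.mem_of_mem_erase hi)) (fun i hi hi' =>
          hq0' i (Finset.mem_of_mem_erase hi) fun hi2 =>
            hi' (Finset.mem_erase.2 ⟨Finset.ne_of_mem_erase hi, hi2⟩))
      rw [h2, h3]
      refine ⟨fun hne => h4.1 fun heq => hne ?_, fun heq => h4.2 (by rw [heq])⟩
      apply Finset.Subset.antisymm hSK
      intro k hk
      by_cases hkj : k = j
      · subst hkj
        have : i ∈ S.erase k := by rw [heq]; exact Finset.mem_erase.2 ⟨hij, hi⟩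
        exact h1.1 (Finset.mem_of_mem_erase this)
      · have : k ∈ S.erase j := by rw [heq]; exact Finset.mem_erase.2 ⟨hkj, hk⟩
        exact Finset.mem_of_mem_erase this
    · push Not at hprop
      obtain ⟨q, hqW, hq, hq', hgen⟩ := exists_generic hSK hpW hqW0 hp hq0 hq0' hprop
      obtain ⟨j, hjS, qj, hqjW, hqj0, hqjS, hqjK⟩ :=
        exists_last hSK hS hpW hqW hp hq hq' hgen
      have hjK := hSK hjS
      by_cases hSj : S.erase j = ∅
      · have hSj' : S = {j} := by
          rw [← Finset.insert_erase hjS, hSj]; rfl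
        subst hSj'
        by_cases hKj : K = {j}
        · subst hKj
          refine ⟨fun h => absurd rfl h, fun _ r hr => ?_⟩
          have h5 : W ⊓ (⨅ i ∈ ({j} : Finset I), LinearMap.ker (g i)) = W ⊓ LinearMap.ker (g j) := by
            simp
          rw [h5] at hr
          have h6 := finrank_inf_ker hpW (hp j hjK).ne'
          have hr1 : r = 0 + 1 := by omega
          subst hr1
          have h7 : RR g W {j} {j} = {l | ∀ a ∈ l, a ∈ QQ g W {j}} \ {[]} := by
            ext l
            constructor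
            · rintro ⟨h1, h2, _⟩
              exact ⟨h2, h1⟩
            · rintro ⟨h1, h2⟩
              refine ⟨h2, h1, fun i hi => ?_⟩
              cases l with
              | nil => exact absurd rfl h2
              | cons a l =>
                obtain ⟨_, _, k, hk, hk'⟩ := h1 a List.mem_cons_self
                rw [Finset.mem_singleton.1 hi, ← Finset.mem_singleton.1 hk]
                exact ⟨a, List.mem_cons_self, hk'⟩
          rw [h7]
          refine Sph.succ 0 _ _ ?_ conv_all ?_ Sph.zero
          · constructor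
            · rintro l rfl
              intro a ha
              exact absurd ha List.not_mem_nil
            · rintro l rfl l' _ hlt
              obtain ⟨P, a, Q, h, _⟩ := LB_lt hlt
              simp at h
          · refine acy_all (v := p) ⟨hpW, fun i hi => (hp i hi).le, j, hjK, (hp j hjK).ne'⟩
        · refine ⟨fun _ => ?_, fun h => absurd h.symm hKj⟩
          obtain ⟨k, hk, hkj⟩ : ∃ k ∈ K, k ≠ j := by
            by_contra hcon
            push Not at hcon
            apply hKj
            ext i
            rw [Finset.mem_singleton]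
            exact ⟨hcon i, fun h => h ▸ hjK⟩
          have hkS : k ∉ ({j} : Finset I) := fun h => hkj (Finset.mem_singleton.1 h)
          apply acy_cone qj
          · rintro l ⟨h1, h2, h3⟩
            refine ⟨List.cons_ne_nil _ _, fun v hv => ?_, fun i hi => ?_⟩
            · rcases List.mem_cons.1 hv with rfl | hv
              · refine ⟨hqjW, fun i hi => ?_, k, hk, (hqjK k hk hkS).ne'⟩
                by_cases hij : i = j
                · rw [hij, hqj0]
                · exact (hqjK i hi fun h => hij (Finset.mem_singleton.1 h)).le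
              · exact h2 v hv
            · obtain ⟨v, hv, hv'⟩ := h3 i hi
              exact ⟨v, List.mem_cons_of_mem _ hv, hv'⟩
          · rintro l ⟨h1, h2, h3⟩ P a Q rfl ⟨h4, h5, h6⟩
            have h7 : ∀ i ∈ ({j} : Finset I), ∃ v ∈ P ++ Q, g i v ≠ 0 := by
              intro i hi
              obtain ⟨v, hv, hv'⟩ := h6 i hi
              rcases List.mem_cons.1 hv with rfl | hv
              · rw [Finset.mem_singleton.1 hi] at hv'
                exact absurd hqj0 hv'
              · exact ⟨v, hv, hv'⟩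
            refine ⟨?_, fun v hv => h5 v (List.mem_cons_of_mem _ hv), h7⟩
            obtain ⟨v, hv, _⟩ := h7 j (Finset.mem_singleton_self j)
            exact List.ne_nil_of_mem hv
      · have hSj' : (S.erase j).Nonempty := Finset.nonempty_iff_ne_empty.2 hSj
        rw [RR_wall hjK hjS]
        have hcS := Finset.card_erase_lt_of_mem hjS
        have hcK := Finset.card_erase_lt_of_mem hjK
        -- a point just before the wall
        have e1 : ∀ᶠ ε in 𝓝[>] (0 : ℝ), ∀ i ∈ S.erase j, g i qj + ε * g i p < 0 :=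
          (Filter.eventually_all_finset _).2 fun i hi => ev_neg _ (hqjS i hi)
        obtain ⟨ε, hε1, hε2⟩ := (e1.and ev_gt).exists
        have hlin : ∀ i, g i (qj + ε • p) = g i qj + ε * g i p := fun i => by
          rw [map_add, map_smul, smul_eq_mul]
        have A1 : (LB V).Acy (RR g W K (S.erase j)) := by
          refine (ih W K (S.erase j) (by omega) ((Finset.erase_subset _ _).trans hSK) hSj' p hpW hp
            (qj + ε • p) (W.add_mem hqjW (W.smul_mem _ hpW)) ?_ ?_).1 ?_
          · intro i hi
            rw [hlin]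
            exact hε1 i hi
          · intro i hi hi'
            rw [hlin]
            by_cases hij : i = j
            · rw [hij, hqj0, zero_add]
              exact mul_pos hε2 (hp j hjK)
            · have := hqjK i hi fun h => hi' (Finset.mem_erase.2 ⟨hij, h⟩)
              have := mul_pos hε2 (hp i hi)
              linarith
          · intro h
            exact absurd (h ▸ hjK) (Finset.notMem_erase j S)
        by_cases hint : ∃ pj ∈ W ⊓ LinearMap.ker (g j), ∀ i ∈ K.erase j, 0 < g i pj
        · obtain ⟨pj, hpjW, hpj⟩ := hint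
          have h8 := ih (W ⊓ LinearMap.ker (g j)) (K.erase j) (S.erase j) (by omega)
            (Finset.erase_subset_erase _ hSK) hSj' pj hpjW hpj qj ⟨hqjW, hqj0⟩ hqjS
            (fun i hi hi' => hqjK i (Finset.mem_of_mem_erase hi) fun h =>
              hi' (Finset.mem_erase.2 ⟨Finset.ne_of_mem_erase hi, h⟩))
          constructor
          · intro hne
            refine BCx.Acy.right (RR_clo hjK) (RR_conv _ _ _ _) (h8.1 fun h => hne ?_) A1
            rw [← Finset.insert_erase hjS, h, Finset.insert_erase hjK]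
          · intro heq r hr
            have h9 := finrank_inf_ker hpW (hp j hjK).ne'
            have h10 : W ⊓ LinearMap.ker (g j) ⊓ (⨅ i ∈ K.erase j, LinearMap.ker (g i)) =
                W ⊓ ⨅ i ∈ K, LinearMap.ker (g i) := by
              ext v
              simp only [Submodule.mem_inf, Submodule.mem_iInf, LinearMap.mem_ker]
              constructor
              · rintro ⟨⟨h1, h2⟩, h3⟩
                refine ⟨h1, fun k hk => ?_⟩
                by_cases hkj : k = j
                · rw [hkj, h2]
                · exact h3 k (Finset.mem_erase.2 ⟨hkj, hk⟩)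
              · rintro ⟨h1, h2⟩
                exact ⟨⟨h1, h2 j hjK⟩, fun k hk => h2 k (Finset.mem_of_mem_erase hk)⟩
            have hle : Module.finrank ℝ ↥(W ⊓ ⨅ i ∈ K, LinearMap.ker (g i)) ≤
                Module.finrank ℝ ↥(W ⊓ LinearMap.ker (g j)) := by
              rw [← h10]
              exact Submodule.finrank_mono inf_le_left
            obtain ⟨r', rfl⟩ : ∃ r', r = r' + 1 := ⟨r - 1, by omega⟩
            refine Sph.succ r' _ _ (RR_clo hjK) (RR_conv _ _ _ _) A1 (h8.2 (by rw [heq]) r' ?_)
            rw [h10]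
            omega
        · -- no interior point on the wall
          have hvan : ∃ i0 ∈ S.erase j, ∀ v ∈ W ⊓ LinearMap.ker (g j),
              (∀ i ∈ K.erase j, 0 ≤ g i v) → g i0 v = 0 := by
            by_contra hcon
            push Not at hcon
            apply hint
            choose! w hw1 hw2 hw3 using hcon
            let s := ∑ i ∈ S.erase j, w i
            have hsW : s ∈ W ⊓ LinearMap.ker (g j) := Submodule.sum_mem _ fun i hi => hw1 i hi
            have hs0 : ∀ k ∈ K.erase j, 0 ≤ g k s := by
              intro k hk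
              show 0 ≤ g k (∑ i ∈ S.erase j, w i)
              rw [map_sum]
              exact Finset.sum_nonneg fun i hi => hw2 i hi k hk
            have hs1 : ∀ k ∈ S.erase j, 0 < g k s := by
              intro k hk
              have hkK : k ∈ K.erase j := Finset.erase_subset_erase _ hSK hk
              show 0 < g k (∑ i ∈ S.erase j, w i)
              rw [map_sum]
              exact Finset.sum_pos' (fun i hi => hw2 i hi k hkK)
                ⟨k, hk, lt_of_le_of_ne (hw2 k hk k hkK) (Ne.symm (hw3 k hk))⟩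
            have e2 : ∀ᶠ ε in 𝓝[>] (0 : ℝ), ∀ i ∈ S.erase j, 0 < g i s + ε * g i qj :=
              (Filter.eventually_all_finset _).2 fun i hi => ev_pos _ (hs1 i hi)
            obtain ⟨δ, hδ1, hδ2⟩ := (e2.and ev_gt).exists
            refine ⟨s + δ • qj, Submodule.add_mem _ hsW (Submodule.smul_mem _ _ ⟨hqjW, hqj0⟩), ?_⟩
            intro i hi
            rw [map_add, map_smul, smul_eq_mul]
            by_cases hiS : i ∈ S
            · exact hδ1 i (Finset.mem_erase.2 ⟨Finset.ne_of_mem_erase hi, hiS⟩)
            · have := hs0 i hi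
              have := mul_pos hδ2 (hqjK i (Finset.mem_of_mem_erase hi) hiS)
              linarith
          obtain ⟨i0, hi0, hi0'⟩ := hvan
          have hemp : RR g (W ⊓ LinearMap.ker (g j)) (K.erase j) (S.erase j) = ∅ := by
            rw [Set.eq_empty_iff_forall_notMem]
            rintro l ⟨_, h2, h3⟩
            obtain ⟨v, hv, hv'⟩ := h3 i0 hi0
            exact hv' (hi0' v (h2 v hv).1 (h2 v hv).2.1)
          constructor
          · intro _
            rw [hemp, Set.sdiff_empty]
            exact A1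
          · intro heq
            exfalso
            apply hint
            refine ⟨-qj, Submodule.neg_mem _ ⟨hqjW, hqj0⟩, fun i hi => ?_⟩
            rw [map_neg]
            have := hqjS i (by rw [heq]; exact hi)
            linarith

/-- the reduction of the rank by a sphere -/
theorem Sph.HG {α : Type u} {Y : Type v} {C' : BCx Y} {T : Set Y} (hT : C'.Conv T) {r : ℕ}
    {S : Set (List α)} (h : Sph r S) (k : ℤ) :
    Nonempty (((LB α).tens C').HG (S ×ˢ T) (k + r) ≃+ ((LB α).tens C').HG ({[]} ×ˢ T) k) := by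
  induction h with
  | zero =>
    rw [Nat.cast_zero, add_zero]
    exact ⟨AddEquiv.refl _⟩
  | succ r S S1 h1 h2 h3 _ ih =>
    obtain ⟨e⟩ := ih
    have hclo : ((LB α).tens C').Clo (S1 ×ˢ T) (S ×ˢ T) := by
      constructor
      · rintro ⟨x, y⟩ ⟨hx, hy⟩
        exact ⟨h1.1 hx, hy⟩
      · rintro ⟨x, y⟩ ⟨hx, hy⟩ ⟨x', y'⟩ ⟨hx', hy'⟩ hlt
        have hx : x ∈ S1 := hx
        rcases (LB α).tens_lt C' hlt with ⟨rfl, h4⟩ | ⟨rfl, h4⟩
        · exact ⟨h1.2 x hx x' hx' h4, hy'⟩
        · exact ⟨hx, hy'⟩
    have hacy : ((LB α).tens C').Acy (S ×ˢ T) := by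
      apply BCx.Acy.piecesL (BCx.Conv.prod h2 hT)
      intro y
      by_cases hy : y ∈ T
      · have : {x | (x, y) ∈ S ×ˢ T} = S := by
          ext x
          exact ⟨fun h => h.1, fun h => ⟨h, hy⟩⟩
        rw [this]
        exact h3
      · have : {x | (x, y) ∈ S ×ˢ T} = ∅ := by
          rw [Set.eq_empty_iff_forall_notMem]
          intro x hx
          exact hy hx.2
        rw [this]
        exact BCx.acy_empty
    obtain ⟨e'⟩ := BCx.HG_conn hclo (BCx.Conv.prod h2 hT) hacy (k + r)
    have hset : (S ×ˢ T) \ (S1 ×ˢ T) = (S \ S1) ×ˢ T := by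
      ext ⟨x, y⟩
      constructor
      · rintro ⟨⟨h4, h5⟩, h6⟩
        exact ⟨⟨h4, fun h7 => h6 ⟨h7, h5⟩⟩, h5⟩
      · rintro ⟨⟨h4, h5⟩, h6⟩
        exact ⟨⟨h4, h6⟩, fun h7 => h5 h7.1⟩
    rw [hset] at e'
    rw [Nat.cast_succ, ← add_assoc]
    exact ⟨e'.trans e⟩

end Pool.Agent.K6.H51.MHA
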